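import Pool.Agent.Lib.MP_e426f4_ag.M.Defs
import Pool.Agent.Lib.MP_e426f4_ag.G.Basic
import Pool.Agent.Lib.MP_e426f4_ag.G.Alg

/-! Evaluation of all blocks but one. -/

namespace GenHP

open Finset Filter Topology

section multi
variable {ι : Type} [Fintype ι] [DecidableEq ι] {n d : ι → ℕ}

section YE
variable {R : Type*} [CommRing R]

theorem eval_mon_prod (t : MIdx n d) (z : MVar n → R) :
    mon z (mex t) = ∏ i, mon (fun a => z ⟨i, a⟩) (t i).1 := by
  unfold mon mex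
  rw [Fintype.prod_sigma]

theorem eval_mon_split (i0 : ι) (t : MIdx n d) (z : MVar n → R) :
    mon z (mex t) = mon (fun a => z ⟨i0, a⟩) (t i0).1 *
      ∏ j : {j // j ≠ i0}, mon (fun a => z ⟨j, a⟩) (t j).1 := by
  rw [eval_mon_prod, Fintype.prod_eq_mul_prod_subtype_ne _ i0]

theorem eval_dmon_split (i0 : ι) (t : MIdx n d) (z : MVar n → R) (a : Fin (n i0 + 1)) :
    dmon z ⟨i0, a⟩ (mex t) = dmon (fun b => z ⟨i0, b⟩) a (t i0).1 *
      ∏ j : {j // j ≠ i0}, mon (fun b => z ⟨j, b⟩) (t j).1 := by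
  unfold dmon
  rw [Fintype.prod_sigma, Fintype.prod_eq_mul_prod_subtype_ne _ i0]
  have e1 : ∏ b, z ⟨i0, b⟩ ^ (if (⟨i0, b⟩ : MVar n) = ⟨i0, a⟩ then mex t ⟨i0, b⟩ - 1
      else mex t ⟨i0, b⟩) =
      ∏ b, z ⟨i0, b⟩ ^ (if b = a then (t i0).1 b - 1 else (t i0).1 b) := by
    refine Finset.prod_congr rfl fun b _ => ?_
    by_cases h : b = a
    · subst h
      rw [if_pos rfl, if_pos rfl]
      rfl
    · rw [if_neg h, if_neg]
      · rfl
      · intro hc
        exact h (by simpa using hc)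
  have e2 : ∀ j : {j // j ≠ i0}, ∏ b, z ⟨j.1, b⟩ ^ (if (⟨j.1, b⟩ : MVar n) = ⟨i0, a⟩ then
      mex t ⟨j.1, b⟩ - 1 else mex t ⟨j.1, b⟩) = mon (fun b => z ⟨j, b⟩) (t j).1 := by
    intro j
    unfold mon
    refine Finset.prod_congr rfl fun b _ => ?_
    rw [if_neg]
    · rfl
    · intro hc
      exact j.2 (congrArg Sigma.fst hc)
  rw [e1, Finset.prod_congr rfl (fun j _ => e2 j), ← mul_assoc]
  rfl

theorem eval_spl_self (i0 : ι) (t : Idx (n i0) (d i0)) (s : SIdx n d i0) :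
    (spl n d i0).symm (t, s) i0 = t := by
  simp [spl]

theorem eval_spl_ne (i0 : ι) (t : Idx (n i0) (d i0)) (s : SIdx n d i0) (j : {j // j ≠ i0}) :
    (spl n d i0).symm (t, s) j = s j := by
  simp [spl, j.2]

theorem MF_eq_F_ev (i0 : ι) (A : MIdx n d → R) (z : MVar n → R) :
    MF A z = F (ev i0 A z) (fun a => z ⟨i0, a⟩) := by
  unfold MF Fg F ev vy
  rw [← Equiv.sum_comp (spl n d i0).symm, Fintype.sum_prod_type]
  refine Finset.sum_congr rfl fun t _ => ?_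
  rw [Finset.sum_mul]
  refine Finset.sum_congr rfl fun s _ => ?_
  rw [eval_mon_split i0, eval_spl_self,
    Finset.prod_congr rfl (fun j _ => by rw [eval_spl_ne i0 t s j])]
  ring

theorem MD_eq_D_ev (i0 : ι) (A : MIdx n d → R) (z : MVar n → R) (a : Fin (n i0 + 1)) :
    MD A z ⟨i0, a⟩ = D (ev i0 A z) (fun b => z ⟨i0, b⟩) a := by
  unfold MD Dg D ev vy
  rw [← Equiv.sum_comp (spl n d i0).symm, Fintype.sum_prod_type]
  refine Finset.sum_congr rfl fun t _ => ?_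
  rw [Finset.sum_mul]
  refine Finset.sum_congr rfl fun s _ => ?_
  rw [eval_dmon_split i0, eval_spl_self,
    Finset.prod_congr rfl (fun j _ => by rw [eval_spl_ne i0 t s j])]
  ring

/-- `ev` depends only on the other blocks -/
theorem ev_congr (i0 : ι) (A : MIdx n d → R) (z z' : MVar n → R)
    (h : ∀ (j : ι) (a : Fin (n j + 1)), j ≠ i0 → z ⟨j, a⟩ = z' ⟨j, a⟩) :
    ev i0 A z = ev i0 A z' := by
  funext t
  unfold ev vy
  refine Finset.sum_congr rfl fun s _ => ?_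
  congr 1
  refine Finset.prod_congr rfl fun j _ => ?_
  have : (fun a => z ⟨j.1, a⟩) = fun a => z' ⟨j.1, a⟩ := funext fun a => h j.1 a j.2
  rw [this]

theorem ev_map {S : Type*} [CommRing S] (f : R →+* S) (i0 : ι) (A : MIdx n d → R)
    (z : MVar n → R) (t : Idx (n i0) (d i0)) :
    ev i0 (fun t => f (A t)) (fun v => f (z v)) t = f (ev i0 A z t) := by
  simp only [ev, vy, mon, map_sum, map_mul, map_prod, map_pow]

end YE

theorem vy_prim (i0 : ι) (z : MVar n → ℤ) (hz : ∀ j, j ≠ i0 → Prim fun a => z ⟨j, a⟩) :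
    ∃ c : SIdx n d i0 → ℤ, ∑ s, c s * vy i0 z s = 1 := by
  choose c hc using fun j : {j // j ≠ i0} => hz j.1 j.2
  refine ⟨fun s => ∏ j : {j // j ≠ i0}, T (fun _ : Fin (d j) => c j) (s j), ?_⟩
  have h1 : ∀ s : SIdx n d i0, (∏ j : {j // j ≠ i0}, T (fun _ : Fin (d j) => c j) (s j)) *
      vy i0 z s = ∏ j : {j // j ≠ i0}, (T (fun _ : Fin (d j) => c j) (s j) *
        mon (fun a => z ⟨j, a⟩) (s j).1) := by
    intro s
    unfold vy
    rw [Finset.prod_mul_distrib]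
  rw [Finset.sum_congr rfl (fun s _ => h1 s)]
  have h2 := Finset.prod_univ_sum (fun j : {j // j ≠ i0} => (univ : Finset (Idx (n j) (d j))))
    (fun j t => T (fun _ : Fin (d j) => c j) t * mon (fun a => z ⟨j, a⟩) t.1)
  rw [Fintype.piFinset_univ] at h2
  rw [← h2]
  refine Finset.prod_eq_one fun j _ => ?_
  have h3 := F_T (fun _ : Fin (d j) => c j) (fun a => z ⟨j.1, a⟩)
  unfold F at h3
  rw [h3]
  exact Finset.prod_eq_one fun i _ => hc j

theorem eval_mon_abs_le {m e : ℕ} (x : Fin (m + 1) → ℤ) (N : ℕ) (hx : ∀ a, |x a| ≤ N)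
    (t : Idx m e) : |mon x t.1| ≤ (N : ℤ) ^ e := by
  unfold mon
  rw [Finset.abs_prod]
  calc ∏ a, |x a ^ t.1 a| ≤ ∏ a, (N : ℤ) ^ t.1 a := by
        refine Finset.prod_le_prod (fun a _ => abs_nonneg _) fun a _ => ?_
        rw [abs_pow]
        exact pow_le_pow_left₀ (abs_nonneg _) (hx a) _
    _ = (N : ℤ) ^ e := by rw [Finset.prod_pow_eq_pow_sum, t.2]

theorem vy_sup (i0 : ι) (z : MVar n → ℤ) (N : ι → ℕ)
    (hz : ∀ (j : ι) (a : Fin (n j + 1)), |z ⟨j, a⟩| ≤ N j) (hz1 : ∀ j, ∃ a, |z ⟨j, a⟩| = N j) :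
    (∀ s : SIdx n d i0, |vy i0 z s| ≤ (∏ j : {j // j ≠ i0}, N j ^ d j : ℕ)) ∧
      ∃ s : SIdx n d i0, |vy i0 z s| = (∏ j : {j // j ≠ i0}, N j ^ d j : ℕ) := by
  constructor
  · intro s
    unfold vy
    rw [Finset.abs_prod]
    push_cast
    exact Finset.prod_le_prod (fun j _ => abs_nonneg _) fun j _ =>
      eval_mon_abs_le _ (N j) (fun a => hz j a) (s j)
  · choose a ha using hz1
    refine ⟨fun j => mk fun _ => a j, ?_⟩
    unfold vy
    rw [Finset.abs_prod]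
    push_cast
    refine Finset.prod_congr rfl fun j _ => ?_
    rw [mon_mk]
    simp only [Finset.prod_const, Finset.card_univ, Fintype.card_fin]
    rw [abs_pow, ha]

theorem soluble_of_ev (i0 : ι) (A : MIdx n d → ℤ) (z : MVar n → ℤ)
    (hz : ∀ j, j ≠ i0 → Prim fun a => z ⟨j, a⟩) (h : Soluble (ev i0 A z)) : MSoluble A := by
  obtain ⟨x, hx0, hx⟩ := h
  set z' : MVar n → ℚ := fun v => if h : v.1 = i0 then x (h ▸ v.2) else (z v : ℚ) with hz'
  have e0 : ∀ a, z' ⟨i0, a⟩ = x a := by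
    intro a
    rw [hz']
    dsimp only
    rw [dif_pos rfl]
  have e1 : ∀ (j : ι) (a : Fin (n j + 1)), j ≠ i0 → z' ⟨j, a⟩ = (z ⟨j, a⟩ : ℚ) := by
    intro j a hj
    rw [hz']
    dsimp only
    rw [dif_neg hj]
  refine ⟨z', ?_, ?_⟩
  · intro i
    by_cases hi : i = i0
    · subst hi
      obtain ⟨a, ha⟩ := Function.ne_iff.1 hx0
      exact ⟨a, by rw [e0]; exact ha⟩
    · obtain ⟨c, hc⟩ := hz i hi
      by_contra hcon
      push Not at hcon
      have h0 : ∀ a, z ⟨i, a⟩ = 0 := by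
        intro a
        have := hcon a
        rw [e1 i a hi] at this
        exact_mod_cast this
      have : ∑ a, c a * z ⟨i, a⟩ = 0 := Finset.sum_eq_zero fun a _ => by rw [h0 a, mul_zero]
      rw [this] at hc
      exact zero_ne_one hc
  · rw [MF_eq_F_ev i0]
    have e2 : (fun a => z' ⟨i0, a⟩) = x := funext e0
    rw [e2, ev_congr i0 _ z' (fun v => (z v : ℚ)) (fun j a hj => e1 j a hj)]
    have e3 : ev i0 (fun t => (A t : ℚ)) (fun v => (z v : ℚ)) = fun t => ((ev i0 A z t : ℤ) : ℚ) :=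
      funext fun t => ev_map (Int.castRingHom ℚ) i0 A z t
    rw [e3]
    exact hx

end multi

end GenHP
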