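import Pool.Agent.Lib.MP_e426f4_ag.M.Alg

/-! Module M-SPEC: special monomials. -/

namespace GenHP

open Finset Filter Topology

section multi
variable {ι : Type} [Fintype ι] [DecidableEq ι] {n d : ι → ℕ}

section SPEC
variable {R : Type*} [CommRing R]

theorem msp_mk_const {m k : ℕ} (x : Fin (m + 1)) (j : Fin (m + 1)) :
    (mk (d := k) fun _ => x).1 j = if j = x then k else 0 := by
  show ((univ : Finset (Fin k)).filter fun _ => x = j).card = _
  by_cases h : x = j
  · subst h
    simp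
  · rw [if_neg (fun h' => h h'.symm), Finset.filter_false_of_mem (fun _ _ => h)]
    simp

/-- exponent vector of `z_v z_τ^{k-1}` -/
theorem msp_mk_one {m k : ℕ} (hk : 1 ≤ k) (x y : Fin (m + 1)) (hxy : y ≠ x) (j : Fin (m + 1)) :
    (mk (d := k) fun i => if (i : ℕ) = 0 then y else x).1 j =
      if j = y then 1 else if j = x then k - 1 else 0 := by
  show ((univ : Finset (Fin k)).filter fun i : Fin k => (if (i : ℕ) = 0 then y else x) = j).card = _
  by_cases hy : j = y
  · subst hy
    rw [if_pos rfl]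
    have h1 : ((univ : Finset (Fin k)).filter fun i : Fin k => (if (i : ℕ) = 0 then j else x) = j) =
        {⟨0, hk⟩} := by
      ext i
      simp only [Finset.mem_filter, Finset.mem_univ, true_and, Finset.mem_singleton, Fin.ext_iff]
      constructor
      · intro h
        by_contra hcon
        rw [if_neg hcon] at h
        exact hxy (Fin.ext h.symm)
      · intro h
        rw [if_pos h]
    rw [h1, Finset.card_singleton]
  · rw [if_neg hy]
    by_cases hx : j = x
    · subst hx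
      rw [if_pos rfl]
      have h1 : ((univ : Finset (Fin k)).filter fun i : Fin k => (if (i : ℕ) = 0 then y else j) = j) =
          univ.erase ⟨0, hk⟩ := by
        ext i
        simp only [Finset.mem_filter, Finset.mem_univ, true_and, Finset.mem_erase, and_true, ne_eq,
          Fin.ext_iff]
        constructor
        · intro h hcon
          rw [if_pos hcon] at h
          exact hxy (Fin.ext h)
        · intro h
          rw [if_neg h]
      rw [h1, Finset.card_erase_of_mem (Finset.mem_univ _), Finset.card_univ, Fintype.card_fin]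
    · rw [if_neg hx, Finset.card_eq_zero, Finset.filter_eq_empty_iff]
      intro i _
      by_cases h : (i : ℕ) = 0
      · rw [if_pos h]
        exact fun h' => hy h'.symm
      · rw [if_neg h]
        exact fun h' => hx h'.symm

theorem msp_ms0 (τ : ∀ i, Fin (n i + 1)) (v : MVar n) :
    mex (ms0 τ : MIdx n d) v = if v.2 = τ v.1 then d v.1 else 0 := by
  unfold mex ms0
  exact msp_mk_const _ _

theorem msp_ms1_self (hd : ∀ i, 1 ≤ d i) (τ : ∀ i, Fin (n i + 1)) (v : MVar n)
    (hv : v.2 ≠ τ v.1) (a : Fin (n v.1 + 1)) :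
    mex (ms1 τ v : MIdx n d) ⟨v.1, a⟩ = if a = v.2 then 1 else if a = τ v.1 then d v.1 - 1 else 0 := by
  unfold mex ms1
  show (Function.update (ms0 τ) v.1 (mk fun j => if (j : ℕ) = 0 then v.2 else τ v.1) v.1).1 a = _
  rw [Function.update_self]
  exact msp_mk_one (hd _) _ _ hv a

theorem msp_ms1_other (τ : ∀ i, Fin (n i + 1)) (v u : MVar n) (h : u.1 ≠ v.1) :
    mex (ms1 τ v : MIdx n d) u = if u.2 = τ u.1 then d u.1 else 0 := by
  unfold mex ms1
  rw [Function.update_of_ne h]
  exact msp_mk_const _ _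

theorem ms1_ne_ms0 (hd : ∀ i, 1 ≤ d i) (τ : ∀ i, Fin (n i + 1)) (v : MVar n)
    (hv : v.2 ≠ τ v.1) : (ms1 τ v : MIdx n d) ≠ ms0 τ := by
  intro h
  have h1 : mex (ms1 τ v : MIdx n d) v = mex (ms0 τ : MIdx n d) v := by rw [h]
  rw [msp_ms0, if_neg hv] at h1
  have h2 := msp_ms1_self hd τ v hv v.2
  rw [if_pos rfl] at h2
  have h3 : mex (ms1 τ v : MIdx n d) ⟨v.1, v.2⟩ = mex (ms1 τ v : MIdx n d) v := rfl
  rw [h3, h1] at h2
  exact absurd h2 (by norm_num)

/-- the exponent of `u` off `τ` in `ms1 τ v` -/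
theorem msp_ms1_off (hd : ∀ i, 1 ≤ d i) (τ : ∀ i, Fin (n i + 1)) (v u : MVar n)
    (hv : v.2 ≠ τ v.1) (hu : u.2 ≠ τ u.1) :
    mex (ms1 τ v : MIdx n d) u = if u = v then 1 else 0 := by
  by_cases h : u.1 = v.1
  · obtain ⟨i, a⟩ := u
    obtain ⟨j, b⟩ := v
    simp only at h
    subst h
    have h1 := msp_ms1_self hd τ ⟨i, b⟩ hv a
    rw [h1]
    by_cases hab : a = b
    · subst hab
      simp
    · rw [if_neg hab, if_neg hu, if_neg]
      intro h'
      exact hab (by simpa using h')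
  · rw [msp_ms1_other τ v u h, if_neg hu, if_neg]
    intro h'
    exact h (by rw [h'])

theorem ms1_inj (hd : ∀ i, 1 ≤ d i) (τ : ∀ i, Fin (n i + 1)) (v v' : MVar n)
    (hv : v.2 ≠ τ v.1) (hv' : v'.2 ≠ τ v'.1) (h : (ms1 τ v : MIdx n d) = ms1 τ v') : v = v' := by
  have h1 : mex (ms1 τ v : MIdx n d) v = mex (ms1 τ v' : MIdx n d) v := by rw [h]
  rw [msp_ms1_off hd τ v v hv hv, msp_ms1_off hd τ v' v hv' hv, if_pos rfl] at h1
  by_contra hcon
  rw [if_neg hcon] at h1
  exact absurd h1 (by norm_num)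

theorem mon_ms0 (τ : ∀ i, Fin (n i + 1)) (z : MVar n → R) :
    mon z (mex (ms0 τ : MIdx n d)) = ∏ i, z ⟨i, τ i⟩ ^ d i := by
  unfold mon
  rw [Fintype.prod_sigma]
  refine Finset.prod_congr rfl fun i _ => ?_
  rw [Finset.prod_eq_single (τ i)]
  · rw [msp_ms0, if_pos rfl]
  · intro a _ ha
    rw [msp_ms0, if_neg ha, pow_zero]
  · intro h
    exact absurd (Finset.mem_univ _) h

theorem dmon_ms0 (τ : ∀ i, Fin (n i + 1)) (z : MVar n → R) (v : MVar n) (hv : v.2 ≠ τ v.1) :
    dmon z v (mex (ms0 τ : MIdx n d)) = 0 := by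
  unfold dmon
  rw [msp_ms0, if_neg hv]
  simp

/-- the general (degree `≥ 0`) vanishing: needs only that `v` does not occur in `ms1 τ v'` -/
theorem dmon_ms1_of_ne (τ : ∀ i, Fin (n i + 1)) (z : MVar n → R) (v v' : MVar n)
    (hv : v.2 ≠ τ v.1) (hv' : v'.2 ≠ τ v'.1) (h : v ≠ v') :
    dmon z v (mex (ms1 τ v' : MIdx n d)) = 0 := by
  have h0 : mex (ms1 τ v' : MIdx n d) v = 0 := by
    by_cases h1 : v.1 = v'.1
    · obtain ⟨i, a⟩ := v
      obtain ⟨j, b⟩ := v'
      simp only at h1
      subst h1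
      have hab : a ≠ b := by
        rintro rfl
        exact h rfl
      unfold mex ms1
      show (Function.update (ms0 τ) i (mk fun j => if (j : ℕ) = 0 then b else τ i) i).1 a = 0
      rw [Function.update_self]
      show ((univ : Finset (Fin (d i))).filter
        fun j : Fin (d i) => (if (j : ℕ) = 0 then b else τ i) = a).card = 0
      rw [Finset.card_eq_zero, Finset.filter_eq_empty_iff]
      intro j _
      by_cases hj : (j : ℕ) = 0
      · rw [if_pos hj]
        exact fun h' => hab h'.symm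
      · rw [if_neg hj]
        exact fun h' => hv h'.symm
    · rw [msp_ms1_other τ v' v h1, if_neg hv]
  unfold dmon
  rw [h0]
  simp

theorem dmon_ms1 (hd : ∀ i, 1 ≤ d i) (τ : ∀ i, Fin (n i + 1)) (z : MVar n → R) (v : MVar n)
    (hv : v.2 ≠ τ v.1) :
    dmon z v (mex (ms1 τ v : MIdx n d)) =
      z ⟨v.1, τ v.1⟩ ^ (d v.1 - 1) * ∏ i ∈ univ.erase v.1, z ⟨i, τ i⟩ ^ d i := by
  obtain ⟨k, b⟩ := v
  unfold dmon
  have h0 : mex (ms1 τ ⟨k, b⟩ : MIdx n d) ⟨k, b⟩ = 1 := by
    rw [msp_ms1_off hd τ ⟨k, b⟩ ⟨k, b⟩ hv hv, if_pos rfl]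
  rw [h0, Nat.cast_one, one_mul, Fintype.prod_sigma,
    ← Finset.mul_prod_erase univ _ (Finset.mem_univ k)]
  congr 1
  · rw [Finset.prod_eq_single (τ k)]
    · have h1 : (⟨k, τ k⟩ : MVar n) ≠ ⟨k, b⟩ := by
        intro h
        apply hv
        simp only [Sigma.mk.injEq, heq_eq_eq, true_and] at h
        exact h.symm
      rw [if_neg h1, msp_ms1_self hd τ ⟨k, b⟩ hv, if_neg (fun h => hv h.symm), if_pos rfl]
    · intro a _ ha
      by_cases hav : a = b
      · subst hav
        rw [if_pos rfl, h0]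
        simp
      · have h1 : (⟨k, a⟩ : MVar n) ≠ ⟨k, b⟩ := by
          intro h
          simp only [Sigma.mk.injEq, heq_eq_eq, true_and] at h
          exact hav h
        rw [if_neg h1, msp_ms1_self hd τ ⟨k, b⟩ hv, if_neg hav, if_neg ha, pow_zero]
    · intro h
      exact absurd (Finset.mem_univ _) h
  · refine Finset.prod_congr rfl fun i hi => ?_
    have hiv : i ≠ k := Finset.ne_of_mem_erase hi
    have h1 : ∀ a, (⟨i, a⟩ : MVar n) ≠ ⟨k, b⟩ := by
      intro a h
      exact hiv (congrArg Sigma.fst h)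
    rw [Finset.prod_eq_single (τ i)]
    · rw [if_neg (h1 _), msp_ms1_other τ ⟨k, b⟩ ⟨i, τ i⟩ hiv, if_pos rfl]
    · intro a _ ha
      rw [if_neg (h1 _), msp_ms1_other τ ⟨k, b⟩ ⟨i, a⟩ hiv, if_neg ha, pow_zero]
    · intro h
      exact absurd (Finset.mem_univ _) h

end SPEC

end multi

end GenHP
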