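import Pool.Agent.Lib.MP_e426f4_ag.M.Defs
import Pool.Agent.Lib.MP_e426f4_ag.G.Basic
import Pool.Agent.Lib.MP_e426f4_ag.G.Alg

/-! Module M-ALG: algebra of multihomogeneous forms. -/

namespace GenHP

open Finset Filter Topology

section multi
variable {ι : Type} [Fintype ι] [DecidableEq ι] {n d : ι → ℕ}

section ALG
variable {R : Type*} [CommRing R]

theorem NM_pos (n d : ι → ℕ) : 0 < NM n d := by
  unfold NM
  have : Nonempty (MIdx n d) := ⟨fun i => mk fun _ => 0⟩
  exact Fintype.card_pos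

theorem mem_MBox {H : ℕ} {A : MIdx n d → ℤ} : A ∈ MBox n d H ↔ ∀ t, |A t| ≤ H := by
  simp [MBox, Fintype.mem_piFinset, abs_le]

theorem card_MBox (n d : ι → ℕ) (H : ℕ) : (MBox n d H).card = (2 * H + 1) ^ NM n d := by
  rw [MBox, Fintype.card_piFinset]
  simp only [Int.card_Icc, Finset.prod_const, Finset.card_univ]
  rw [NM]
  congr 1
  omega

theorem MBox_finite (H : ℕ) (P : (MIdx n d → ℤ) → Prop) : {A | A ∈ MBox n d H ∧ P A}.Finite :=
  (MBox n d H).finite_toSet.subset fun _ hA => hA.1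

/-- total degree of a multimonomial -/
theorem mex_sum (t : MIdx n d) : ∑ v, mex t v = ∑ i, d i := by
  rw [Fintype.sum_sigma]
  exact Finset.sum_congr rfl fun i _ => (t i).2

theorem malg_mon_scale (c : ι → R) (z : MVar n → R) (t : MIdx n d) :
    mon (fun v => c v.1 * z v) (mex t) = (∏ i, c i ^ d i) * mon z (mex t) := by
  unfold mon
  simp only [mul_pow, Finset.prod_mul_distrib]
  congr 1
  rw [Fintype.prod_sigma]
  refine Finset.prod_congr rfl fun i _ => ?_
  show ∏ y, c i ^ mex t ⟨i, y⟩ = c i ^ d i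
  rw [Finset.prod_pow_eq_pow_sum]
  congr 1
  exact (t i).2

theorem MF_scale (c : ι → R) (A : MIdx n d → R) (z : MVar n → R) :
    MF A (fun v => c v.1 * z v) = (∏ i, c i ^ d i) * MF A z := by
  unfold MF Fg
  rw [Finset.mul_sum]
  refine Finset.sum_congr rfl fun t _ => ?_
  rw [malg_mon_scale]
  ring

theorem malg_dmon_scale (c : ι → R) (z : MVar n → R) (v : MVar n) (t : MIdx n d) :
    c v.1 * dmon (fun u => c u.1 * z u) v (mex t) = (∏ i, c i ^ d i) * dmon z v (mex t) := by
  unfold dmon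
  by_cases h : mex t v = 0
  · simp [h]
  · simp only [mul_pow, Finset.prod_mul_distrib]
    have h1 : c v.1 * ∏ u : MVar n, c u.1 ^ (if u = v then mex t u - 1 else mex t u) =
        ∏ i, c i ^ d i := by
      have h2 : ∏ u : MVar n, c u.1 ^ mex t u = ∏ i, c i ^ d i := by
        rw [Fintype.prod_sigma]
        refine Finset.prod_congr rfl fun i _ => ?_
        show ∏ y, c i ^ mex t ⟨i, y⟩ = c i ^ d i
        rw [Finset.prod_pow_eq_pow_sum]
        congr 1
        exact (t i).2
      rw [← h2, ← Finset.mul_prod_erase univ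
        (fun u : MVar n => c u.1 ^ (if u = v then mex t u - 1 else mex t u)) (Finset.mem_univ v),
        ← Finset.mul_prod_erase univ (fun u : MVar n => c u.1 ^ mex t u) (Finset.mem_univ v)]
      have h3 : ∏ u ∈ univ.erase v, c u.1 ^ (if u = v then mex t u - 1 else mex t u) =
          ∏ u ∈ univ.erase v, c u.1 ^ mex t u := by
        refine Finset.prod_congr rfl fun u hu => ?_
        rw [if_neg (Finset.ne_of_mem_erase hu)]
      rw [h3, if_pos rfl]
      have h4 : c v.1 ^ mex t v = c v.1 * c v.1 ^ (mex t v - 1) := by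
        rw [← pow_succ', Nat.sub_add_cancel (Nat.one_le_iff_ne_zero.mpr h)]
      rw [h4]
      ring
    rw [← h1]
    ring

theorem MD_scale (c : ι → R) (A : MIdx n d → R) (z : MVar n → R) (v : MVar n) :
    c v.1 * MD A (fun u => c u.1 * z u) v = (∏ i, c i ^ d i) * MD A z v := by
  unfold MD Dg
  rw [Finset.mul_sum, Finset.mul_sum]
  refine Finset.sum_congr rfl fun t _ => ?_
  have := malg_dmon_scale c z v t
  calc c v.1 * (A t * dmon (fun u => c u.1 * z u) v (mex t)) =
        A t * (c v.1 * dmon (fun u => c u.1 * z u) v (mex t)) := by ring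
    _ = _ := by rw [this]; ring

/-- Euler's identity in one block -/
theorem m_euler (A : MIdx n d → R) (z : MVar n → R) (i : ι) :
    ∑ a, z ⟨i, a⟩ * MD A z ⟨i, a⟩ = d i * MF A z := by
  unfold MD MF Dg Fg
  simp only [Finset.mul_sum]
  rw [Finset.sum_comm]
  refine Finset.sum_congr rfl fun t _ => ?_
  have h1 : ∀ a, z ⟨i, a⟩ * (A t * dmon z ⟨i, a⟩ (mex t)) =
      (((t i).1 a : ℕ) : R) * (A t * mon z (mex t)) := by
    intro a
    have h2 := mul_dmon z (⟨i, a⟩ : MVar n) (mex t)
    calc z ⟨i, a⟩ * (A t * dmon z ⟨i, a⟩ (mex t)) = A t * (z ⟨i, a⟩ * dmon z ⟨i, a⟩ (mex t)) := by ring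
      _ = _ := by rw [h2]; unfold mex; ring
  rw [Finset.sum_congr rfl fun a _ => h1 a, ← Finset.sum_mul, ← Nat.cast_sum, (t i).2]

theorem MF_smul (c : R) (A : MIdx n d → R) (z : MVar n → R) :
    MF (fun t => c * A t) z = c * MF A z := by
  simp only [MF, Fg, mul_assoc, Finset.mul_sum]

theorem MD_smul (c : R) (A : MIdx n d → R) (z : MVar n → R) (v : MVar n) :
    MD (fun t => c * A t) z v = c * MD A z v := by
  simp only [MD, Dg, mul_assoc, Finset.mul_sum]

theorem MF_sub (A B : MIdx n d → R) (z : MVar n → R) :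
    MF (fun t => A t - B t) z = MF A z - MF B z := by
  simp only [MF, Fg, sub_mul, Finset.sum_sub_distrib]

theorem MD_sub (A B : MIdx n d → R) (z : MVar n → R) (v : MVar n) :
    MD (fun t => A t - B t) z v = MD A z v - MD B z v := by
  simp only [MD, Dg, sub_mul, Finset.sum_sub_distrib]

theorem MF_add_smul (A : MIdx n d → R) (z h : MVar n → R) (c : R) :
    ∃ r : R, MF A (fun v => z v + c * h v) = MF A z + c * (∑ v, MD A z v * h v) + c ^ 2 * r :=
  Fg_add_smul mex A z h c

theorem MF_congr_mod (N : ℤ) (A A' : MIdx n d → ℤ) (z z' : MVar n → ℤ)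
    (hA : ∀ t, N ∣ A t - A' t) (hz : ∀ v, N ∣ z v - z' v) : N ∣ MF A z - MF A' z' :=
  Fg_congr_mod mex N A A' z z' hA hz

theorem MD_congr_mod (N : ℤ) (A A' : MIdx n d → ℤ) (z z' : MVar n → ℤ) (v : MVar n)
    (hA : ∀ t, N ∣ A t - A' t) (hz : ∀ v, N ∣ z v - z' v) : N ∣ MD A z v - MD A' z' v :=
  Dg_congr_mod mex N A A' z z' v hA hz

theorem MF_map {S : Type*} [CommRing S] (f : R →+* S) (A : MIdx n d → R) (z : MVar n → R) :
    MF (fun t => f (A t)) (fun v => f (z v)) = f (MF A z) :=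
  Fg_map f mex A z

theorem MD_map {S : Type*} [CommRing S] (f : R →+* S) (A : MIdx n d → R) (z : MVar n → R)
    (v : MVar n) : MD (fun t => f (A t)) (fun u => f (z u)) v = f (MD A z v) :=
  Dg_map f mex A z v

theorem MF_cast (A : MIdx n d → ℤ) (z : MVar n → ℤ) :
    MF (fun t => (A t : ℝ)) (fun v => (z v : ℝ)) = ((MF A z : ℤ) : ℝ) :=
  MF_map (Int.castRingHom ℝ) A z

end ALG

end multi

end GenHP
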