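import Pool.Agent.Lib.MP_e426f4_ag.M.CondP

/-! GCHP, module M-X1P: forms with a bad `p`-adic zero are few. -/

namespace GenHP

open Finset Filter Topology

section multi
variable {ι : Type} [Fintype ι] [DecidableEq ι] {n d : ι → ℕ}

/-- normalisation of a point all of whose derivatives are divisible by `p ^ k` -/
private theorem x1p_norm (p k : ℕ) (hp : p.Prime) (hk : 1 ≤ k) (A : MIdx n d → ℤ)
    (z : MVar n → ℤ) (hz : BUnit p z) (hF : (p : ℤ) ^ (2 * k) ∣ MF A z)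
    (hD : ∀ v, (p : ℤ) ^ k ∣ MD A z v) :
    ∃ (τ : ∀ i, Fin (n i + 1)) (w : MVar n → ℤ), (∀ i, w ⟨i, τ i⟩ = 1) ∧
      (∀ v, 0 ≤ w v ∧ w v < (p : ℤ) ^ k) ∧ (p : ℤ) ^ (2 * k) ∣ MF A w ∧
      ∀ v, (p : ℤ) ^ k ∣ MD A w v := by
  have hpp : Prime (p : ℤ) := Nat.prime_iff_prime_int.mp hp
  have hp0 : (0 : ℤ) < p := by exact_mod_cast hp.pos
  have hp1 : (1 : ℤ) < p := by exact_mod_cast hp.one_lt
  choose τ hτ using hz
  have hinv : ∀ i, ∃ c : ℤ, (p : ℤ) ^ (2 * k) ∣ c * z ⟨i, τ i⟩ - 1 := by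
    intro i
    have h1 : IsCoprime ((p : ℤ) ^ (2 * k)) (z ⟨i, τ i⟩) :=
      IsCoprime.pow_left (hpp.coprime_iff_not_dvd.mpr (hτ i))
    obtain ⟨a, b, hab⟩ := h1
    exact ⟨b, -a, by linear_combination hab⟩
  choose c hc using hinv
  have hkd : (p : ℤ) ^ k ∣ (p : ℤ) ^ (2 * k) := pow_dvd_pow _ (by omega)
  have hpk : (p : ℤ) ∣ (p : ℤ) ^ k := dvd_pow_self _ (by omega)
  have hcu : ∀ i, ¬ (p : ℤ) ∣ c i := by
    intro i h1
    have h2 : (p : ℤ) ∣ 1 := by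
      have h3 := dvd_sub (h1.mul_right (z ⟨i, τ i⟩)) ((hpk.trans hkd).trans (hc i))
      simpa using h3
    exact hpp.not_isUnit (isUnit_of_dvd_one h2)
  set x : MVar n → ℤ := fun v => c v.1 * z v with hx
  have hFx : (p : ℤ) ^ (2 * k) ∣ MF A x := by
    rw [hx, MF_scale]
    exact hF.mul_left _
  have hDx : ∀ v, (p : ℤ) ^ k ∣ MD A x v := by
    intro v
    have h1 := MD_scale c A z v
    have h2 : (p : ℤ) ^ k ∣ c v.1 * MD A x v := by
      rw [hx, h1]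
      exact (hD v).mul_left _
    exact IsCoprime.dvd_of_dvd_mul_left
      (IsCoprime.pow_left (hpp.coprime_iff_not_dvd.mpr (hcu v.1))) h2
  set w : MVar n → ℤ := fun v => x v % (p : ℤ) ^ k with hw
  have hmod : ∀ v, x v = w v + (p : ℤ) ^ k * (x v / (p : ℤ) ^ k) := fun v =>
    (Int.emod_add_mul_ediv _ _).symm
  have hdvd : ∀ v, (p : ℤ) ^ k ∣ w v - x v := fun v =>
    ⟨-(x v / (p : ℤ) ^ k), by have := hmod v; linear_combination -this⟩
  have hDw : ∀ v, (p : ℤ) ^ k ∣ MD A w v := by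
    intro v
    have h1 := MD_congr_mod ((p : ℤ) ^ k) A A w x v (fun m => by simp) hdvd
    have h2 := dvd_add h1 (hDx v)
    simpa using h2
  have hFw : (p : ℤ) ^ (2 * k) ∣ MF A w := by
    obtain ⟨r, hr⟩ := MF_add_smul A w (fun v => x v / (p : ℤ) ^ k) ((p : ℤ) ^ k)
    have h1 : (fun v => w v + (p : ℤ) ^ k * (x v / (p : ℤ) ^ k)) = x := by
      funext v; exact (hmod v).symm
    rw [h1] at hr
    have h2 : MF A w = MF A x - (p : ℤ) ^ k * (∑ v, MD A w v * (x v / (p : ℤ) ^ k))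
        - ((p : ℤ) ^ k) ^ 2 * r := by rw [hr]; ring
    rw [h2]
    have h3 : (p : ℤ) ^ (2 * k) = (p : ℤ) ^ k * (p : ℤ) ^ k := by rw [two_mul, pow_add]
    refine dvd_sub (dvd_sub hFx ?_) ?_
    · rw [h3]
      exact mul_dvd_mul_left _ (Finset.dvd_sum fun v _ => (hDw v).mul_right _)
    · rw [h3, ← pow_two]
      exact dvd_mul_right _ _
  refine ⟨τ, w, fun i => ?_, fun v => ⟨Int.emod_nonneg _ (pow_pos hp0 _).ne',
    Int.emod_lt_of_pos _ (pow_pos hp0 _)⟩, hFw, hDw⟩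
  have h1 : x ⟨i, τ i⟩ % (p : ℤ) ^ k = 1 % (p : ℤ) ^ k :=
    Int.emod_eq_emod_iff_emod_sub_eq_zero.mpr (Int.emod_eq_zero_of_dvd (hkd.trans (hc i)))
  rw [hw]
  simp only
  rw [h1]
  exact Int.emod_eq_of_lt zero_le_one (one_lt_pow₀ hp1 (by omega))

theorem padic_exc1 (hd : ∀ i, 1 ≤ d i) : ∃ C : ℝ, 0 < C ∧ ∀ p : ℕ, p.Prime → ∀ k : ℕ, 1 ≤ k →
    ∀ᶠ H : ℕ in atTop,
      (Set.ncard {A : MIdx n d → ℤ | A ∈ MBox n d H ∧ ∃ z : MVar n → ℤ, BUnit p z ∧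
        (p : ℤ) ^ (2 * k) ∣ MF A z ∧ ∀ v, (p : ℤ) ^ k ∣ MD A z v} : ℝ) ≤
        C / (p : ℝ) ^ (2 * k) * (2 * H + 1) ^ NM n d := by
  classical
  refine ⟨2 * (Fintype.card (∀ i, Fin (n i + 1)) : ℝ), ?_, ?_⟩
  · have : 0 < Fintype.card (∀ i, Fin (n i + 1)) := Fintype.card_pos
    positivity
  intro p hp k hk
  filter_upwards [cond_p (n := n) (d := d) hd p hp k] with H hH
  have hp0 : (0 : ℤ) < p := by exact_mod_cast hp.pos
  have hpR : (0 : ℝ) < p := by exact_mod_cast hp.pos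
  have hpp : Prime (p : ℤ) := Nat.prime_iff_prime_int.mp hp
  set U : (∀ i, Fin (n i + 1)) → Finset (MVar n) := fun τ => univ.filter fun v => v.2 ≠ τ v.1
    with hU
  set X : (∀ i, Fin (n i + 1)) → Finset (MVar n → ℤ) := fun τ =>
    Fintype.piFinset fun v => if v.2 ≠ τ v.1 then Finset.Ico (0 : ℤ) ((p : ℤ) ^ k) else {1}
    with hX
  have hXcard : ∀ τ, (X τ).card = (p ^ k) ^ (U τ).card := by
    intro τ
    rw [hX]
    simp only
    rw [Fintype.card_piFinset]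
    have h1 : ∀ v : MVar n, (if v.2 ≠ τ v.1 then Finset.Ico (0 : ℤ) ((p : ℤ) ^ k)
        else {1}).card = if v.2 ≠ τ v.1 then p ^ k else 1 := by
      intro v
      split_ifs
      · rw [Int.card_Ico, sub_zero, ← Nat.cast_pow, Int.toNat_natCast]
      · simp
    rw [Finset.prod_congr rfl fun v _ => h1 v, Finset.prod_ite, Finset.prod_const_one, mul_one,
      Finset.prod_const]
  set T : (∀ i, Fin (n i + 1)) → (MVar n → ℤ) → Set (MIdx n d → ℤ) := fun τ z =>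
    {A : MIdx n d → ℤ | A ∈ MBox n d H ∧ (p : ℤ) ^ (2 * k) ∣ MF A z ∧
        ∀ v ∈ U τ, (p : ℤ) ^ k ∣ MD A z v} with hT
  have hfin : ∀ τ z, (T τ z).Finite := fun τ z => MBox_finite H fun A =>
    (p : ℤ) ^ (2 * k) ∣ MF A z ∧ ∀ v ∈ U τ, (p : ℤ) ^ k ∣ MD A z v
  set Z : Finset (Σ _ : (∀ i, Fin (n i + 1)), MVar n → ℤ) := univ.sigma X with hZ
  have hsub : {A : MIdx n d → ℤ | A ∈ MBox n d H ∧ ∃ z : MVar n → ℤ, BUnit p z ∧
        (p : ℤ) ^ (2 * k) ∣ MF A z ∧ ∀ v, (p : ℤ) ^ k ∣ MD A z v} ⊆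
      ⋃ x ∈ Z, T x.1 x.2 := by
    rintro A ⟨hA, z, hz, hF, hD⟩
    obtain ⟨τ, w, hw1, hw2, hw3, hw4⟩ := x1p_norm p k hp hk A z hz hF hD
    refine Set.mem_iUnion₂.mpr ⟨⟨τ, w⟩, ?_, hA, hw3, fun v _ => hw4 v⟩
    rw [hZ, Finset.mem_sigma]
    refine ⟨Finset.mem_univ _, ?_⟩
    rw [hX]
    simp only
    rw [Fintype.mem_piFinset]
    intro v
    split_ifs with h1
    · rw [Finset.mem_Ico]
      exact hw2 v
    · rw [Finset.mem_singleton]
      push Not at h1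
      have h2 : v = ⟨v.1, τ v.1⟩ := by rw [← h1]
      rw [h2]
      exact hw1 v.1
  have h1 : (Set.ncard {A : MIdx n d → ℤ | A ∈ MBox n d H ∧ ∃ z : MVar n → ℤ, BUnit p z ∧
        (p : ℤ) ^ (2 * k) ∣ MF A z ∧ ∀ v, (p : ℤ) ^ k ∣ MD A z v} : ℝ) ≤
      ∑ x ∈ Z, (Set.ncard (T x.1 x.2) : ℝ) := by
    have h2 := Set.ncard_le_ncard hsub (Set.Finite.biUnion Z.finite_toSet fun x _ => hfin x.1 x.2)
    have h3 := Finset.set_ncard_biUnion_le Z fun x => T x.1 x.2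
    exact_mod_cast h2.trans h3
  refine h1.trans ?_
  rw [hZ, Finset.sum_sigma]
  have h2 : ∀ τ : (∀ i, Fin (n i + 1)), ∑ z ∈ X τ, (Set.ncard (T τ z) : ℝ) ≤
      2 / (p : ℝ) ^ (2 * k) * (2 * H + 1) ^ NM n d := by
    intro τ
    have h3 : ∀ z ∈ X τ, (Set.ncard (T τ z) : ℝ) ≤
        2 * (2 * H + 1) ^ NM n d / (p : ℝ) ^ (k * ((U τ).card + 2)) := by
      intro z hz
      refine hH τ z (fun i => ?_) (U τ) (fun v hv => ?_)
      · rw [hX] at hz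
        simp only at hz
        rw [Fintype.mem_piFinset] at hz
        have h4 := hz ⟨i, τ i⟩
        simp only [ne_eq, not_true_eq_false, if_false, Finset.mem_singleton] at h4
        rw [h4]
        intro h5
        exact hpp.not_isUnit (isUnit_of_dvd_one h5)
      · rw [hU] at hv
        exact (Finset.mem_filter.mp hv).2
    refine (Finset.sum_le_sum h3).trans ?_
    rw [Finset.sum_const, nsmul_eq_mul, hXcard τ]
    push_cast
    have h4 : (p : ℝ) ^ (k * ((U τ).card + 2)) = ((p : ℝ) ^ k) ^ (U τ).card * (p : ℝ) ^ (2 * k) := by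
      rw [← pow_mul, ← pow_add]; congr 1; ring
    rw [h4]
    have h5 : (0 : ℝ) < ((p : ℝ) ^ k) ^ (U τ).card := by positivity
    have h6 : (0 : ℝ) < (p : ℝ) ^ (2 * k) := by positivity
    apply le_of_eq
    field_simp
  refine (Finset.sum_le_sum fun τ _ => h2 τ).trans ?_
  rw [Finset.sum_const, nsmul_eq_mul, Finset.card_univ]
  apply le_of_eq
  ring

end multi

end GenHP
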