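import Pool.Agent.Lib.MP_e426f4_ag.M.Alg
import Pool.Agent.Lib.MP_e426f4_ag.G.AlgReal

/-! Module M-ALR: real estimates for multihomogeneous forms. -/

namespace GenHP

open Finset Filter Topology

section multi
variable {ι : Type} [Fintype ι] [DecidableEq ι] {n d : ι → ℕ}

section ALR

theorem MF_abs_le (A : MIdx n d → ℝ) (z : MVar n → ℝ) (a X : ℝ) (hX : 1 ≤ X)
    (hA : ∀ t, |A t| ≤ a) (hz : ∀ v, |z v| ≤ X) : |MF A z| ≤ NM n d * a * X ^ (∑ i, d i) :=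
  Fg_abs_le mex (∑ i, d i) (fun t => (mex_sum t).le) A z a X hX hA hz

theorem MD_abs_le (A : MIdx n d → ℝ) (z : MVar n → ℝ) (v : MVar n) (a X : ℝ) (hX : 1 ≤ X)
    (hA : ∀ t, |A t| ≤ a) (hz : ∀ v, |z v| ≤ X) :
    |MD A z v| ≤ NM n d * (∑ i, d i : ℕ) * a * X ^ (∑ i, d i) :=
  Dg_abs_le mex (∑ i, d i) (fun t => (mex_sum t).le) A z v a X hX hA hz

theorem MF_taylor (A : MIdx n d → ℝ) (z y : MVar n → ℝ) (a X Y : ℝ) (hX : 1 ≤ X) (hY : 0 ≤ Y)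
    (hYX : Y ≤ X) (hA : ∀ t, |A t| ≤ a) (hz : ∀ v, |z v| ≤ X) (hy : ∀ v, |y v| ≤ Y) :
    |MF A (fun v => z v + y v) - MF A z - ∑ v, MD A z v * y v| ≤
      NM n d * 4 ^ (∑ i, d i) * a * X ^ (∑ i, d i) * Y ^ 2 :=
  Fg_taylor mex (∑ i, d i) (fun t => (mex_sum t).le) A z y a X Y hX hY hYX hA hz hy

theorem MD_taylor (A : MIdx n d → ℝ) (z y : MVar n → ℝ) (v : MVar n) (a X Y : ℝ) (hX : 1 ≤ X)
    (hY : 0 ≤ Y) (hYX : Y ≤ X) (hA : ∀ t, |A t| ≤ a) (hz : ∀ v, |z v| ≤ X)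
    (hy : ∀ v, |y v| ≤ Y) :
    |MD A (fun v => z v + y v) v - MD A z v| ≤
      NM n d * (∑ i, d i : ℕ) * 4 ^ (∑ i, d i) * a * X ^ (∑ i, d i) * Y :=
  Dg_taylor mex (∑ i, d i) (fun t => (mex_sum t).le) A z y v a X Y hX hY hYX hA hz hy

/-- Lipschitz bound for the value -/
theorem MF_lip (A : MIdx n d → ℝ) (z y : MVar n → ℝ) (a X Y : ℝ) (hX : 1 ≤ X) (hY : 0 ≤ Y)
    (hYX : Y ≤ X) (hA : ∀ t, |A t| ≤ a) (hz : ∀ v, |z v| ≤ X) (hy : ∀ v, |y v| ≤ Y) :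
    |MF A (fun v => z v + y v) - MF A z| ≤
      NM n d * (Fintype.card (MVar n) * (∑ i, d i : ℕ) + 4 ^ (∑ i, d i) * X) * a *
        X ^ (∑ i, d i) * Y := by
  have ha : 0 ≤ a := by
    have h1 : 0 < Fintype.card (MIdx n d) := NM_pos n d
    obtain ⟨t⟩ := Fintype.card_pos_iff.mp h1
    exact (abs_nonneg _).trans (hA t)
  have h1 := MF_taylor A z y a X Y hX hY hYX hA hz hy
  have h2 : |∑ v, MD A z v * y v| ≤
      Fintype.card (MVar n) * ((NM n d * (∑ i, d i : ℕ) * a * X ^ (∑ i, d i)) * Y) :=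
    ALR.sum_bound (fun v => MD A z v) y _ Y (fun v => MD_abs_le A z v a X hX hA hz) hy
  have h3 : Y ^ 2 ≤ X * Y := by
    rw [sq]
    exact mul_le_mul_of_nonneg_right hYX hY
  have h4 : (NM n d : ℝ) * 4 ^ (∑ i, d i) * a * X ^ (∑ i, d i) * Y ^ 2 ≤
      NM n d * 4 ^ (∑ i, d i) * a * X ^ (∑ i, d i) * (X * Y) :=
    mul_le_mul_of_nonneg_left h3 (by positivity)
  have h5 : MF A (fun v => z v + y v) - MF A z =
      (MF A (fun v => z v + y v) - MF A z - ∑ v, MD A z v * y v) + ∑ v, MD A z v * y v := by ring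
  rw [h5]
  refine (abs_add_le _ _).trans ((add_le_add (h1.trans h4) h2).trans (le_of_eq ?_))
  ring

theorem hasDerivAt_MF_line (A : MIdx n d → ℝ) (z : MVar n → ℝ) (v : MVar n) (t : ℝ) :
    HasDerivAt (fun s : ℝ => MF A (Function.update z v s)) (MD A (Function.update z v t) v) t :=
  hasDerivAt_Fg_line mex A z v t

/-- in every block there is a coordinate of maximal absolute value -/
theorem ALR.exists_argmax (z : MVar n → ℝ) :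
    ∃ τ : ∀ i, Fin (n i + 1), ∀ i b, |z ⟨i, b⟩| ≤ |z ⟨i, τ i⟩| := by
  have h : ∀ i, ∃ a : Fin (n i + 1), ∀ b, |z ⟨i, b⟩| ≤ |z ⟨i, a⟩| := fun i =>
    Finite.exists_max fun a : Fin (n i + 1) => |z ⟨i, a⟩|
  choose τ hτ using h
  exact ⟨τ, hτ⟩

/-- dividing every block by the absolute value of its largest coordinate -/
theorem ALR.bnorm_div (z : MVar n → ℝ) (τ : ∀ i, Fin (n i + 1))
    (hτ : ∀ i b, |z ⟨i, b⟩| ≤ |z ⟨i, τ i⟩|) (hpos : ∀ i, 0 < |z ⟨i, τ i⟩|) :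
    BNorm (fun v => |z ⟨v.1, τ v.1⟩|⁻¹ * z v) := by
  refine ⟨?_, ?_⟩
  · rintro ⟨i, b⟩
    rw [abs_mul, abs_inv, abs_abs]
    calc |z ⟨i, τ i⟩|⁻¹ * |z ⟨i, b⟩| ≤ |z ⟨i, τ i⟩|⁻¹ * |z ⟨i, τ i⟩| :=
          mul_le_mul_of_nonneg_left (hτ i b) (inv_nonneg.mpr (abs_nonneg _))
      _ = 1 := inv_mul_cancel₀ (hpos i).ne'
  · intro i
    refine ⟨τ i, ?_⟩
    rw [abs_mul, abs_inv, abs_abs]
    exact inv_mul_cancel₀ (hpos i).ne'

/-- Normalising the blocks of a real vector -/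
theorem exists_norm (A : MIdx n d → ℝ) (z : MVar n → ℝ) (hz : BNZ z) (hF : MF A z = 0) :
    ∃ z' : MVar n → ℝ, BNorm z' ∧ MF A z' = 0 := by
  obtain ⟨τ, hτ⟩ := ALR.exists_argmax z
  have hpos : ∀ i, 0 < |z ⟨i, τ i⟩| := by
    intro i
    obtain ⟨a, ha⟩ := hz i
    exact (abs_pos.mpr ha).trans_le (hτ i a)
  refine ⟨fun v => |z ⟨v.1, τ v.1⟩|⁻¹ * z v, ALR.bnorm_div z τ hτ hpos, ?_⟩
  rw [MF_scale (fun i => |z ⟨i, τ i⟩|⁻¹) A z, hF, mul_zero]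

/-- normalising an approximate zero whose blocks have sup norm between `1 / 2` and `2` -/
theorem goodR_of_approx (i0 : ι) (A : MIdx n d → ℝ) (z : MVar n → ℝ) (f g : ℝ) (hf : 0 ≤ f)
    (hg : 0 ≤ g) (hz : ∀ v, |z v| ≤ 2) (hz2 : ∀ i, ∃ a, 1 / 2 ≤ |z ⟨i, a⟩|) (hF : |MF A z| ≤ f)
    (a : Fin (n i0 + 1)) (hD : 2 ^ (∑ i, d i) * (2 * g) ≤ |MD A z ⟨i0, a⟩|) :
    GoodR i0 (2 ^ (∑ i, d i) * f) g A := by
  obtain ⟨τ, hτ⟩ := ALR.exists_argmax z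
  have hlow : ∀ i, 1 / 2 ≤ |z ⟨i, τ i⟩| := by
    intro i
    obtain ⟨b, hb⟩ := hz2 i
    exact hb.trans (hτ i b)
  have hpos : ∀ i, 0 < |z ⟨i, τ i⟩| := fun i => lt_of_lt_of_le (by norm_num) (hlow i)
  set c : ι → ℝ := fun i => |z ⟨i, τ i⟩|⁻¹ with hc
  have hcpos : ∀ i, 0 < c i := fun i => inv_pos.mpr (hpos i)
  have hc2 : ∀ i, c i ≤ 2 := fun i => by
    have h := inv_anti₀ (by norm_num : (0 : ℝ) < 1 / 2) (hlow i)
    have h' : ((1 : ℝ) / 2)⁻¹ = 2 := by norm_num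
    rw [h'] at h
    exact h
  have hc1 : ∀ i, 1 / 2 ≤ c i := fun i => by
    have h := inv_anti₀ (hpos i) (hz ⟨i, τ i⟩)
    have h' : (2 : ℝ)⁻¹ = 1 / 2 := by norm_num
    rw [h'] at h
    exact h
  have hP0 : 0 < ∏ i, c i ^ d i := Finset.prod_pos fun i _ => pow_pos (hcpos i) _
  have hP2 : ∏ i, c i ^ d i ≤ 2 ^ (∑ i, d i) := by
    rw [← Finset.prod_pow_eq_pow_sum]
    exact Finset.prod_le_prod (fun i _ => (pow_pos (hcpos i) _).le)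
      fun i _ => pow_le_pow_left₀ (hcpos i).le (hc2 i) _
  have hP1 : (1 / 2 : ℝ) ^ (∑ i, d i) ≤ ∏ i, c i ^ d i := by
    rw [← Finset.prod_pow_eq_pow_sum]
    exact Finset.prod_le_prod (fun i _ => by positivity)
      fun i _ => pow_le_pow_left₀ (by norm_num) (hc1 i) _
  refine ⟨fun v => c v.1 * z v, ALR.bnorm_div z τ hτ hpos, ?_, a, ?_⟩
  · rw [MF_scale c A z, abs_mul, abs_of_pos hP0]
    exact mul_le_mul hP2 hF (abs_nonneg _) (by positivity)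
  · have h := MD_scale c A z ⟨i0, a⟩
    have h1 : c i0 * |MD A (fun u => c u.1 * z u) ⟨i0, a⟩| =
        (∏ i, c i ^ d i) * |MD A z ⟨i0, a⟩| := by
      have h' := congrArg abs h
      rw [abs_mul, abs_mul, abs_of_pos hP0, abs_of_pos (hcpos i0)] at h'
      exact h'
    have h2 : (1 / 2 : ℝ) ^ (∑ i, d i) * (2 ^ (∑ i, d i) * (2 * g)) ≤
        (∏ i, c i ^ d i) * |MD A z ⟨i0, a⟩| :=
      mul_le_mul hP1 hD (by positivity) hP0.le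
    have h3 : (1 / 2 : ℝ) ^ (∑ i, d i) * (2 ^ (∑ i, d i) * (2 * g)) = 2 * g := by
      rw [← mul_assoc, ← mul_pow]
      norm_num
    rw [h3, ← h1] at h2
    have h4 : c i0 * |MD A (fun u => c u.1 * z u) ⟨i0, a⟩| ≤
        2 * |MD A (fun u => c u.1 * z u) ⟨i0, a⟩| :=
      mul_le_mul_of_nonneg_right (hc2 i0) (abs_nonneg _)
    linarith

end ALR

end multi

end GenHP
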