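import Mathlib

/-! Module M-SMb: algebraically independent vectors are dense. -/

namespace GenHP

open Finset Filter Topology

private theorem ai_step {α : Type} [Fintype α] (x : α → ℝ) (c delta : ℝ) (hdel : 0 < delta) :
    ∃ a : ℝ, Transcendental (Algebra.adjoin ℚ (Set.range x)) a ∧ |a - c| ≤ delta := by
  have hc : Countable (Algebra.adjoin ℚ (Set.range x)) := by
    have h0 : Countable (MvPolynomial α ℚ) := by
      rw [← Cardinal.mk_le_aleph0_iff]
      refine (MvPolynomial.cardinalMk_le_max).trans ?_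
      simp
    have h1 : (Set.range (MvPolynomial.aeval (R := ℚ) x)).Countable := Set.countable_range _
    have h2 : ((Algebra.adjoin ℚ (Set.range x) : Subalgebra ℚ ℝ) : Set ℝ) =
        Set.range (MvPolynomial.aeval (R := ℚ) x) := by
      rw [Algebra.adjoin_range_eq_range_aeval]; rfl
    rw [← h2] at h1
    exact h1.to_subtype
  have h3 : {a : ℝ | IsAlgebraic (Algebra.adjoin ℚ (Set.range x)) a}.Countable :=
    Algebraic.countable _ _
  have h4 : ¬ (Set.Icc (c - delta) (c + delta)).Countable := by
    rw [← Cardinal.le_aleph0_iff_set_countable, Cardinal.mk_Icc_real (by linarith), not_le]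
    exact Cardinal.aleph0_lt_continuum
  obtain ⟨a, ha1, ha2⟩ : ∃ a ∈ Set.Icc (c - delta) (c + delta),
      a ∉ {a : ℝ | IsAlgebraic (Algebra.adjoin ℚ (Set.range x)) a} := by
    by_contra hcon
    push Not at hcon
    exact h4 (h3.mono hcon)
  exact ⟨a, ha2, by rw [abs_le]; constructor <;> linarith [ha1.1, ha1.2]⟩

theorem exists_algInd_near {I : Type} [Fintype I] (c : I → ℝ) (delta : ℝ) (hdel : 0 < delta) :
    ∃ A : I → ℝ, AlgebraicIndependent ℚ A ∧ ∀ t, |A t - c t| ≤ delta := by
  revert c
  refine Finite.induction_empty_option (P := fun I : Type => ∀ c : I → ℝ,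
    ∃ A : I → ℝ, AlgebraicIndependent ℚ A ∧ ∀ t, |A t - c t| ≤ delta) ?_ ?_ ?_ I
  · intro α β e h c
    obtain ⟨A, hA1, hA2⟩ := h (fun a => c (e a))
    refine ⟨fun b => A (e.symm b), hA1.comp e.symm e.symm.injective, fun t => ?_⟩
    have := hA2 (e.symm t)
    simpa using this
  · intro c
    exact ⟨fun x => x.elim, algebraicIndependent_empty_type, fun t => t.elim⟩
  · intro α _ h c
    obtain ⟨A, hA1, hA2⟩ := h (fun a => c (some a))
    obtain ⟨a, ha1, ha2⟩ := ai_step A (c none) delta hdel
    refine ⟨fun o => o.elim a A, ?_, ?_⟩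
    · exact AlgebraicIndependent.option_iff.2 ⟨hA1, ha1⟩
    · rintro (_ | t)
      · exact ha2
      · exact hA2 t

end GenHP
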