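import Pool.Agent.Lib.MP_e426f4_ag.M.Defs
import Pool.Agent.Lib.MP_e426f4_ag.M.Alg
import Pool.Agent.Lib.MP_e426f4_ag.M.Spec

/-! Forms with algebraically independent coefficients are smooth. -/

namespace GenHP

open Finset Filter Topology

section multi
variable {ι : Type} [Fintype ι] [DecidableEq ι] {n d : ι → ℕ}

private theorem sma_card {I J : Type} [Fintype I] [Fintype J] (x : I → ℂ)
    (hx : AlgebraicIndependent ℚ x) (y : J → ℂ)
    (h : ∀ i, x i ∈ Algebra.adjoin ℚ (Set.range y)) : Fintype.card I ≤ Fintype.card J := by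
  have hB : ∃ f : MvPolynomial J ℚ →ₐ[ℚ] Algebra.adjoin ℚ (Set.range y),
      Function.Surjective f := by
    refine ⟨MvPolynomial.aeval (fun j => ⟨y j, Algebra.subset_adjoin ⟨j, rfl⟩⟩), ?_⟩
    rintro ⟨b, hb⟩
    have hb' := hb
    rw [Algebra.adjoin_range_eq_range_aeval] at hb'
    obtain ⟨p, hp⟩ := hb'
    refine ⟨p, Subtype.ext (Eq.trans ?_ hp)⟩
    exact DFunLike.congr_fun (MvPolynomial.comp_aeval
      (fun j => (⟨y j, Algebra.subset_adjoin ⟨j, rfl⟩⟩ : Algebra.adjoin ℚ (Set.range y)))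
      (Algebra.adjoin ℚ (Set.range y)).val) p
  obtain ⟨f, hf⟩ := hB
  have h1 := trdeg_le_of_surjective f hf
  rw [MvPolynomial.trdeg_of_isDomain, Cardinal.lift_id] at h1
  have h2 : AlgebraicIndependent ℚ (fun i => (⟨x i, h i⟩ : Algebra.adjoin ℚ (Set.range y))) :=
    AlgebraicIndependent.of_comp (Algebra.adjoin ℚ (Set.range y)).val hx
  have h3 := h2.cardinalMk_le_trdeg.trans h1
  simpa using h3

/-- M-SMa: a form with algebraically independent coefficients is smooth -/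
theorem smooth_of_algInd [Nonempty ι] (hd : ∀ i, 1 ≤ d i) (A : MIdx n d → ℝ)
    (hA : AlgebraicIndependent ℚ A) : RSmooth A := by
  intro z hz
  by_contra hcon
  push Not at hcon
  -- complex coefficients
  obtain ⟨C, hC⟩ : ∃ C : MIdx n d → ℂ, C = fun t => ((A t : ℝ) : ℂ) := ⟨_, rfl⟩
  rw [← hC] at hcon
  have hCi : AlgebraicIndependent ℚ C := by
    rw [hC]
    exact hA.map' (f := Complex.ofRealAm.restrictScalars ℚ) Complex.ofReal_injective
  choose τ hτ using hz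
  -- scaling
  obtain ⟨c, hc⟩ : ∃ c : ι → ℂ, c = fun i => (z ⟨i, τ i⟩)⁻¹ := ⟨_, rfl⟩
  obtain ⟨y, hy⟩ : ∃ y : MVar n → ℂ, y = fun u => c u.1 * z u := ⟨_, rfl⟩
  have hc0 : ∀ i, c i ≠ 0 := fun i => by rw [hc]; exact inv_ne_zero (hτ i)
  have hy1 : ∀ i, y ⟨i, τ i⟩ = 1 := fun i => by
    rw [hy, hc]
    exact inv_mul_cancel₀ (hτ i)
  have hMD : ∀ v, MD C y v = 0 := by
    intro v
    have h1 := MD_scale c C z v
    rw [hcon v, mul_zero, ← hy] at h1
    exact (mul_eq_zero.1 h1).resolve_left (hc0 _)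
  have hMF : MF C y = 0 := by
    obtain ⟨i⟩ := ‹Nonempty ι›
    have h1 := m_euler C y i
    rw [Finset.sum_eq_zero (fun a _ => by rw [hMD, mul_zero])] at h1
    have h2 : (d i : ℂ) ≠ 0 := by
      have := hd i
      exact_mod_cast (by omega : d i ≠ 0)
    exact (mul_eq_zero.1 h1.symm).resolve_left h2
  -- the generators
  let J : Type := {v : MVar n // v.2 ≠ τ v.1} ⊕
    {t : MIdx n d // t ≠ ms0 τ ∧ ∀ v : MVar n, v.2 ≠ τ v.1 → t ≠ ms1 τ v}
  let w : J → ℂ := Sum.elim (fun v => y v.1) (fun t => C t.1)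
  obtain ⟨B, hB⟩ : ∃ B : Subalgebra ℚ ℂ, B = Algebra.adjoin ℚ (Set.range w) := ⟨_, rfl⟩
  have hyB : ∀ v, y v ∈ B := by
    intro v
    by_cases hv : v.2 = τ v.1
    · have : v = ⟨v.1, τ v.1⟩ := Sigma.ext rfl (heq_of_eq hv)
      rw [this, hy1]
      exact B.one_mem
    · rw [hB]
      exact Algebra.subset_adjoin ⟨Sum.inl ⟨v, hv⟩, rfl⟩
  have hmon : ∀ e : MVar n → ℕ, mon y e ∈ B := by
    intro e
    unfold mon
    exact B.prod_mem fun v _ => B.pow_mem (hyB v) _
  have hdmon : ∀ (v : MVar n) (e : MVar n → ℕ), dmon y v e ∈ B := by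
    intro v e
    unfold dmon
    exact B.mul_mem (B.natCast_mem _) (B.prod_mem fun u _ => B.pow_mem (hyB u) _)
  have hrest : ∀ t : MIdx n d, t ≠ ms0 τ → (∀ v : MVar n, v.2 ≠ τ v.1 → t ≠ ms1 τ v) →
      C t ∈ B := by
    intro t h1 h2
    rw [hB]
    exact Algebra.subset_adjoin ⟨Sum.inr ⟨t, h1, h2⟩, rfl⟩
  have hms1 : ∀ v : MVar n, v.2 ≠ τ v.1 → C (ms1 τ v) ∈ B := by
    intro v hv
    have h1 := hMD v
    unfold MD Dg at h1
    rw [← Finset.add_sum_erase _ _ (Finset.mem_univ (ms1 τ v : MIdx n d)),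
      dmon_ms1 hd τ y v hv] at h1
    have h2 : y ⟨v.1, τ v.1⟩ ^ (d v.1 - 1) * ∏ i ∈ univ.erase v.1, y ⟨i, τ i⟩ ^ d i = 1 := by
      rw [hy1, one_pow, one_mul]
      exact Finset.prod_eq_one fun i _ => by rw [hy1, one_pow]
    rw [h2, mul_one] at h1
    rw [eq_neg_of_add_eq_zero_left h1]
    refine B.neg_mem (B.sum_mem fun t ht => ?_)
    by_cases ht0 : t = ms0 τ
    · rw [ht0, dmon_ms0 τ y v hv, mul_zero]
      exact B.zero_mem
    · by_cases ht1 : ∃ u : MVar n, u.2 ≠ τ u.1 ∧ t = ms1 τ u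
      · obtain ⟨u, hu, rfl⟩ := ht1
        have huv : v ≠ u := by
          rintro rfl
          exact (Finset.ne_of_mem_erase ht) rfl
        rw [dmon_ms1_of_ne τ y v u hv hu huv, mul_zero]
        exact B.zero_mem
      · push Not at ht1
        exact B.mul_mem (hrest t ht0 ht1) (hdmon v _)
  have hne0 : ∀ t : MIdx n d, t ≠ ms0 τ → C t ∈ B := by
    intro t ht0
    by_cases ht1 : ∃ u : MVar n, u.2 ≠ τ u.1 ∧ t = ms1 τ u
    · obtain ⟨u, hu, rfl⟩ := ht1
      exact hms1 u hu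
    · push Not at ht1
      exact hrest t ht0 ht1
  have hms0 : C (ms0 τ) ∈ B := by
    have h1 := hMF
    unfold MF Fg at h1
    rw [← Finset.add_sum_erase _ _ (Finset.mem_univ (ms0 τ : MIdx n d)), mon_ms0 τ y,
      Finset.prod_eq_one (fun i _ => by rw [hy1, one_pow]), mul_one] at h1
    rw [eq_neg_of_add_eq_zero_left h1]
    exact B.neg_mem (B.sum_mem fun t ht => B.mul_mem (hne0 t (Finset.ne_of_mem_erase ht))
      (hmon _))
  have hall : ∀ t, C t ∈ Algebra.adjoin ℚ (Set.range w) := by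
    intro t
    rw [← hB]
    by_cases ht : t = ms0 τ
    · rw [ht]; exact hms0
    · exact hne0 t ht
  have h1 := sma_card C hCi w hall
  have h2 : Fintype.card J < Fintype.card (MIdx n d) := by
    refine Fintype.card_lt_of_injective_not_surjective
      (Sum.elim (fun v : {v : MVar n // v.2 ≠ τ v.1} => (ms1 τ v.1 : MIdx n d))
        (fun t : {t : MIdx n d // t ≠ ms0 τ ∧ ∀ v : MVar n, v.2 ≠ τ v.1 → t ≠ ms1 τ v} => t.1))
      ?_ ?_
    · rintro (⟨v, hv⟩ | ⟨t, ht⟩) (⟨v', hv'⟩ | ⟨t', ht'⟩) h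
      · simp only [Sum.elim_inl] at h
        have := ms1_inj hd τ v v' hv hv' h
        subst this
        rfl
      · simp only [Sum.elim_inl, Sum.elim_inr] at h
        exact absurd h.symm (ht'.2 v hv)
      · simp only [Sum.elim_inl, Sum.elim_inr] at h
        exact absurd h (ht.2 v' hv')
      · simp only [Sum.elim_inr] at h
        subst h
        rfl
    · intro hs
      obtain ⟨x, hx⟩ := hs (ms0 τ)
      rcases x with ⟨v, hv⟩ | ⟨t, ht⟩
      · exact ms1_ne_ms0 hd τ v hv hx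
      · exact ht.1 hx
  omega

end multi

end GenHP
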