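import Pool.Agent.Lib.MP_e426f4_ag.M.Defs
import Pool.Agent.Lib.MP_e426f4_ag.M.Alg

/-! Smoothness is an open condition. -/

namespace GenHP

open Finset Filter Topology

section multi
variable {ι : Type} [Fintype ι] [DecidableEq ι] {n d : ι → ℕ}

private theorem smc_dmon_le (z : MVar n → ℂ) (hz : ∀ v, ‖z v‖ ≤ 1) (v : MVar n)
    (t : MIdx n d) : ‖dmon z v (mex t)‖ ≤ (∑ i, d i : ℕ) := by
  unfold dmon
  rw [norm_mul, Complex.norm_natCast, norm_prod]
  have h1 : ∏ i, ‖z i ^ (if i = v then mex t i - 1 else mex t i)‖ ≤ 1 := by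
    refine Finset.prod_le_one (fun i _ => norm_nonneg _) fun i _ => ?_
    rw [norm_pow]
    exact pow_le_one₀ (norm_nonneg _) (hz i)
  have h2 : mex t v ≤ ∑ i, d i := by
    rw [← mex_sum t]
    exact Finset.single_le_sum (f := fun v => mex t v) (fun _ _ => Nat.zero_le _)
      (Finset.mem_univ v)
  calc (mex t v : ℝ) * ∏ i, ‖z i ^ (if i = v then mex t i - 1 else mex t i)‖
      ≤ (mex t v : ℝ) * 1 := mul_le_mul_of_nonneg_left h1 (Nat.cast_nonneg _)
    _ ≤ (∑ i, d i : ℕ) := by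
        rw [mul_one]
        exact_mod_cast h2

/-- M-SMc: smoothness is an open condition -/
theorem smooth_open (A : MIdx n d → ℝ) (hA : RSmooth A) :
    ∃ delta : ℝ, 0 < delta ∧ ∀ A' : MIdx n d → ℝ, (∀ t, |A' t - A t| ≤ delta) → RSmooth A' := by
  classical
  let K : Set (MVar n → ℂ) := {z | (∀ v, ‖z v‖ ≤ 1) ∧ ∀ i, ∃ a, ‖z ⟨i, a⟩‖ = 1}
  have hKc : IsCompact K := by
    refine Metric.isCompact_of_isClosed_isBounded ?_ ?_
    · have h1 : K = {z : MVar n → ℂ | ∀ v, ‖z v‖ ≤ 1} ∩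
          ⋂ i : ι, ⋃ a : Fin (n i + 1), {z : MVar n → ℂ | ‖z ⟨i, a⟩‖ = 1} := by
        ext z
        simp [K]
      rw [h1]
      refine IsClosed.inter ?_ (isClosed_iInter fun i => isClosed_iUnion_of_finite fun a => ?_)
      · have : {z : MVar n → ℂ | ∀ v, ‖z v‖ ≤ 1} = ⋂ v, {z : MVar n → ℂ | ‖z v‖ ≤ 1} := by
          ext z
          simp
        rw [this]
        exact isClosed_iInter fun v => isClosed_le (by fun_prop) continuous_const
      · exact isClosed_eq (by fun_prop) continuous_const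
    · refine (Metric.isBounded_closedBall (x := (0 : MVar n → ℂ)) (r := 1)).subset ?_
      intro z hz
      rw [mem_closedBall_zero_iff]
      exact (pi_norm_le_iff_of_nonneg zero_le_one).2 hz.1
  have hKne : K.Nonempty := ⟨fun _ => 1, fun v => by simp, fun i => ⟨0, by simp⟩⟩
  have hcont : ∀ (C : MIdx n d → ℂ) (v : MVar n), Continuous fun z : MVar n → ℂ => MD C z v := by
    intro C v
    unfold MD Dg dmon
    fun_prop
  obtain ⟨z0, hz0, hmin⟩ := hKc.exists_isMinOn hKne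
    (f := fun z => ∑ v, ‖MD (fun t => ((A t : ℝ) : ℂ)) z v‖)
    (continuous_finsetSum _ fun v _ => (hcont _ v).norm).continuousOn
  have hKBNZ : ∀ z ∈ K, BNZ z := by
    intro z hz i
    obtain ⟨a, ha⟩ := hz.2 i
    refine ⟨a, fun h => ?_⟩
    rw [h, norm_zero] at ha
    exact zero_ne_one ha
  obtain ⟨m, hm⟩ : ∃ m : ℝ, m = ∑ v, ‖MD (fun t => ((A t : ℝ) : ℂ)) z0 v‖ := ⟨_, rfl⟩
  have hm0 : 0 < m := by
    obtain ⟨v, hv⟩ := hA z0 (hKBNZ z0 hz0)
    rw [hm]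
    exact Finset.sum_pos' (fun _ _ => norm_nonneg _) ⟨v, Finset.mem_univ _, norm_pos_iff.2 hv⟩
  obtain ⟨c, hc⟩ : ∃ c : ℝ, c = Fintype.card (MVar n) * (NM n d * (∑ i, d i : ℕ)) := ⟨_, rfl⟩
  have hc0 : 0 ≤ c := by rw [hc]; positivity
  refine ⟨m / (2 * (c + 1)), by positivity, fun A' hA' => ?_⟩
  obtain ⟨δ, hδ⟩ : ∃ δ : ℝ, δ = m / (2 * (c + 1)) := ⟨_, rfl⟩
  rw [← hδ] at hA'
  have hδ0 : 0 < δ := by rw [hδ]; positivity
  have hδc : c * δ < m := by
    rw [hδ, mul_div_assoc', div_lt_iff₀ (by positivity)]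
    nlinarith
  -- smoothness on `K`
  have hK' : ∀ z ∈ K, ∃ v, MD (fun t => ((A' t : ℝ) : ℂ)) z v ≠ 0 := by
    intro z hz
    by_contra hcon
    push Not at hcon
    have h1 : m ≤ ∑ v, ‖MD (fun t => ((A t : ℝ) : ℂ)) z v‖ := by
      rw [hm]
      exact hmin hz
    have h2 : ∀ v, ‖MD (fun t => ((A t : ℝ) : ℂ)) z v‖ ≤ NM n d * (∑ i, d i : ℕ) * δ := by
      intro v
      have h3 : MD (fun t => ((A t : ℝ) : ℂ)) z v =
          ∑ t : MIdx n d, (((A t : ℝ) : ℂ) - ((A' t : ℝ) : ℂ)) * dmon z v (mex t) := by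
        have h4 := hcon v
        unfold MD Dg at h4 ⊢
        simp only [sub_mul, Finset.sum_sub_distrib]
        rw [h4, sub_zero]
      rw [h3]
      refine (norm_sum_le _ _).trans ?_
      have h5 : ∀ t ∈ (univ : Finset (MIdx n d)),
          ‖(((A t : ℝ) : ℂ) - ((A' t : ℝ) : ℂ)) * dmon z v (mex t)‖ ≤
            δ * (∑ i, d i : ℕ) := by
        intro t _
        rw [norm_mul]
        refine mul_le_mul ?_ (smc_dmon_le z hz.1 v t) (norm_nonneg _) hδ0.le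
        rw [← Complex.ofReal_sub, Complex.norm_real, Real.norm_eq_abs, abs_sub_comm]
        exact hA' t
      refine (Finset.sum_le_card_nsmul _ _ _ h5).trans (le_of_eq ?_)
      rw [nsmul_eq_mul, Finset.card_univ]
      unfold NM
      ring
    have h3 := Finset.sum_le_card_nsmul (univ : Finset (MVar n)) _ _ (fun v _ => h2 v)
    rw [nsmul_eq_mul, Finset.card_univ] at h3
    have h4 : (Fintype.card (MVar n) : ℝ) * (NM n d * (∑ i, d i : ℕ) * δ) = c * δ := by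
      rw [hc]; ring
    rw [h4] at h3
    linarith
  intro z hz
  -- scaling
  have hmax : ∀ i, ∃ a, ∀ b, ‖z ⟨i, b⟩‖ ≤ ‖z ⟨i, a⟩‖ := fun i =>
    Finite.exists_max fun a => ‖z ⟨i, a⟩‖
  choose τ hτ using hmax
  have hpos : ∀ i, 0 < ‖z ⟨i, τ i⟩‖ := by
    intro i
    obtain ⟨a, ha⟩ := hz i
    exact lt_of_lt_of_le (norm_pos_iff.2 ha) (hτ i a)
  obtain ⟨k, hk⟩ : ∃ k : ι → ℂ, k = fun i => (((‖z ⟨i, τ i⟩‖)⁻¹ : ℝ) : ℂ) := ⟨_, rfl⟩
  have hkn : ∀ i, ‖k i‖ = (‖z ⟨i, τ i⟩‖)⁻¹ := by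
    intro i
    rw [hk]
    simp only
    rw [Complex.norm_real, Real.norm_eq_abs, abs_of_pos (inv_pos.2 (hpos i))]
  have hk0 : ∀ i, k i ≠ 0 := by
    intro i h
    have := hkn i
    rw [h, norm_zero] at this
    exact (inv_pos.2 (hpos i)).ne this
  have hzK : (fun u : MVar n => k u.1 * z u) ∈ K := by
    constructor
    · rintro ⟨i, a⟩
      simp only
      rw [norm_mul, hkn, inv_mul_le_iff₀ (hpos i), mul_one]
      exact hτ i a
    · intro i
      refine ⟨τ i, ?_⟩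
      simp only
      rw [norm_mul, hkn, inv_mul_cancel₀ (hpos i).ne']
  obtain ⟨v, hv⟩ := hK' _ hzK
  refine ⟨v, fun h => hv ?_⟩
  have h1 := MD_scale k (fun t => ((A' t : ℝ) : ℂ)) z v
  rw [h, mul_zero] at h1
  exact (mul_eq_zero.1 h1).resolve_left (hk0 _)

end multi

end GenHP
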