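import Pool.Agent.Lib.MP_e426f4_ag.M.Defs
import Pool.Agent.Lib.MP_e426f4_ag.G.Basic

/-! Module M-Y1: integer points with given approximations. -/

namespace GenHP

open Finset Filter Topology

/-- Chinese remainder theorem for the moduli `p ^ (2 k)` -/
theorem y1_crt (k : ℕ) (r : ℕ → ℤ) (s : Finset ℕ) :
    (∀ p ∈ s, p.Prime) → ∃ x : ℤ, ∀ p ∈ s, (p : ℤ) ^ (2 * k) ∣ x - r p := by
  induction s using Finset.induction_on with
  | empty => intro _; exact ⟨0, by simp⟩
  | insert p s hp ih =>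
    intro h
    obtain ⟨x, hx⟩ := ih fun q hq => h q (Finset.mem_insert_of_mem hq)
    have hpp := h p (Finset.mem_insert_self _ _)
    have hcop : IsCoprime (∏ q ∈ s, (q : ℤ) ^ (2 * k)) ((p : ℤ) ^ (2 * k)) := by
      apply IsCoprime.prod_left
      intro q hq
      apply IsCoprime.pow
      rw [Nat.isCoprime_iff_coprime]
      exact (Nat.coprime_primes (h q (Finset.mem_insert_of_mem hq)) hpp).2 (by
        rintro rfl
        exact hp hq)
    obtain ⟨a, b, hab⟩ := hcop
    refine ⟨x + (a * (∏ q ∈ s, (q : ℤ) ^ (2 * k))) * (r p - x), fun q hq => ?_⟩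
    rcases Finset.mem_insert.1 hq with rfl | hq
    · refine ⟨-(b * (r q - x)), ?_⟩
      linear_combination (r q - x) * hab
    · have h1 : (q : ℤ) ^ (2 * k) ∣ ∏ q ∈ s, (q : ℤ) ^ (2 * k) := Finset.dvd_prod_of_mem _ hq
      have h2 : x + a * (∏ q ∈ s, (q : ℤ) ^ (2 * k)) * (r p - x) - r q =
          (x - r q) + a * (∏ q ∈ s, (q : ℤ) ^ (2 * k)) * (r p - x) := by ring
      rw [h2]
      exact dvd_add (hx q hq) ((h1.mul_left _).mul_right _)

theorem exists_prim_approx (w k m : ℕ) (hk : 1 ≤ k) (yp : ℕ → Fin (m + 1) → ℤ)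
    (hyp : ∀ p : ℕ, p.Prime → p ≤ w → ∃ a, ¬ (p : ℤ) ∣ yp p a) (eta : Fin (m + 1) → ℝ)
    (heta : ∀ a, |eta a| ≤ 1) (heta1 : ∃ a, |eta a| = 1) (delta : ℝ) (hdel : 0 < delta) :
    ∃ (y : Fin (m + 1) → ℤ) (N : ℕ), 0 < N ∧ Prim y ∧
      (∀ p : ℕ, p.Prime → p ≤ w → ∃ u : ℤ, ¬ (p : ℤ) ∣ u ∧
        ∀ a, (p : ℤ) ^ (2 * k) ∣ y a - u * yp p a) ∧
      (∀ a, |y a| ≤ N) ∧ (∃ a, |y a| = N) ∧ ∀ a, |(y a : ℝ) / N - eta a| ≤ delta := by
  classical
  set s : Finset ℕ := (Finset.range (w + 1)).filter Nat.Prime with hs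
  have hsp : ∀ p ∈ s, p.Prime := fun p hp => (Finset.mem_filter.1 hp).2
  have hsm : ∀ p : ℕ, p.Prime → p ≤ w → p ∈ s := fun p hp hpw =>
    Finset.mem_filter.2 ⟨Finset.mem_range.2 (by omega), hp⟩
  choose ys hys using fun a => y1_crt k (fun p => yp p a) s hsp
  set Q : ℤ := ∏ q ∈ s, (q : ℤ) ^ (2 * k) with hQ
  have hQp : 0 < Q := by
    rw [hQ]
    apply Finset.prod_pos
    intro q hq
    have := (hsp q hq).pos
    positivity
  have hQr : (0 : ℝ) < Q := by exact_mod_cast hQp
  set T : ℝ := 2 * Q + 2 * Q / delta with hT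
  have hTQ : (Q : ℝ) < T := by
    have : 0 < 2 * (Q : ℝ) / delta := by positivity
    linarith
  have hT0 : 0 < T := by linarith
  set y' : Fin (m + 1) → ℤ := fun a => ys a + Q * round ((T * eta a - ys a) / Q) with hy'
  have hy'1 : ∀ a, |(y' a : ℝ) - T * eta a| ≤ Q := by
    intro a
    have h1 := abs_sub_round ((T * eta a - ys a) / Q)
    have h2 : (y' a : ℝ) - T * eta a = -(Q * ((T * eta a - ys a) / Q -
        round ((T * eta a - ys a) / Q))) := by
      rw [hy']
      push_cast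
      field_simp
      ring
    rw [h2, abs_neg, abs_mul, abs_of_pos hQr]
    calc (Q : ℝ) * _ ≤ Q * (1 / 2) := mul_le_mul_of_nonneg_left h1 hQr.le
      _ ≤ Q := by linarith
  have hy'2 : ∀ p ∈ s, ∀ a, (p : ℤ) ^ (2 * k) ∣ y' a - yp p a := by
    intro p hp a
    have h1 : (p : ℤ) ^ (2 * k) ∣ Q := Finset.dvd_prod_of_mem _ hp
    have h2 : y' a - yp p a = (ys a - yp p a) + Q * round ((T * eta a - ys a) / Q) := by
      rw [hy']; ring
    rw [h2]
    exact dvd_add (hys a p hp) (h1.mul_right _)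
  -- the gcd
  obtain ⟨y, hy1, hy2⟩ := Finset.extract_gcd y' (Finset.univ_nonempty (α := Fin (m + 1)))
  set g : ℤ := Finset.univ.gcd y' with hg
  have hy1' : ∀ a, y' a = g * y a := fun a => hy1 a (Finset.mem_univ a)
  -- nonvanishing
  obtain ⟨a1, ha1⟩ := heta1
  have hya1 : T - Q ≤ |(y' a1 : ℝ)| := by
    have h1 := hy'1 a1
    have h2 : |T * eta a1| = T := by rw [abs_mul, ha1, abs_of_pos hT0, mul_one]
    have h3 := abs_sub_abs_le_abs_sub (T * eta a1) (y' a1 : ℝ)
    rw [abs_sub_comm] at h3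
    linarith
  have hg0 : g ≠ 0 := by
    intro h
    have h1 := hy1' a1
    rw [h, zero_mul] at h1
    rw [h1] at hya1
    simp at hya1
    linarith
  have hgpos : 0 < |(g : ℝ)| := by
    rw [abs_pos]
    exact_mod_cast hg0
  -- N
  set N : ℕ := Finset.univ.sup fun a => (y a).natAbs with hN
  have hNle : ∀ a, |y a| ≤ N := by
    intro a
    have h1 : (y a).natAbs ≤ N := Finset.le_sup (f := fun a => (y a).natAbs) (Finset.mem_univ a)
    rw [Int.abs_eq_natAbs]
    exact_mod_cast h1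
  obtain ⟨a2, -, ha2⟩ := Finset.exists_mem_eq_sup univ (Finset.univ_nonempty (α := Fin (m + 1)))
    fun a => (y a).natAbs
  have hNeq : |y a2| = N := by
    rw [Int.abs_eq_natAbs, hN, ha2]
  have hNpos : 0 < N := by
    rcases Nat.eq_zero_or_pos N with h | h
    · exfalso
      have h1 := hNle a1
      rw [h] at h1
      have h2 : y a1 = 0 := abs_eq_zero.1 (le_antisymm (by exact_mod_cast h1) (abs_nonneg _))
      have h3 := hy1' a1
      rw [h2, mul_zero] at h3
      rw [h3] at hya1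
      simp at hya1
      linarith
    · exact h
  have hNr : (0 : ℝ) < N := by exact_mod_cast hNpos
  refine ⟨y, N, hNpos, ?_, ?_, hNle, ⟨a2, hNeq⟩, ?_⟩
  · -- primitive
    obtain ⟨c, hc⟩ := Finset.gcd_eq_sum_mul (univ : Finset (Fin (m + 1))) y
    refine ⟨c, ?_⟩
    rw [hy2] at hc
    rw [hc]
    exact Finset.sum_congr rfl fun i _ => mul_comm _ _
  · intro p hp hpw
    have hps := hsm p hp hpw
    obtain ⟨a, ha⟩ := hyp p hp hpw
    have hpg : ¬ (p : ℤ) ∣ g := by
      intro h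
      apply ha
      have h1 := (dvd_pow_self (p : ℤ) (by omega : 2 * k ≠ 0)).trans (hy'2 p hps a)
      have h2 : (p : ℤ) ∣ y' a := by
        rw [hy1' a]
        exact h.mul_right _
      have h3 : yp p a = y' a - (y' a - yp p a) := by ring
      rw [h3]
      exact dvd_sub h2 h1
    have hcop : IsCoprime g ((p : ℤ) ^ (2 * k)) := by
      apply IsCoprime.pow_right
      rw [isCoprime_comm]
      exact (Nat.prime_iff_prime_int.1 hp).coprime_iff_not_dvd.2 hpg
    obtain ⟨u, q, huq⟩ := hcop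
    refine ⟨u, ?_, fun b => ?_⟩
    · intro h
      have h1 : (p : ℤ) ∣ 1 := by
        rw [← huq]
        exact dvd_add (h.mul_right _) ((dvd_pow_self (p : ℤ) (by omega : 2 * k ≠ 0)).mul_left _)
      exact (Nat.prime_iff_prime_int.1 hp).not_isUnit (isUnit_of_dvd_one h1)
    · obtain ⟨t, ht⟩ := hy'2 p hps b
      rw [hy1' b] at ht
      refine ⟨q * y b + u * t, ?_⟩
      linear_combination (u * ht) - (y b) * huq
  · intro a
    -- `M' = N |g| = max |y'|`
    have hM : ∀ b, |(y' b : ℝ)| ≤ N * |(g : ℝ)| := by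
      intro b
      rw [hy1' b]
      push_cast
      rw [abs_mul, mul_comm]
      apply mul_le_mul_of_nonneg_right _ hgpos.le
      exact_mod_cast hNle b
    have hM2 : |(y' a2 : ℝ)| = N * |(g : ℝ)| := by
      rw [hy1' a2]
      push_cast
      rw [abs_mul, mul_comm]
      congr 1
      exact_mod_cast hNeq
    set M' : ℝ := N * |(g : ℝ)| with hM'
    have hM'0 : 0 < M' := by positivity
    have hM'lo : T - Q ≤ M' := hya1.trans (hM a1)
    have hM'hi : M' ≤ T + Q := by
      rw [← hM2]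
      have h1 := hy'1 a2
      have h2 : |T * eta a2| ≤ T := by
        rw [abs_mul, abs_of_pos hT0]
        have := heta a2
        nlinarith
      have h3 := abs_sub_abs_le_abs_sub (y' a2 : ℝ) (T * eta a2)
      linarith
    have hgnn : 0 ≤ g := by
      rw [hg]
      exact Int.nonneg_of_normalize_eq_self Finset.normalize_gcd
    have hgr : |(g : ℝ)| = g := abs_of_nonneg (by exact_mod_cast hgnn)
    have hgr0 : (0 : ℝ) < g := by rw [← hgr]; exact hgpos
    have h1 : (y a : ℝ) / N - eta a = ((y' a : ℝ) - M' * eta a) / M' := by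
      rw [hM', hgr, hy1' a]
      push_cast
      field_simp
    rw [h1, abs_div, abs_of_pos hM'0, div_le_iff₀ hM'0]
    have h2 : (y' a : ℝ) - M' * eta a = ((y' a : ℝ) - T * eta a) + (T - M') * eta a := by ring
    rw [h2]
    have h3 : |(T - M') * eta a| ≤ Q := by
      rw [abs_mul]
      have h4 : |T - M'| ≤ Q := abs_le.2 ⟨by linarith, by linarith⟩
      calc |T - M'| * |eta a| ≤ Q * 1 := mul_le_mul h4 (heta a) (abs_nonneg _) hQr.le
        _ = Q := mul_one _
    have h5 : 2 * (Q : ℝ) ≤ delta * M' := by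
      have h6 : 2 * (Q : ℝ) / delta ≤ M' := by linarith
      rw [div_le_iff₀ hdel] at h6
      linarith
    calc |((y' a : ℝ) - T * eta a) + (T - M') * eta a| ≤ Q + Q :=
          (abs_add_le _ _).trans (add_le_add (hy'1 a) h3)
      _ ≤ delta * M' := by linarith

end GenHP
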