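import Pool.Agent.Lib.MP_e426f4_ag.M.Alg

/-!
# GCHP, module M-EP: a `p`-adic zero gives an approximate integer zero
-/

namespace GenHP

open Finset Filter Topology

section multi
variable {ι : Type} [Fintype ι] [DecidableEq ι] {n d : ι → ℕ}

theorem m_exists_approx_zero (p l : ℕ) [Fact p.Prime] (A : MIdx n d → ℤ)
    (h : ∃ z : MVar n → ℚ_[p], BNZ z ∧ MF (fun t => (A t : ℚ_[p])) z = 0) :
    ∃ z : MVar n → ℤ, BUnit p z ∧ (p : ℤ) ^ (2 * l) ∣ MF A z := by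
  obtain ⟨x, hx, hF⟩ := h
  have hmax : ∀ i, ∃ a : Fin (n i + 1), ∀ b : Fin (n i + 1), ‖x ⟨i, b⟩‖ ≤ ‖x ⟨i, a⟩‖ := by
    intro i
    obtain ⟨a, -, ha⟩ := Finset.exists_max_image (univ : Finset (Fin (n i + 1)))
      (fun a => ‖x ⟨i, a⟩‖) ⟨0, mem_univ 0⟩
    exact ⟨a, fun b => ha b (mem_univ b)⟩
  choose σ hσ using hmax
  have hxi : ∀ i, x ⟨i, σ i⟩ ≠ 0 := by
    intro i h0
    obtain ⟨b, hb⟩ := hx i
    have := hσ i b
    rw [h0, norm_zero] at this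
    exact hb (norm_le_zero_iff.mp this)
  -- the normalised zero
  have hle : ∀ v : MVar n, ‖(x ⟨v.1, σ v.1⟩)⁻¹ * x v‖ ≤ 1 := by
    intro v
    rw [norm_mul, norm_inv]
    have hpos : 0 < ‖x ⟨v.1, σ v.1⟩‖ := norm_pos_iff.mpr (hxi v.1)
    rw [inv_mul_le_iff₀ hpos, mul_one]
    exact hσ v.1 v.2
  let z : MVar n → ℤ_[p] := fun v => ⟨(x ⟨v.1, σ v.1⟩)⁻¹ * x v, hle v⟩
  have hz : MF (fun t => (A t : ℤ_[p])) z = 0 := by
    have h1 : (PadicInt.Coe.ringHom (p := p)) (MF (fun t => (A t : ℤ_[p])) z) = 0 := by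
      rw [← MF_map]
      have h2 : (fun v => (PadicInt.Coe.ringHom (p := p)) (z v)) =
          fun v => (x ⟨v.1, σ v.1⟩)⁻¹ * x v := rfl
      have h3 : (fun t => (PadicInt.Coe.ringHom (p := p)) ((A t : ℤ) : ℤ_[p])) =
          fun t => ((A t : ℤ) : ℚ_[p]) := by
        funext t; simp
      rw [h2, h3, MF_scale (fun i => (x ⟨i, σ i⟩)⁻¹), hF, mul_zero]
    have h4 : ((MF (fun t => (A t : ℤ_[p])) z : ℤ_[p]) : ℚ_[p]) = 0 := h1
    exact Subtype.ext h4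
  have hzi : ∀ i, z ⟨i, σ i⟩ = 1 := by
    intro i
    apply Subtype.ext
    change (x ⟨i, σ i⟩)⁻¹ * x ⟨i, σ i⟩ = 1
    exact inv_mul_cancel₀ (hxi i)
  -- integer lifts
  let m : ℕ := 2 * l + 1
  have hlift : ∀ v, ∃ c : ℤ, ((c : ℤ) : ZMod (p ^ m)) = PadicInt.toZModPow m (z v) := fun v =>
    ZMod.intCast_surjective _
  choose c hc using hlift
  have hFn : (((MF A c : ℤ)) : ZMod (p ^ m)) = 0 := by
    have h1 : (Int.castRingHom (ZMod (p ^ m))) (MF A c) =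
        PadicInt.toZModPow m (MF (fun t => (A t : ℤ_[p])) z) := by
      rw [← MF_map, ← MF_map]
      congr 1
      · funext t; simp
      · funext v; simpa using hc v
    rw [hz, map_zero] at h1
    simpa using h1
  refine ⟨c, fun i => ⟨σ i, ?_⟩, ?_⟩
  · intro hdvd
    have h1 : ((c ⟨i, σ i⟩ : ℤ) : ZMod (p ^ m)) = 1 := by rw [hc, hzi i, map_one]
    have h2 : ((c ⟨i, σ i⟩ - 1 : ℤ) : ZMod (p ^ m)) = 0 := by push_cast; rw [h1]; ring
    rw [ZMod.intCast_zmod_eq_zero_iff_dvd] at h2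
    have h3 : (p : ℤ) ∣ c ⟨i, σ i⟩ - 1 := by
      refine dvd_trans ?_ h2
      push_cast
      exact dvd_pow_self _ (by omega)
    have h4 : (p : ℤ) ∣ 1 := by
      have := dvd_sub hdvd h3
      simpa using this
    have hp := (Fact.out : p.Prime)
    have h5 : (p : ℤ) ∣ ((1 : ℕ) : ℤ) := by simpa using h4
    rw [Int.natCast_dvd_natCast] at h5
    exact hp.one_lt.ne' (Nat.dvd_one.mp h5)
  · rw [ZMod.intCast_zmod_eq_zero_iff_dvd] at hFn
    refine dvd_trans ?_ hFn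
    push_cast
    exact pow_dvd_pow _ (by omega)

end multi

end GenHP
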