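import Pool.Agent.Lib.MP_e426f4_ag.M.Fibre

/-! Module M-YB: evaluating some blocks. -/

namespace GenHP

open Finset Filter Topology

theorem red_fin {S : Type*} [Finite S] (c : S → ℝ) (L : ℝ) :
    {a : S → ℤ | ∀ s, |(a s : ℝ) - c s| ≤ L}.Finite := by
  refine (Set.Finite.pi' (fun s : S => Set.finite_Icc ⌈c s - L⌉ ⌊c s + L⌋)).subset ?_
  intro a ha s
  have h1 := ha s
  rw [abs_le] at h1
  exact ⟨Int.ceil_le.2 (by linarith [h1.1]), Int.le_floor.2 (by linarith [h1.2])⟩

theorem red_eps (m : ℕ) : (1 + 1 / (2 * ((m : ℝ) + 1))) ^ m ≤ 2 := by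
  have h0 : (0 : ℝ) < 1 / (2 * ((m : ℝ) + 1)) := by positivity
  calc (1 + 1 / (2 * ((m : ℝ) + 1))) ^ m ≤ (Real.exp (1 / (2 * ((m : ℝ) + 1)))) ^ m := by
        apply pow_le_pow_left₀ (by positivity)
        have := Real.add_one_le_exp (1 / (2 * ((m : ℝ) + 1)))
        linarith
    _ = Real.exp (m * (1 / (2 * ((m : ℝ) + 1)))) := by rw [← Real.exp_nat_mul]
    _ ≤ Real.exp (1 / 2) := by
        apply Real.exp_le_exp.2
        rw [mul_one_div, div_le_div_iff₀ (by positivity) (by norm_num)]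
        linarith
    _ ≤ 2 := by
        have h9 : Real.exp (1 / 2) * Real.exp (1 / 2) = Real.exp 1 := by
          rw [← Real.exp_add]; norm_num
        have h10 := Real.exp_one_lt_d9
        norm_num at h10
        by_contra hcon
        push Not at hcon
        nlinarith

/-- `T1`: remaining monomials; `S`: monomials of the evaluated blocks; `P`, `P1`: not soluble. -/
theorem reduce {T1 S : Type} [Fintype T1] [DecidableEq T1] [Fintype S] [DecidableEq S]
    (v : S → ℤ) (hv : ∃ c : S → ℤ, ∑ s, c s * v s = 1) (V : ℕ) (hV : ∀ s, |v s| ≤ V) (s0 : S)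
    (hs0 : |v s0| = V) (Q : ℕ) (hQ : 1 ≤ Q) (rho : ℝ) (hrho : 0 < rho)
    (P1 : (T1 → ℤ) → Prop) (P : (T1 × S → ℤ) → Prop)
    (hP : ∀ A, P A → P1 fun t => ∑ s, A (t, s) * v s)
    (AC : T1 × S → ℝ) (A0 : T1 × S → ℤ) (C1 : ℝ) (hC1 : 0 < C1)
    (h : ∀ᶠ H : ℝ in atTop,
      (Set.ncard {b : T1 → ℤ |
        (∀ t, |(b t : ℝ) - H * ((∑ s, AC (t, s) * (v s : ℝ)) / (Fintype.card S * V))| ≤ rho * H) ∧
        (∀ t, (Q : ℤ) ∣ b t - ∑ s, A0 (t, s) * v s) ∧ P1 b} : ℝ) ≤
        C1 * (2 * rho * H / Q) ^ Fintype.card T1) :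
    ∀ᶠ H : ℝ in atTop,
      (Set.ncard {A : T1 × S → ℤ | (∀ t, |(A t : ℝ) - H * AC t| ≤ rho * H) ∧
        (∀ t, (Q : ℤ) ∣ A t - A0 t) ∧ P A} : ℝ) ≤
        2 * C1 * (Fintype.card S : ℝ) ^ Fintype.card T1 *
          (2 * rho * H / Q) ^ (Fintype.card (T1 × S)) := by
  classical
  have hVp : 0 < V := by
    rcases Nat.eq_zero_or_pos V with h | h
    · exfalso
      obtain ⟨c, hc⟩ := hv
      have h1 : ∀ s, v s = 0 := by
        intro s
        have := hV s
        rw [h] at this
        exact abs_eq_zero.1 (le_antisymm (by exact_mod_cast this) (abs_nonneg _))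
      simp [h1] at hc
    · exact h
  have hQr : (0 : ℝ) < Q := by exact_mod_cast hQ
  have hVr : (0 : ℝ) < V := by exact_mod_cast hVp
  have hSpos : 0 < Fintype.card S := Fintype.card_pos_iff.2 ⟨s0⟩
  have hSr : (0 : ℝ) < Fintype.card S := by exact_mod_cast hSpos
  set m := Fintype.card T1 with hm
  have hf := fibre_count v hv V hV s0 hs0 Q hQ rho hrho (1 / (2 * ((m : ℝ) + 1))) (by positivity)
  have hscale : Tendsto (fun H : ℝ => (Fintype.card S * V : ℝ) * H) atTop atTop :=
    tendsto_id.const_mul_atTop (by positivity)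
  filter_upwards [hf, hscale.eventually h, eventually_gt_atTop 0] with H hfH hH hH0
  set H' : ℝ := (Fintype.card S * V : ℝ) * H with hH'
  set B : Set (T1 → ℤ) := {b : T1 → ℤ |
        (∀ t, |(b t : ℝ) - H' * ((∑ s, AC (t, s) * (v s : ℝ)) / (Fintype.card S * V))| ≤ rho * H') ∧
        (∀ t, (Q : ℤ) ∣ b t - ∑ s, A0 (t, s) * v s) ∧ P1 b} with hB
  have hBfin : B.Finite := (red_fin _ _).subset fun b hb => hb.1
  set X : (T1 → ℤ) → T1 → Set (S → ℤ) := fun b t => {a : S → ℤ |
    (∀ s, |(a s : ℝ) - H * AC (t, s)| ≤ rho * H) ∧ (∀ s, (Q : ℤ) ∣ a s - A0 (t, s)) ∧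
      ∑ s, a s * v s = b t} with hX
  have hXfin : ∀ b t, (X b t).Finite := fun b t => (red_fin _ _).subset fun a ha => ha.1
  have hXc : ∀ b t, ((X b t).ncard : ℝ) ≤
      (1 + 1 / (2 * ((m : ℝ) + 1))) * (2 * rho * H / Q) ^ (Fintype.card S - 1) / V := fun b t =>
    hfH (fun s => H * AC (t, s)) (fun s => A0 (t, s)) (b t)
  set Big : Finset (T1 → S → ℤ) := hBfin.toFinset.biUnion fun b =>
    Fintype.piFinset fun t => (hXfin b t).toFinset with hBig
  set W : Set (T1 × S → ℤ) := {A : T1 × S → ℤ | (∀ t, |(A t : ℝ) - H * AC t| ≤ rho * H) ∧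
        (∀ t, (Q : ℤ) ∣ A t - A0 t) ∧ P A} with hW
  have hle : W.ncard ≤ Big.card := by
    rw [← Set.ncard_coe_finset]
    refine Set.ncard_le_ncard_of_injOn (fun A t s => A (t, s)) ?_ ?_ (Finset.finite_toSet _)
    · rintro A ⟨h1, h2, h3⟩
      rw [Finset.mem_coe, hBig, Finset.mem_biUnion]
      refine ⟨fun t => ∑ s, A (t, s) * v s, ?_, ?_⟩
      · rw [Set.Finite.mem_toFinset]
        refine ⟨fun t => ?_, fun t => ?_, hP A h3⟩
        · have h4 : (((∑ s, A (t, s) * v s : ℤ)) : ℝ) -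
              H' * ((∑ s, AC (t, s) * (v s : ℝ)) / (Fintype.card S * V)) =
              ∑ s, ((A (t, s) : ℝ) - H * AC (t, s)) * v s := by
            have h5 : H' * ((∑ s, AC (t, s) * (v s : ℝ)) / (Fintype.card S * V)) =
                H * ∑ s, AC (t, s) * (v s : ℝ) := by
              rw [hH']
              field_simp
            rw [h5, Finset.mul_sum]
            push_cast
            rw [← Finset.sum_sub_distrib]
            exact Finset.sum_congr rfl fun s _ => by ring
          rw [h4]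
          refine (Finset.abs_sum_le_sum_abs _ _).trans ?_
          have h6 : ∀ s ∈ (univ : Finset S), |((A (t, s) : ℝ) - H * AC (t, s)) * v s| ≤ rho * H * V := by
            intro s _
            rw [abs_mul]
            have h7 : |(v s : ℝ)| ≤ V := by exact_mod_cast hV s
            exact mul_le_mul (h1 (t, s)) h7 (abs_nonneg _) (by positivity)
          refine (Finset.sum_le_card_nsmul _ _ _ h6).trans (le_of_eq ?_)
          rw [nsmul_eq_mul, Finset.card_univ, hH']
          ring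
        · rw [← Finset.sum_sub_distrib]
          refine Finset.dvd_sum fun s _ => ?_
          rw [← sub_mul]
          exact (h2 (t, s)).mul_right _
      · rw [Fintype.mem_piFinset]
        intro t
        rw [Set.Finite.mem_toFinset]
        exact ⟨fun s => h1 (t, s), fun s => h2 (t, s), rfl⟩
    · intro A _ A' _ hAA
      funext ⟨t, s⟩
      exact congrFun (congrFun hAA t) s
  have hpi : ∀ b, ((Fintype.piFinset fun t => (hXfin b t).toFinset).card : ℝ) ≤
      ((1 + 1 / (2 * ((m : ℝ) + 1))) * (2 * rho * H / Q) ^ (Fintype.card S - 1) / V) ^ m := by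
    intro b
    rw [Fintype.card_piFinset]
    push_cast
    rw [hm, ← Finset.card_univ, ← Finset.prod_const]
    refine Finset.prod_le_prod (fun _ _ => by positivity) fun t _ => ?_
    rw [← Set.ncard_eq_toFinset_card _ (hXfin b t)]
    rw [hm, ← Finset.card_univ] at hXc
    exact hXc b t
  have hBigc : (Big.card : ℝ) ≤ B.ncard *
      ((1 + 1 / (2 * ((m : ℝ) + 1))) * (2 * rho * H / Q) ^ (Fintype.card S - 1) / V) ^ m := by
    have h1 : (Big.card : ℝ) ≤ ∑ b ∈ hBfin.toFinset,
        ((Fintype.piFinset fun t => (hXfin b t).toFinset).card : ℝ) := by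
      exact_mod_cast Finset.card_biUnion_le
    refine h1.trans ((Finset.sum_le_card_nsmul _ _ _ fun b _ => hpi b).trans (le_of_eq ?_))
    rw [nsmul_eq_mul, Set.ncard_eq_toFinset_card B hBfin]
  set q : ℝ := 2 * rho * H / Q with hq
  have hq0 : 0 < q := by positivity
  set e : ℝ := 1 + 1 / (2 * ((m : ℝ) + 1)) with he
  have he0 : 0 < e := by positivity
  have hem : e ^ m ≤ 2 := red_eps m
  have hq' : 2 * rho * H' / Q = q * (Fintype.card S * V) := by
    rw [hq, hH']; ring
  rw [hq'] at hH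
  have hcardTS : Fintype.card (T1 × S) = m * Fintype.card S := by
    rw [Fintype.card_prod]
  have hqS : q ^ (Fintype.card S - 1) * q = q ^ Fintype.card S := by
    rw [← pow_succ, Nat.sub_add_cancel hSpos]
  calc (W.ncard : ℝ) ≤ Big.card := by exact_mod_cast hle
    _ ≤ B.ncard * (e * q ^ (Fintype.card S - 1) / V) ^ m := hBigc
    _ ≤ (C1 * (q * (Fintype.card S * V)) ^ m) * (e * q ^ (Fintype.card S - 1) / V) ^ m :=
        mul_le_mul_of_nonneg_right hH (by positivity)
    _ = C1 * e ^ m * (Fintype.card S : ℝ) ^ m * (q ^ (Fintype.card S - 1) * q) ^ m := by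
        rw [mul_assoc, ← mul_pow, mul_assoc C1, mul_assoc C1, ← mul_pow, ← mul_pow]
        congr 2
        field_simp
    _ = C1 * e ^ m * (Fintype.card S : ℝ) ^ m * q ^ (m * Fintype.card S) := by
        rw [hqS, ← pow_mul, mul_comm (Fintype.card S) m]
    _ ≤ C1 * 2 * (Fintype.card S : ℝ) ^ m * q ^ (m * Fintype.card S) := by
        apply mul_le_mul_of_nonneg_right _ (by positivity)
        apply mul_le_mul_of_nonneg_right _ (by positivity)
        exact mul_le_mul_of_nonneg_left hem hC1.le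
    _ = 2 * C1 * (Fintype.card S : ℝ) ^ m * q ^ (Fintype.card (T1 × S)) := by
        rw [hcardTS]; ring

end GenHP
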