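import Pool.Agent.Lib.MP_e426f4_ag.M.Alg
import Pool.Agent.Lib.MP_e426f4_ag.M.Spec

/-! Differences of values and derivatives of forms which agree off the special monomials. -/

namespace GenHP

open Finset Filter Topology

section multi
variable {ι : Type} [Fintype ι] [DecidableEq ι] {n d : ι → ℕ}

theorem cond_MD_diff {R : Type*} [CommRing R] (τ : ∀ i, Fin (n i + 1)) (z : MVar n → R)
    (U : Finset (MVar n)) (hU : ∀ v ∈ U, v.2 ≠ τ v.1) (v : MVar n) (hv : v ∈ U)
    (A A' : MIdx n d → R)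
    (h : ∀ t, t ∉ U.image (fun v => (ms1 τ v : MIdx n d)) → t ≠ ms0 τ → A t = A' t) :
    MD A z v - MD A' z v =
      (A (ms1 τ v) - A' (ms1 τ v)) * dmon z v (mex (ms1 τ v : MIdx n d)) := by
  have e : MD A z v - MD A' z v = ∑ t, (A t - A' t) * dmon z v (mex t) := by
    unfold MD Dg
    rw [← Finset.sum_sub_distrib]
    exact Finset.sum_congr rfl fun t _ => by ring
  rw [e]
  refine Finset.sum_eq_single (ms1 τ v) ?_ (fun h => absurd (mem_univ _) h)
  intro t _ ht
  by_cases h0 : t = ms0 τ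
  · rw [h0, dmon_ms0 τ z v (hU v hv), mul_zero]
  · by_cases h1 : t ∈ U.image (fun v => (ms1 τ v : MIdx n d))
    · obtain ⟨v', hv', rfl⟩ := Finset.mem_image.mp h1
      have hne : v ≠ v' := fun h => ht (by rw [h])
      rw [dmon_ms1_of_ne τ z v v' (hU v hv) (hU v' hv') hne, mul_zero]
    · rw [h t h1 h0, sub_self, zero_mul]

theorem cond_MF_diff {R : Type*} [CommRing R] (τ : ∀ i, Fin (n i + 1)) (z : MVar n → R)
    (A A' : MIdx n d → R) (h : ∀ t, t ≠ ms0 τ → A t = A' t) :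
    MF A z - MF A' z = (A (ms0 τ) - A' (ms0 τ)) * ∏ i, z ⟨i, τ i⟩ ^ d i := by
  have e : MF A z - MF A' z = ∑ t, (A t - A' t) * mon z (mex t) := by
    unfold MF Fg
    rw [← Finset.sum_sub_distrib]
    exact Finset.sum_congr rfl fun t _ => by ring
  rw [e, ← mon_ms0]
  refine Finset.sum_eq_single (ms0 τ) ?_ (fun h => absurd (mem_univ _) h)
  intro t _ ht
  rw [h t ht, sub_self, zero_mul]

theorem cond_card (hd : ∀ i, 1 ≤ d i) (τ : ∀ i, Fin (n i + 1)) (U : Finset (MVar n))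
    (hU : ∀ v ∈ U, v.2 ≠ τ v.1) :
    (U.image (fun v => (ms1 τ v : MIdx n d))).card = U.card ∧
    (ms0 τ : MIdx n d) ∉ U.image (fun v => (ms1 τ v : MIdx n d)) ∧ U.card + 1 ≤ NM n d := by
  have h1 : (U.image (fun v => (ms1 τ v : MIdx n d))).card = U.card := by
    refine Finset.card_image_of_injOn ?_
    intro v hv v' hv' h
    exact ms1_inj hd τ v v' (hU v hv) (hU v' hv') h
  have h2 : (ms0 τ : MIdx n d) ∉ U.image (fun v => (ms1 τ v : MIdx n d)) := by
    intro h
    obtain ⟨v, hv, hvv⟩ := Finset.mem_image.mp h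
    exact ms1_ne_ms0 hd τ v (hU v hv) hvv
  refine ⟨h1, h2, ?_⟩
  rw [← h1, ← Finset.card_insert_of_notMem h2]
  exact Finset.card_le_univ _

end multi

end GenHP
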