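import Mathlib

/-! M-TRI: counting with triangular conditions. -/

namespace GenHP

open Finset

theorem tri_prod_ite {I : Type*} [Fintype I] [DecidableEq I] (K : Finset I) (c : ℕ) :
    ∏ t : I, (if t ∈ K then c else 1) = c ^ K.card := by
  rw [Finset.prod_ite_mem, Finset.univ_inter, Finset.prod_const]

theorem tri_count {I : Type*} [Fintype I] [DecidableEq I] (J : Finset I) (s0 : I) (hs0 : s0 ∉ J)
    (H : ℕ) (S : Finset (I → ℤ)) (hS : ∀ A ∈ S, ∀ t, |A t| ≤ H) (N1 N0 : ℕ)
    (h1 : ∀ a ∈ J, ∀ S' ⊆ S, (∀ A ∈ S', ∀ A' ∈ S', ∀ t, t ∉ J → t ≠ s0 → A t = A' t) →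
      (S'.image fun A => A a).card ≤ N1)
    (h0 : ∀ S' ⊆ S, (∀ A ∈ S', ∀ A' ∈ S', ∀ t, t ≠ s0 → A t = A' t) →
      (S'.image fun A => A s0).card ≤ N0) :
    S.card ≤ (2 * H + 1) ^ (Fintype.card I - J.card - 1) * N1 ^ J.card * N0 := by
  classical
  set K : Finset I := (insert s0 J)ᶜ with hK
  have hKcard : K.card = Fintype.card I - J.card - 1 := by
    rw [hK, Finset.card_compl, Finset.card_insert_of_notMem hs0]
    omega
  have memK : ∀ t, t ∈ K ↔ t ≠ s0 ∧ t ∉ J := by
    intro t
    simp [hK]
  -- fibres over the values off `s0`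
  have step0 : ∀ S' ⊆ S, (∀ A ∈ S', ∀ A' ∈ S', ∀ t, t ≠ s0 → A t = A' t) → S'.card ≤ N0 := by
    intro S' hS' hagree
    rw [← Finset.card_image_of_injOn (f := fun A : I → ℤ => A s0)]
    · exact h0 S' hS' hagree
    · intro A hA A' hA' hAA
      funext t
      by_cases ht : t = s0
      · subst ht; exact hAA
      · exact hagree A hA A' hA' t ht
  -- fibres over the values off `J` and `s0`
  have step1 : ∀ S' ⊆ S, (∀ A ∈ S', ∀ A' ∈ S', ∀ t, t ∉ J → t ≠ s0 → A t = A' t) →
      S'.card ≤ N1 ^ J.card * N0 := by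
    intro S' hS' hagree
    let σ : (I → ℤ) → I → ℤ := fun A => Function.update A s0 0
    have e1 := Finset.card_le_mul_card_image (f := σ) S' N0 (by
      intro r _
      apply step0
      · exact (Finset.filter_subset _ _).trans hS'
      · intro A hA A' hA' t ht
        rw [Finset.mem_filter] at hA hA'
        have := congrFun (hA.2.trans hA'.2.symm) t
        simpa [σ, ht] using this)
    have e2 : (S'.image σ).card ≤ N1 ^ J.card := by
      rcases S'.eq_empty_or_nonempty with rfl | ⟨A0, hA0⟩
      · simp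
      have hsub : S'.image σ ⊆ Fintype.piFinset fun t => if t ∈ J then S'.image (fun A => A t)
          else {σ A0 t} := by
        intro B hB
        rw [Finset.mem_image] at hB
        obtain ⟨A, hA, rfl⟩ := hB
        rw [Fintype.mem_piFinset]
        intro t
        have hts : t ∈ J → t ≠ s0 := fun h h' => hs0 (h' ▸ h)
        split_ifs with ht
        · rw [Finset.mem_image]
          refine ⟨A, hA, ?_⟩
          simp [σ, hts ht]
        · rw [Finset.mem_singleton]
          by_cases hts' : t = s0
          · subst hts'; simp [σ]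
          · simp only [σ, Function.update_of_ne hts']
            exact hagree A hA A0 hA0 t ht hts'
      refine (Finset.card_le_card hsub).trans ?_
      rw [Fintype.card_piFinset, ← tri_prod_ite J N1]
      refine Finset.prod_le_prod' fun t _ => ?_
      split_ifs with ht
      · exact h1 t ht S' hS' hagree
      · simp
    calc S'.card ≤ N0 * (S'.image σ).card := e1
      _ ≤ N0 * N1 ^ J.card := Nat.mul_le_mul_left _ e2
      _ = N1 ^ J.card * N0 := mul_comm _ _
  let ρ : (I → ℤ) → I → ℤ := fun A t => if t ∈ K then A t else 0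
  have e1 := Finset.card_le_mul_card_image (f := ρ) S (N1 ^ J.card * N0) (by
    intro r _
    apply step1
    · exact Finset.filter_subset _ _
    · intro A hA A' hA' t ht ht'
      rw [Finset.mem_filter] at hA hA'
      have := congrFun (hA.2.trans hA'.2.symm) t
      have htK : t ∈ K := (memK t).mpr ⟨ht', ht⟩
      simpa [ρ, htK] using this)
  have e2 : (S.image ρ).card ≤ (2 * H + 1) ^ K.card := by
    have hsub : S.image ρ ⊆ Fintype.piFinset fun t => if t ∈ K then Icc (-(H : ℤ)) H else {0} := by
      intro B hB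
      rw [Finset.mem_image] at hB
      obtain ⟨A, hA, rfl⟩ := hB
      rw [Fintype.mem_piFinset]
      intro t
      by_cases ht : t ∈ K
      · simp only [ρ, ht, if_true, Finset.mem_Icc]
        exact abs_le.mp (hS A hA t)
      · simp [ρ, ht]
    refine (Finset.card_le_card hsub).trans ?_
    rw [Fintype.card_piFinset, ← tri_prod_ite K (2 * H + 1)]
    refine Finset.prod_le_prod' fun t _ => ?_
    split_ifs with ht
    · rw [Int.card_Icc]
      omega
    · simp
  calc S.card ≤ (N1 ^ J.card * N0) * (S.image ρ).card := e1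
    _ ≤ (N1 ^ J.card * N0) * (2 * H + 1) ^ K.card := Nat.mul_le_mul_left _ e2
    _ = (2 * H + 1) ^ (Fintype.card I - J.card - 1) * N1 ^ J.card * N0 := by
        rw [hKcard]; ring

end GenHP
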