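import Pool.Agent.Lib.MP_e426f4_ag.M.Alg
import Pool.Agent.Lib.MP_e426f4_ag.M.Spec
import Pool.Agent.Lib.MP_e426f4_ag.M.Tri

/-! GCHP, module M-CP: forms with prescribed divisibility conditions at a point are few. -/

namespace GenHP

open Finset Filter Topology

/-- integers of `[-H, H]` in one residue class -/
private theorem cp_card (H m : ℕ) (hm : 0 < m) (T : Finset ℤ) (hT : ∀ a ∈ T, |a| ≤ H)
    (hT2 : ∀ a ∈ T, ∀ b ∈ T, (m : ℤ) ∣ a - b) : T.card ≤ (2 * H + 1) / m + 1 := by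
  have hm' : (0 : ℤ) < m := by exact_mod_cast hm
  have h1 : T.card ≤ (Finset.range ((2 * H + 1) / m + 1)).card := by
    refine Finset.card_le_card_of_injOn (fun a => ((a + H) / m).toNat) ?_ ?_
    · intro a ha
      have h2 := abs_le.mp (hT a ha)
      simp only [Finset.coe_range, Set.mem_Iio]
      have h3 : (0 : ℤ) ≤ (a + H) / m := Int.ediv_nonneg (by linarith [h2.1]) hm'.le
      have h4 : (a + H) / m ≤ (2 * H + 1 : ℤ) / m := Int.ediv_le_ediv hm' (by linarith [h2.2])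
      have h5 : ((2 * H + 1 : ℤ)) / m = (((2 * H + 1) / m : ℕ) : ℤ) := by push_cast; rfl
      rw [h5] at h4
      omega
    · intro a ha b hb hab
      have h2 := abs_le.mp (hT a ha)
      have h3 := abs_le.mp (hT b hb)
      have h4 : (0 : ℤ) ≤ (a + H) / m := Int.ediv_nonneg (by linarith [h2.1]) hm'.le
      have h5 : (0 : ℤ) ≤ (b + H) / m := Int.ediv_nonneg (by linarith [h3.1]) hm'.le
      have h6 : (a + H) / m = (b + H) / m := by
        have h7 : ((a + H) / m).toNat = ((b + H) / m).toNat := hab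
        omega
      have h8 : (a + H) % m = (b + H) % m :=
        Int.emod_eq_emod_iff_emod_sub_eq_zero.mpr (Int.emod_eq_zero_of_dvd (by
          have := hT2 a ha b hb
          convert this using 1
          ring))
      have h9 : a + H = b + H := by
        rw [← Int.mul_ediv_add_emod (a + H) m, ← Int.mul_ediv_add_emod (b + H) m, h6, h8]
      linarith
  rwa [Finset.card_range] at h1

section multi
variable {ι : Type} [Fintype ι] [DecidableEq ι] {n d : ι → ℕ}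

private theorem cp_prime_prod {p : ℤ} (hp : Prime p) {κ : Type*} (s : Finset κ) (f : κ → ℤ) (e : κ → ℕ)
    (hf : ∀ i ∈ s, ¬ p ∣ f i) : ¬ p ∣ ∏ i ∈ s, f i ^ e i := by
  rw [Prime.dvd_finsetProd_iff hp]
  rintro ⟨i, hi, h⟩
  exact hf i hi (hp.dvd_of_dvd_pow h)

/-- the number of forms with given conditions at a point -/
private theorem cp_count (hd : ∀ i, 1 ≤ d i) (p : ℕ) (hp : p.Prime) (k H : ℕ)
    (τ : ∀ i, Fin (n i + 1)) (z : MVar n → ℤ) (hz : ∀ i, ¬ (p : ℤ) ∣ z ⟨i, τ i⟩)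
    (U : Finset (MVar n)) (hU : ∀ v ∈ U, v.2 ≠ τ v.1) :
    Set.ncard {A : MIdx n d → ℤ | A ∈ MBox n d H ∧ (p : ℤ) ^ (2 * k) ∣ MF A z ∧
        ∀ v ∈ U, (p : ℤ) ^ k ∣ MD A z v} ≤
      (2 * H + 1) ^ (NM n d - U.card - 1) * ((2 * H + 1) / p ^ k + 1) ^ U.card *
        ((2 * H + 1) / p ^ (2 * k) + 1) ∧ U.card + 1 ≤ NM n d := by
  classical
  have hpp : Prime (p : ℤ) := Nat.prime_iff_prime_int.mp hp
  set S : Finset (MIdx n d → ℤ) := (MBox n d H).filter fun A =>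
    (p : ℤ) ^ (2 * k) ∣ MF A z ∧ ∀ v ∈ U, (p : ℤ) ^ k ∣ MD A z v with hS
  have hSmem : ∀ A, A ∈ S ↔ A ∈ MBox n d H ∧ (p : ℤ) ^ (2 * k) ∣ MF A z ∧
      ∀ v ∈ U, (p : ℤ) ^ k ∣ MD A z v := fun A => by rw [hS, Finset.mem_filter]
  have h1 : {A : MIdx n d → ℤ | A ∈ MBox n d H ∧ (p : ℤ) ^ (2 * k) ∣ MF A z ∧
        ∀ v ∈ U, (p : ℤ) ^ k ∣ MD A z v} = (S : Set (MIdx n d → ℤ)) := by
    ext A
    rw [Finset.mem_coe, hSmem]
    rfl
  rw [h1, Set.ncard_coe_finset]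
  set J : Finset (MIdx n d) := U.image (ms1 τ) with hJ
  have hJcard : J.card = U.card := by
    rw [hJ]
    refine Finset.card_image_of_injOn fun v hv v' hv' h => ?_
    exact ms1_inj hd τ v v' (hU v hv) (hU v' hv') h
  have hs0 : (ms0 τ : MIdx n d) ∉ J := by
    rw [hJ, Finset.mem_image]
    rintro ⟨v, hv, h⟩
    exact ms1_ne_ms0 hd τ v (hU v hv) h
  constructor
  · have h2 := tri_count J (ms0 τ) hs0 H S (fun A hA => (mem_MBox.mp ((hSmem A).mp hA).1))
      ((2 * H + 1) / p ^ k + 1) ((2 * H + 1) / p ^ (2 * k) + 1) ?_ ?_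
    · rw [hJcard] at h2
      exact h2
    · intro a ha S' hS' hfib
      rw [hJ, Finset.mem_image] at ha
      obtain ⟨v, hv, rfl⟩ := ha
      refine cp_card H (p ^ k) (pow_pos hp.pos k) _ ?_ ?_
      · intro a ha
        obtain ⟨A, hA, rfl⟩ := Finset.mem_image.mp ha
        exact mem_MBox.mp ((hSmem A).mp (hS' hA)).1 _
      · intro a ha b hb
        obtain ⟨A, hA, rfl⟩ := Finset.mem_image.mp ha
        obtain ⟨A', hA', rfl⟩ := Finset.mem_image.mp hb
        have h3 : (p : ℤ) ^ k ∣ MD A z v - MD A' z v :=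
          dvd_sub (((hSmem A).mp (hS' hA)).2.2 v hv) (((hSmem A').mp (hS' hA')).2.2 v hv)
        have h4 : MD A z v - MD A' z v = (A (ms1 τ v) - A' (ms1 τ v)) *
            (z ⟨v.1, τ v.1⟩ ^ (d v.1 - 1) * ∏ i ∈ univ.erase v.1, z ⟨i, τ i⟩ ^ d i) := by
          unfold MD Dg
          simp only [← Finset.sum_sub_distrib, ← sub_mul]
          rw [Finset.sum_eq_single (ms1 τ v)]
          · rw [dmon_ms1 hd τ z v (hU v hv)]
          · intro t _ ht
            by_cases h5 : t = ms0 τ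
            · rw [h5, dmon_ms0 τ z v (hU v hv), mul_zero]
            · by_cases h6 : t ∈ J
              · obtain ⟨v', hv', rfl⟩ := Finset.mem_image.mp h6
                have h7 : v ≠ v' := fun h => ht (by rw [h])
                rw [dmon_ms1_of_ne τ z v v' (hU v hv) (hU v' hv') h7, mul_zero]
              · rw [hfib A hA A' hA' t h6 h5, sub_self, zero_mul]
          · intro h5; exact absurd (Finset.mem_univ _) h5
        rw [h4] at h3
        have h5 : ¬ (p : ℤ) ∣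
            (z ⟨v.1, τ v.1⟩ ^ (d v.1 - 1) * ∏ i ∈ univ.erase v.1, z ⟨i, τ i⟩ ^ d i) := by
          intro h6
          rcases hpp.dvd_or_dvd h6 with h7 | h7
          · exact hz v.1 (hpp.dvd_of_dvd_pow h7)
          · exact cp_prime_prod hpp _ (fun i => z ⟨i, τ i⟩) d (fun i _ => hz i) h7
        have h6 : IsCoprime ((p : ℤ) ^ k)
            (z ⟨v.1, τ v.1⟩ ^ (d v.1 - 1) * ∏ i ∈ univ.erase v.1, z ⟨i, τ i⟩ ^ d i) :=
          IsCoprime.pow_left (hpp.coprime_iff_not_dvd.mpr h5)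
        have h7 := h6.dvd_of_dvd_mul_right h3
        exact_mod_cast h7
    · intro S' hS' hfib
      refine cp_card H (p ^ (2 * k)) (pow_pos hp.pos _) _ ?_ ?_
      · intro a ha
        obtain ⟨A, hA, rfl⟩ := Finset.mem_image.mp ha
        exact mem_MBox.mp ((hSmem A).mp (hS' hA)).1 _
      · intro a ha b hb
        obtain ⟨A, hA, rfl⟩ := Finset.mem_image.mp ha
        obtain ⟨A', hA', rfl⟩ := Finset.mem_image.mp hb
        have h3 : (p : ℤ) ^ (2 * k) ∣ MF A z - MF A' z :=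
          dvd_sub (((hSmem A).mp (hS' hA)).2.1) (((hSmem A').mp (hS' hA')).2.1)
        have h4 : MF A z - MF A' z = (A (ms0 τ) - A' (ms0 τ)) * ∏ i, z ⟨i, τ i⟩ ^ d i := by
          unfold MF Fg
          simp only [← Finset.sum_sub_distrib, ← sub_mul]
          rw [Finset.sum_eq_single (ms0 τ)]
          · rw [mon_ms0]
          · intro t _ ht
            rw [hfib A hA A' hA' t ht, sub_self, zero_mul]
          · intro h5; exact absurd (Finset.mem_univ _) h5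
        rw [h4] at h3
        have h5 : ¬ (p : ℤ) ∣ ∏ i, z ⟨i, τ i⟩ ^ d i :=
          cp_prime_prod hpp _ (fun i => z ⟨i, τ i⟩) d (fun i _ => hz i)
        have h6 : IsCoprime ((p : ℤ) ^ (2 * k)) (∏ i, z ⟨i, τ i⟩ ^ d i) :=
          IsCoprime.pow_left (hpp.coprime_iff_not_dvd.mpr h5)
        have h7 := h6.dvd_of_dvd_mul_right h3
        exact_mod_cast h7
  · have h2 : (insert (ms0 τ : MIdx n d) J).card ≤ Fintype.card (MIdx n d) :=
      Finset.card_le_univ _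
    rw [Finset.card_insert_of_notMem hs0, hJcard] at h2
    exact h2

theorem cond_p (hd : ∀ i, 1 ≤ d i) (p : ℕ) (hp : p.Prime) (k : ℕ) :
    ∀ᶠ H : ℕ in atTop, ∀ (τ : ∀ i, Fin (n i + 1)) (z : MVar n → ℤ),
      (∀ i, ¬ (p : ℤ) ∣ z ⟨i, τ i⟩) → ∀ U : Finset (MVar n), (∀ v ∈ U, v.2 ≠ τ v.1) →
      (Set.ncard {A : MIdx n d → ℤ | A ∈ MBox n d H ∧ (p : ℤ) ^ (2 * k) ∣ MF A z ∧
        ∀ v ∈ U, (p : ℤ) ^ k ∣ MD A z v} : ℝ) ≤
        2 * (2 * H + 1) ^ NM n d / (p : ℝ) ^ (k * (U.card + 2)) := by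
  have hpR : (1 : ℝ) ≤ p := by exact_mod_cast hp.pos
  have hp0 : (0 : ℝ) < p := by linarith
  set K : ℕ := Fintype.card (MVar n) + 1 with hK
  -- the factor of loss tends to one
  have hlim : Tendsto (fun H : ℕ => (1 + (p : ℝ) ^ (2 * k) / (2 * H + 1)) ^ K) atTop
      (𝓝 ((1 + 0) ^ K)) := by
    refine Tendsto.pow (Tendsto.const_add _ ?_) K
    refine Tendsto.div_atTop tendsto_const_nhds ?_
    refine tendsto_atTop_add_const_right _ _ (Tendsto.const_mul_atTop (by norm_num) ?_)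
    exact tendsto_natCast_atTop_atTop
  have hev : ∀ᶠ H : ℕ in atTop, (1 + (p : ℝ) ^ (2 * k) / (2 * H + 1)) ^ K ≤ 2 := by
    refine (hlim.eventually (gt_mem_nhds (by norm_num : (1 + (0 : ℝ)) ^ K < 2))).mono ?_
    intro H hH
    exact hH.le
  filter_upwards [hev] with H hH τ z hz U hU
  obtain ⟨h1, h2⟩ := cp_count hd p hp k H τ z hz U hU
  have hH0 : (0 : ℝ) < 2 * H + 1 := by positivity
  set q : ℝ := (p : ℝ) ^ k with hq
  have hq1 : 1 ≤ q := one_le_pow₀ hpR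
  have hq0 : 0 < q := by linarith
  have hq2 : (p : ℝ) ^ (2 * k) = q ^ 2 := by rw [hq, ← pow_mul, mul_comm k 2]
  have hUK : U.card + 1 ≤ K := by
    have := Finset.card_le_univ U
    omega
  set E : ℝ := 1 + q ^ 2 / (2 * H + 1) with hE
  have hE1 : 1 ≤ E := by
    rw [hE]
    have : 0 ≤ q ^ 2 / (2 * H + 1) := by positivity
    linarith
  have hN1 : (((2 * H + 1) / p ^ k + 1 : ℕ) : ℝ) ≤ (2 * H + 1) / q * E := by
    have h3 : (((2 * H + 1) / p ^ k : ℕ) : ℝ) ≤ ((2 * H + 1 : ℕ) : ℝ) / ((p ^ k : ℕ) : ℝ) :=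
      Nat.cast_div_le
    push_cast at h3 ⊢
    have h4 : (2 * (H : ℝ) + 1) / q * E = (2 * H + 1) / q + q := by
      rw [hE]
      field_simp
    rw [h4, hq]
    rw [hq] at hq1
    linarith
  have hN0 : (((2 * H + 1) / p ^ (2 * k) + 1 : ℕ) : ℝ) ≤ (2 * H + 1) / q ^ 2 * E := by
    have h3 : (((2 * H + 1) / p ^ (2 * k) : ℕ) : ℝ) ≤
        ((2 * H + 1 : ℕ) : ℝ) / ((p ^ (2 * k) : ℕ) : ℝ) := Nat.cast_div_le
    push_cast at h3 ⊢
    have h4 : (2 * (H : ℝ) + 1) / q ^ 2 * E = (2 * H + 1) / q ^ 2 + 1 := by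
      rw [hE]
      field_simp
    rw [h4, ← hq2]
    linarith
  have h3 : (Set.ncard {A : MIdx n d → ℤ | A ∈ MBox n d H ∧ (p : ℤ) ^ (2 * k) ∣ MF A z ∧
        ∀ v ∈ U, (p : ℤ) ^ k ∣ MD A z v} : ℝ) ≤
      (2 * H + 1) ^ (NM n d - U.card - 1) * (((2 * H + 1) / p ^ k + 1 : ℕ) : ℝ) ^ U.card *
        (((2 * H + 1) / p ^ (2 * k) + 1 : ℕ) : ℝ) := by
    exact_mod_cast h1
  refine h3.trans ?_
  have h4 : (2 * (H : ℝ) + 1) ^ (NM n d - U.card - 1) *
        (((2 * H + 1) / p ^ k + 1 : ℕ) : ℝ) ^ U.card *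
        (((2 * H + 1) / p ^ (2 * k) + 1 : ℕ) : ℝ) ≤
      (2 * (H : ℝ) + 1) ^ (NM n d - U.card - 1) * ((2 * H + 1) / q * E) ^ U.card *
        ((2 * H + 1) / q ^ 2 * E) := by
    gcongr
  refine h4.trans ?_
  have h5 : (2 * (H : ℝ) + 1) ^ (NM n d - U.card - 1) * ((2 * H + 1) / q * E) ^ U.card *
        ((2 * H + 1) / q ^ 2 * E) =
      (2 * H + 1) ^ NM n d / q ^ (U.card + 2) * E ^ (U.card + 1) := by
    have h6 : (2 * (H : ℝ) + 1) ^ NM n d =
        (2 * (H : ℝ) + 1) ^ (NM n d - U.card - 1) * (2 * H + 1) ^ U.card * (2 * H + 1) := by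
      rw [mul_assoc, ← pow_succ, ← pow_add]
      congr 1
      omega
    rw [h6, mul_pow, div_pow, pow_succ E, pow_add q]
    field_simp
  rw [h5]
  have h7 : E ^ (U.card + 1) ≤ 2 := by
    refine (pow_le_pow_right₀ hE1 hUK).trans ?_
    rw [hE, ← hq2]
    exact hH
  have h8 : (p : ℝ) ^ (k * (U.card + 2)) = q ^ (U.card + 2) := by rw [hq, ← pow_mul]
  rw [h8]
  calc (2 * (H : ℝ) + 1) ^ NM n d / q ^ (U.card + 2) * E ^ (U.card + 1) ≤
      (2 * (H : ℝ) + 1) ^ NM n d / q ^ (U.card + 2) * 2 := by gcongr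
    _ = 2 * (2 * H + 1) ^ NM n d / q ^ (U.card + 2) := by ring

end multi

end GenHP
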