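import Pool.Agent.Lib.MP_e426f4_ag.M.CondAux
import Pool.Agent.Lib.MP_e426f4_ag.M.Tri

/-! M-CR: real conditions at a point. -/

namespace GenHP

open Finset Filter Topology

section multi
variable {ι : Type} [Fintype ι] [DecidableEq ι] {n d : ι → ℕ}

theorem cr_card_int (Z : Finset ℤ) (L : ℝ) (h : ∀ x ∈ Z, ∀ y ∈ Z, |(x : ℝ) - y| ≤ L) :
    Z.card ≤ ⌊L⌋₊ + 1 := by
  rcases Z.eq_empty_or_nonempty with rfl | hne
  · simp
  obtain ⟨m, hm, hmin⟩ := Z.exists_min_image id hne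
  have hL : 0 ≤ L := (abs_nonneg _).trans (h m hm m hm)
  have hsub : Z ⊆ Icc m (m + ⌊L⌋₊) := by
    intro x hx
    rw [Finset.mem_Icc]
    have h1 : m ≤ x := hmin x hx
    refine ⟨h1, ?_⟩
    have h2 := (abs_le.mp (h x hx m hm)).2
    obtain ⟨k, hk⟩ : ∃ k : ℕ, x = m + k := ⟨(x - m).toNat, by omega⟩
    have h3 : (k : ℝ) ≤ L := by
      have : (x : ℝ) = m + k := by exact_mod_cast hk
      linarith
    have h4 : k ≤ ⌊L⌋₊ := Nat.le_floor h3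
    omega
  refine (Finset.card_le_card hsub).trans ?_
  rw [Int.card_Icc]
  omega

theorem cr_prod_ge (s : Finset ι) (e : ι → ℕ) (x : ι → ℝ) (hx : ∀ i, 1 / 2 ≤ |x i|) :
    (1 / 2 : ℝ) ^ (∑ i ∈ s, e i) ≤ |∏ i ∈ s, x i ^ e i| := by
  rw [Finset.abs_prod, ← Finset.prod_pow_eq_pow_sum]
  refine Finset.prod_le_prod (fun i _ => by positivity) fun i _ => ?_
  rw [abs_pow]
  exact pow_le_pow_left₀ (by norm_num) (hx i) _

theorem cr_dmon_ge (hd : ∀ i, 1 ≤ d i) (τ : ∀ i, Fin (n i + 1)) (z : MVar n → ℝ)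
    (hz : ∀ i, 1 / 2 ≤ |z ⟨i, τ i⟩|) (v : MVar n) (hv : v.2 ≠ τ v.1) :
    (1 / 2 : ℝ) ^ (∑ i, d i) ≤ |dmon z v (mex (ms1 τ v : MIdx n d))| := by
  rw [dmon_ms1 hd τ z v hv, abs_mul]
  have h1 := cr_prod_ge (univ.erase v.1) d (fun i => z ⟨i, τ i⟩) hz
  have h2 : (1 / 2 : ℝ) ^ (d v.1 - 1) ≤ |z ⟨v.1, τ v.1⟩ ^ (d v.1 - 1)| := by
    rw [abs_pow]
    exact pow_le_pow_left₀ (by norm_num) (hz v.1) _
  have h3 : (1 / 2 : ℝ) ^ (∑ i, d i) ≤ (1 / 2) ^ (d v.1 - 1) *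
      (1 / 2) ^ (∑ i ∈ univ.erase v.1, d i) := by
    rw [← pow_add]
    apply pow_le_pow_of_le_one (by norm_num) (by norm_num)
    rw [← Finset.add_sum_erase univ d (mem_univ v.1)]
    omega
  refine h3.trans (mul_le_mul h2 h1 (by positivity) (abs_nonneg _))

theorem cr_prod_ge' (τ : ∀ i, Fin (n i + 1)) (z : MVar n → ℝ)
    (hz : ∀ i, 1 / 2 ≤ |z ⟨i, τ i⟩|) : (1 / 2 : ℝ) ^ (∑ i, d i) ≤ |∏ i, z ⟨i, τ i⟩ ^ d i| :=
  cr_prod_ge univ d (fun i => z ⟨i, τ i⟩) hz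

/-- a difference bound from a lower bound of the cofactor -/
theorem cr_diff_le (a m L : ℝ) (k : ℕ) (hm : (1 / 2 : ℝ) ^ k ≤ |m|) (h : |a * m| ≤ L) :
    |a| ≤ 2 ^ k * L := by
  rw [abs_mul] at h
  have h1 : |a| * (1 / 2) ^ k ≤ L := (mul_le_mul_of_nonneg_left hm (abs_nonneg _)).trans h
  have h2 : (2 : ℝ) ^ k * (1 / 2) ^ k = 1 := by rw [← mul_pow]; norm_num
  calc |a| = 2 ^ k * (|a| * (1 / 2) ^ k) := by
        rw [← mul_assoc, mul_comm (2 ^ k) |a|, mul_assoc, h2, mul_one]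
    _ ≤ 2 ^ k * L := mul_le_mul_of_nonneg_left h1 (by positivity)

theorem cond_r (hd : ∀ i, 1 ≤ d i) : ∃ C : ℝ, 0 < C ∧ ∀ g f : ℝ, 0 < g → 0 < f →
    ∀ᶠ H : ℕ in atTop, ∀ (τ : ∀ i, Fin (n i + 1)) (z : MVar n → ℝ),
      (∀ i, 1 / 2 ≤ |z ⟨i, τ i⟩|) → ∀ U : Finset (MVar n), (∀ v ∈ U, v.2 ≠ τ v.1) →
      (Set.ncard {A : MIdx n d → ℤ | A ∈ MBox n d H ∧ |MF (fun t => (A t : ℝ)) z| ≤ f * H ∧
        ∀ v ∈ U, |MD (fun t => (A t : ℝ)) z v| ≤ g * H} : ℝ) ≤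
        C * g ^ U.card * f * (2 * H + 1) ^ NM n d := by
  classical
  set dd := ∑ i, d i with hdd
  refine ⟨(2 ^ (dd + 1)) ^ (Fintype.card (MVar n) + 1), by positivity, ?_⟩
  intro g f hg hf
  filter_upwards [eventually_ge_atTop ⌈1 / g⌉₊, eventually_ge_atTop ⌈1 / f⌉₊] with H hHg hHf
  intro τ z hz U hU
  have hHg' : 1 / g ≤ (H : ℝ) := (Nat.le_ceil _).trans (by exact_mod_cast hHg)
  have hHf' : 1 / f ≤ (H : ℝ) := (Nat.le_ceil _).trans (by exact_mod_cast hHf)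
  have hH0 : (0 : ℝ) ≤ H := Nat.cast_nonneg H
  obtain ⟨hJ, hs0, hUN⟩ := cond_card (d := d) hd τ U hU
  set J := U.image (fun v => (ms1 τ v : MIdx n d)) with hJdef
  have hfin := MBox_finite (n := n) (d := d) H (fun A => |MF (fun t => (A t : ℝ)) z| ≤ f * H ∧
        ∀ v ∈ U, |MD (fun t => (A t : ℝ)) z v| ≤ g * H)
  set S := hfin.toFinset with hS
  have memS : ∀ A, A ∈ S ↔ A ∈ MBox n d H ∧ |MF (fun t => (A t : ℝ)) z| ≤ f * H ∧
        ∀ v ∈ U, |MD (fun t => (A t : ℝ)) z v| ≤ g * H := by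
    intro A; rw [hS, Set.Finite.mem_toFinset]; rfl
  have hmain := tri_count J (ms0 τ) hs0 H S (fun A hA => mem_MBox.mp ((memS A).mp hA).1)
    (⌊2 ^ dd * (2 * (g * H))⌋₊ + 1) (⌊2 ^ dd * (2 * (f * H))⌋₊ + 1) (by
      intro a ha S' hS' hagree
      obtain ⟨v, hv, rfl⟩ := Finset.mem_image.mp ha
      apply cr_card_int
      intro x hx y hy
      obtain ⟨A, hA, rfl⟩ := Finset.mem_image.mp hx
      obtain ⟨A', hA', rfl⟩ := Finset.mem_image.mp hy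
      have e1 := cond_MD_diff τ z U hU v hv (fun t => (A t : ℝ)) (fun t => (A' t : ℝ))
        (fun t ht ht' => by rw [hagree A hA A' hA' t ht ht'])
      refine cr_diff_le _ _ _ dd (cr_dmon_ge hd τ z hz v (hU v hv)) ?_
      rw [← e1]
      have h1 := ((memS A).mp (hS' hA)).2.2 v hv
      have h2 := ((memS A').mp (hS' hA')).2.2 v hv
      calc |MD (fun t => (A t : ℝ)) z v - MD (fun t => (A' t : ℝ)) z v|
          ≤ |MD (fun t => (A t : ℝ)) z v| + |MD (fun t => (A' t : ℝ)) z v| := abs_sub _ _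
        _ ≤ 2 * (g * H) := by linarith) (by
      intro S' hS' hagree
      apply cr_card_int
      intro x hx y hy
      obtain ⟨A, hA, rfl⟩ := Finset.mem_image.mp hx
      obtain ⟨A', hA', rfl⟩ := Finset.mem_image.mp hy
      have e1 := cond_MF_diff τ z (fun t => (A t : ℝ)) (fun t => (A' t : ℝ))
        (fun t ht => by rw [hagree A hA A' hA' t ht])
      refine cr_diff_le _ _ _ dd (cr_prod_ge' τ z hz) ?_
      rw [← e1]
      have h1 := ((memS A).mp (hS' hA)).2.1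
      have h2 := ((memS A').mp (hS' hA')).2.1
      calc |MF (fun t => (A t : ℝ)) z - MF (fun t => (A' t : ℝ)) z|
          ≤ |MF (fun t => (A t : ℝ)) z| + |MF (fun t => (A' t : ℝ)) z| := abs_sub _ _
        _ ≤ 2 * (f * H) := by linarith)
  have hcard : Set.ncard {A : MIdx n d → ℤ | A ∈ MBox n d H ∧
      |MF (fun t => (A t : ℝ)) z| ≤ f * H ∧
      ∀ v ∈ U, |MD (fun t => (A t : ℝ)) z v| ≤ g * H} = S.card := by
    rw [hS, Set.ncard_eq_toFinset_card _ hfin]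
  rw [hcard]
  have hbd : ∀ q : ℝ, 0 < q → 1 / q ≤ (H : ℝ) →
      ((⌊2 ^ dd * (2 * (q * H))⌋₊ + 1 : ℕ) : ℝ) ≤ 2 ^ (dd + 1) * q * (2 * H + 1) := by
    intro q hq hqH
    have h1 : (⌊2 ^ dd * (2 * (q * H))⌋₊ : ℝ) ≤ 2 ^ dd * (2 * (q * H)) :=
      Nat.floor_le (by positivity)
    have h2 : 1 ≤ q * H := by
      rw [div_le_iff₀ hq] at hqH
      linarith
    have h3 : (1 : ℝ) ≤ 2 ^ dd := one_le_pow₀ (by norm_num)
    push_cast
    have h4 : 2 ^ (dd + 1) * q * (2 * H + 1) = 2 ^ dd * (2 * (q * H)) +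
        2 ^ dd * (2 * (q * H)) + 2 ^ dd * 2 * q := by ring
    rw [h4]
    have h5 : 1 ≤ 2 ^ dd * (2 * (q * (H : ℝ))) := by nlinarith
    have h6 : 0 ≤ 2 ^ dd * 2 * q := by positivity
    linarith
  have hS' : (S.card : ℝ) ≤ (2 * H + 1) ^ (Fintype.card (MIdx n d) - J.card - 1) *
      ((⌊2 ^ dd * (2 * (g * H))⌋₊ + 1 : ℕ) : ℝ) ^ J.card *
      ((⌊2 ^ dd * (2 * (f * H))⌋₊ + 1 : ℕ) : ℝ) := by
    exact_mod_cast hmain
  refine hS'.trans ?_
  rw [hJ]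
  have hNM : Fintype.card (MIdx n d) = NM n d := rfl
  rw [hNM]
  have hX : (0 : ℝ) < 2 * H + 1 := by positivity
  calc (2 * (H : ℝ) + 1) ^ (NM n d - U.card - 1) *
      ((⌊2 ^ dd * (2 * (g * H))⌋₊ + 1 : ℕ) : ℝ) ^ U.card *
      ((⌊2 ^ dd * (2 * (f * H))⌋₊ + 1 : ℕ) : ℝ)
      ≤ (2 * (H : ℝ) + 1) ^ (NM n d - U.card - 1) *
        (2 ^ (dd + 1) * g * (2 * H + 1)) ^ U.card * (2 ^ (dd + 1) * f * (2 * H + 1)) := by
        refine mul_le_mul (mul_le_mul_of_nonneg_left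
          (pow_le_pow_left₀ (by positivity) (hbd g hg hHg') _) (by positivity))
          (hbd f hf hHf') (by positivity) (by positivity)
    _ = (2 ^ (dd + 1)) ^ (U.card + 1) * (g ^ U.card * f *
        ((2 * (H : ℝ) + 1) ^ (NM n d - U.card - 1) * (2 * H + 1) ^ U.card * (2 * H + 1))) := by
        rw [mul_pow, mul_pow]; ring
    _ = (2 ^ (dd + 1)) ^ (U.card + 1) * (g ^ U.card * f * (2 * (H : ℝ) + 1) ^ NM n d) := by
        congr 2
        rw [← pow_add, ← pow_succ]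
        congr 1
        omega
    _ ≤ (2 ^ (dd + 1)) ^ (Fintype.card (MVar n) + 1) *
        (g ^ U.card * f * (2 * (H : ℝ) + 1) ^ NM n d) := by
        apply mul_le_mul_of_nonneg_right _ (by positivity)
        apply pow_le_pow_right₀ (one_le_pow₀ (by norm_num))
        have := Finset.card_le_univ U
        omega
    _ = (2 ^ (dd + 1)) ^ (Fintype.card (MVar n) + 1) * g ^ U.card * f *
        (2 * (H : ℝ) + 1) ^ NM n d := by ring

end multi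

end GenHP
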