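import Pool.Agent.Lib.MP_e426f4_ag.G.Defs

/-!
# Multihomogeneous forms: definitions

Blocks are indexed by a finite type `ι`; block `i` has the `n i + 1` variables `z ⟨i, a⟩`.  A form of
multidegree `(d i)` has one coefficient `A t` for each multi-exponent `t : ∀ i, Idx (n i) (d i)`.
-/

namespace GenHP

open Finset Filter Topology

section multi
variable {ι : Type} [Fintype ι] [DecidableEq ι]

/-- Multi-exponents: one exponent vector of degree `d i` in `n i + 1` variables for each block. -/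
abbrev MIdx (n d : ι → ℕ) : Type := ∀ i, Idx (n i) (d i)

/-- The variables: `n i + 1` variables in block `i`. -/
abbrev MVar (n : ι → ℕ) : Type := Σ i, Fin (n i + 1)

/-- Number of multi-exponents. -/
def NM (n d : ι → ℕ) : ℕ := Fintype.card (MIdx n d)

variable {n d : ι → ℕ}

/-- The exponent of the variable `v` in the multi-exponent `t`. -/
def mex (t : MIdx n d) (v : MVar n) : ℕ := (t v.1).1 v.2

section ring
variable {R : Type*} [CommRing R]

/-- The multihomogeneous form with coefficient vector `A`. -/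
def MF (A : MIdx n d → R) (z : MVar n → R) : R := Fg mex A z

/-- Its partial derivative with respect to the variable `v`. -/
def MD (A : MIdx n d → R) (z : MVar n → R) (v : MVar n) : R := Dg mex A z v

/-- Every block of `z` is nonzero. -/
def BNZ (z : MVar n → R) : Prop := ∀ i, ∃ a, z ⟨i, a⟩ ≠ 0

end ring

/-- Every block of `z` is nonzero modulo `p`. -/
def BUnit (p : ℕ) (z : MVar n → ℤ) : Prop := ∀ i, ∃ a, ¬ (p : ℤ) ∣ z ⟨i, a⟩

/-- Every block of `z` has sup norm `1`. -/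
def BNorm (z : MVar n → ℝ) : Prop := (∀ v, |z v| ≤ 1) ∧ ∀ i, ∃ a, |z ⟨i, a⟩| = 1

/-- The box `[-H, H]^NM` of coefficient vectors. -/
noncomputable def MBox (n d : ι → ℕ) (H : ℕ) : Finset (MIdx n d → ℤ) :=
  Fintype.piFinset fun _ => Icc (-(H : ℤ)) H

/-- The hypersurface has a rational point. -/
def MSoluble (A : MIdx n d → ℤ) : Prop :=
  ∃ z : MVar n → ℚ, BNZ z ∧ MF (fun t => (A t : ℚ)) z = 0

/-- The hypersurface is everywhere locally soluble. -/
def MELS (A : MIdx n d → ℤ) : Prop :=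
  (∃ z : MVar n → ℝ, BNZ z ∧ MF (fun t => (A t : ℝ)) z = 0) ∧
    ∀ (p : ℕ) [Fact p.Prime], ∃ z : MVar n → ℚ_[p], BNZ z ∧ MF (fun t => (A t : ℚ_[p])) z = 0

/-- The hypersurface with real coefficients is smooth: its partial derivatives have no common
complex zero with nonzero blocks. -/
def RSmooth (A : MIdx n d → ℝ) : Prop :=
  ∀ z : MVar n → ℂ, BNZ z → ∃ v, MD (fun t => ((A t : ℝ) : ℂ)) z v ≠ 0

/-- The hypersurface is smooth. -/
def MSmooth (A : MIdx n d → ℤ) : Prop :=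
  ∀ z : MVar n → ℂ, BNZ z → ∃ v, MD (fun t => (A t : ℂ)) z v ≠ 0

/-- A good `p`-adic point modulo `p ^ (2 k)` with respect to block `i0`. -/
def GoodP (i0 : ι) (p k : ℕ) (A : MIdx n d → ℤ) : Prop :=
  ∃ z : MVar n → ℤ, BUnit p z ∧ (p : ℤ) ^ (2 * k) ∣ MF A z ∧
    ∃ a, ¬ (p : ℤ) ^ k ∣ MD A z ⟨i0, a⟩

/-- A good real point with respect to block `i0`. -/
def GoodR (i0 : ι) (f g : ℝ) (A : MIdx n d → ℝ) : Prop :=
  ∃ z : MVar n → ℝ, BNorm z ∧ |MF A z| ≤ f ∧ ∃ a, g ≤ |MD A z ⟨i0, a⟩|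

/-- The class theorem with respect to block `i0`: in every class of forms with good local points at
the real place and at all primes `≤ w`, all but a proportion `C / w` are soluble. -/
def CLS (n d : ι → ℕ) (i0 : ι) : Prop :=
  ∃ C : ℝ, 0 < C ∧ ∀ w : ℕ, 2 ≤ w → ∀ bet : ℝ, 0 < bet → bet ≤ 1 →
    ∃ rho0 : ℝ, 0 < rho0 ∧ rho0 ≤ 1 ∧ ∀ rho : ℝ, 0 < rho → rho ≤ rho0 → ∀ k : ℕ, 1 ≤ k →
      ∀ A0 : MIdx n d → ℤ, (∀ p : ℕ, p.Prime → p ≤ w → GoodP i0 p k A0) →
      ∀ AC : MIdx n d → ℝ, (∀ t, |AC t| ≤ 1) → GoodR i0 rho0 bet AC →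
      ∀ᶠ H : ℝ in atTop,
        (Set.ncard {A : MIdx n d → ℤ | (∀ t, |(A t : ℝ) - H * AC t| ≤ rho * H) ∧
          (∀ t, ((primorial w : ℤ) ^ (2 * k)) ∣ A t - A0 t) ∧ ¬ MSoluble A} : ℝ) ≤
          C / w * (2 * rho * H / (primorial w : ℝ) ^ (2 * k)) ^ NM n d

/-- The special multi-exponent `∏ z_{i, τ i}^{d i}`. -/
def ms0 (τ : ∀ i, Fin (n i + 1)) : MIdx n d := fun i => mk fun _ => τ i

/-- The special multi-exponent obtained from `ms0 τ` by replacing one factor `z_{i, τ i}` by `z_v`,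
`v = ⟨i, a⟩`. -/
def ms1 (τ : ∀ i, Fin (n i + 1)) (v : MVar n) : MIdx n d :=
  Function.update (ms0 τ) v.1 (mk fun j => if (j : ℕ) = 0 then v.2 else τ v.1)

/-! ### Splitting off one block -/

/-- Multi-exponents of the blocks different from `i0`. -/
abbrev SIdx (n d : ι → ℕ) (i0 : ι) : Type := ∀ j : {j // j ≠ i0}, Idx (n j) (d j)

/-- Splitting a multi-exponent. -/
def spl (n d : ι → ℕ) (i0 : ι) : MIdx n d ≃ Idx (n i0) (d i0) × SIdx n d i0 :=
  Equiv.piSplitAt i0 fun i => Idx (n i) (d i)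

section ring
variable {R : Type*} [CommRing R]

/-- The value of the monomial `s` in the other blocks. -/
def vy (i0 : ι) (z : MVar n → R) (s : SIdx n d i0) : R :=
  ∏ j : {j // j ≠ i0}, mon (fun a => z ⟨j, a⟩) (s j).1

/-- Evaluation of the other blocks: a form of degree `d i0` in the variables of block `i0`. -/
def ev (i0 : ι) (A : MIdx n d → R) (z : MVar n → R) : Idx (n i0) (d i0) → R :=
  fun t => ∑ s : SIdx n d i0, A ((spl n d i0).symm (t, s)) * vy i0 z s

end ring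

end multi

end GenHP
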