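import Pool.Agent.Lib.MP_e426f4_ag.M.Defs
import Pool.Agent.Lib.MP_e426f4_ag.M.Alg

/-! # GCHP, module M-ES: rational points give local points -/

namespace GenHP

open Finset

section multi
variable {ι : Type} [Fintype ι] [DecidableEq ι] {n d : ι → ℕ}

/-- M-ES (M/Els.lean) -/
theorem mels_of_soluble (A : MIdx n d → ℤ) (h : MSoluble A) : MELS A := by
  obtain ⟨z, hz, hF⟩ := h
  refine ⟨⟨fun v => (z v : ℝ), ?_, ?_⟩, ?_⟩
  · intro i
    obtain ⟨a, ha⟩ := hz i
    exact ⟨a, Rat.cast_ne_zero.2 ha⟩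
  · have h1 := MF_map (Rat.castHom ℝ) (fun t => (A t : ℚ)) z
    rw [hF, map_zero] at h1
    simpa using h1
  · intro p _
    refine ⟨fun v => (z v : ℚ_[p]), ?_, ?_⟩
    · intro i
      obtain ⟨a, ha⟩ := hz i
      exact ⟨a, Rat.cast_ne_zero.2 ha⟩
    · have h1 := MF_map (Rat.castHom ℚ_[p]) (fun t => (A t : ℚ)) z
      rw [hF, map_zero] at h1
      simpa using h1

end multi

end GenHP
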