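import Pool.Agent.Lib.MP_e426f4_ag.M.Defs
import Pool.Agent.Lib.MP_e426f4_ag.G.Basic
import Pool.Agent.Lib.MP_e426f4_ag.AP

/-! Module M-YA: number of vectors of a class with given scalar product. -/

namespace GenHP

open Finset Filter Topology

/-- the explicit bound -/
theorem fib_bound {S : Type} [Fintype S] [DecidableEq S] (v : S → ℤ)
    (hv : ∃ c : S → ℤ, ∑ s, c s * v s = 1) (V : ℕ) (hVp : 0 < V) (s0 : S)
    (hs0 : |v s0| = V) (Q : ℕ) (hQ : 1 ≤ Q) (L : ℝ) (hL : 0 ≤ L) (c : S → ℝ) (a0 : S → ℤ) (b : ℤ) :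
    (Set.ncard {a : S → ℤ | (∀ s, |(a s : ℝ) - c s| ≤ L) ∧ (∀ s, (Q : ℤ) ∣ a s - a0 s) ∧
        ∑ s, a s * v s = b} : ℝ) ≤ (2 * L / Q + V) ^ (Fintype.card S - 1) / V := by
  classical
  have hQ0 : (0 : ℤ) < Q := by exact_mod_cast hQ
  have hV0 : (0 : ℤ) < V := by exact_mod_cast hVp
  have hQr : (0 : ℝ) < Q := by exact_mod_cast hQ
  have hVr : (0 : ℝ) < V := by exact_mod_cast hVp
  have hcard : Fintype.card {s : S // s ≠ s0} = Fintype.card S - 1 := by
    rw [Fintype.card_subtype_compl, Fintype.card_subtype_eq]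
  -- splitting sums
  have hsplit : ∀ g : S → ℤ, ∑ s, g s = g s0 + ∑ s : {s : S // s ≠ s0}, g s := by
    intro g
    rw [← Finset.add_sum_erase univ g (Finset.mem_univ s0)]
    congr 1
    refine Finset.sum_bij' (fun s hs => (⟨s, Finset.ne_of_mem_erase hs⟩ : {s : S // s ≠ s0}))
      (fun s _ => (s : S)) ?_ ?_ ?_ ?_ ?_
    · intro s hs; exact Finset.mem_univ _
    · intro s _; exact Finset.mem_erase.2 ⟨s.2, Finset.mem_univ _⟩
    · intro s hs; rfl
    · intro s hs; rfl
    · intro s hs; rfl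
  have hVv : (V : ℤ) ∣ v s0 := by
    rw [← hs0]
    exact (abs_dvd _ _).2 dvd_rfl
  -- residue classes
  set b' : ℤ := (b - ∑ s, a0 s * v s) / Q with hb'
  have hcop : ∃ c' : {s : S // s ≠ s0} → ℤ, IsCoprime (∑ i, c' i * v i) (V : ℤ) := by
    obtain ⟨c', hc'⟩ := hv
    refine ⟨fun s => c' s, ?_⟩
    rw [hsplit] at hc'
    obtain ⟨q, hq⟩ := hVv
    refine ⟨1, c' s0 * q, ?_⟩
    rw [hq] at hc'
    linear_combination hc'
  have hR := CubicHP.card_lin_congr_le V hVp (fun i : {s : S // s ≠ s0} => v i) hcop b'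
  set Rs : Set ({s : S // s ≠ s0} → ℤ) := {A | (∀ i, 0 ≤ A i ∧ A i < V) ∧
    (V : ℤ) ∣ ∑ i, A i * v i - b'} with hRs
  have hRfin : Rs.Finite := by
    refine (Set.Finite.pi' (fun _ : {s : S // s ≠ s0} => Set.finite_Icc (0 : ℤ) V)).subset ?_
    intro A hA i
    exact ⟨(hA.1 i).1, (hA.1 i).2.le⟩
  have hRcard : (hRfin.toFinset.card : ℝ) ≤ (V : ℝ) ^ (Fintype.card S - 1) / V := by
    rw [← Set.ncard_eq_toFinset_card Rs hRfin, le_div_iff₀ hVr, ← hcard]
    exact_mod_cast hR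
  -- the boxes
  have hAP : ∀ (s : {s : S // s ≠ s0}) (r : ℤ),
      {x : ℤ | c s - L ≤ x ∧ (x : ℝ) ≤ c s + L ∧ ((Q * V : ℕ) : ℤ) ∣ x - r}.Finite ∧
      (Set.ncard {x : ℤ | c s - L ≤ x ∧ (x : ℝ) ≤ c s + L ∧ ((Q * V : ℕ) : ℤ) ∣ x - r} : ℝ) ≤
        2 * L / (Q * V) + 1 := by
    intro s r
    obtain ⟨h1, -, h3⟩ := CubicHP.ncard_AP (c s - L) (c s + L) (by linarith) (Q * V)
      (Nat.mul_pos hQ hVp) r
    refine ⟨h1, ?_⟩
    have h4 : (c s + L - (c s - L)) / ((Q * V : ℕ) : ℝ) + 1 = 2 * L / (Q * V) + 1 := by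
      push_cast
      ring
    rw [h4] at h3
    exact h3
  choose hAfin hAcard using hAP
  set Bx : ({s : S // s ≠ s0} → ℤ) → Finset ({s : S // s ≠ s0} → ℤ) := fun r =>
    Fintype.piFinset fun s => (hAfin s (a0 s + Q * r s)).toFinset with hBx
  set Big : Finset ({s : S // s ≠ s0} → ℤ) := hRfin.toFinset.biUnion Bx with hBig
  set W : Set (S → ℤ) := {a : S → ℤ | (∀ s, |(a s : ℝ) - c s| ≤ L) ∧ (∀ s, (Q : ℤ) ∣ a s - a0 s) ∧
        ∑ s, a s * v s = b} with hW
  have hle : W.ncard ≤ Big.card := by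
    rw [← Set.ncard_coe_finset]
    refine Set.ncard_le_ncard_of_injOn (fun a (s : {s : S // s ≠ s0}) => a s) ?_ ?_
      (Finset.finite_toSet _)
    · rintro a ⟨h1, h2, h3⟩
      rw [Finset.mem_coe, hBig, Finset.mem_biUnion]
      choose u hu using h2
      have hsumu : ∑ s, u s * v s = b' := by
        have h4 : b - ∑ s, a0 s * v s = Q * ∑ s, u s * v s := by
          rw [← h3, ← Finset.sum_sub_distrib, Finset.mul_sum]
          refine Finset.sum_congr rfl fun s _ => ?_
          linear_combination (v s) * (hu s)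
        rw [hb', h4, Int.mul_ediv_cancel_left _ hQ0.ne']
      refine ⟨fun s => u s % V, ?_, ?_⟩
      · rw [Set.Finite.mem_toFinset]
        refine ⟨fun i => ⟨Int.emod_nonneg _ hV0.ne', Int.emod_lt_of_pos _ hV0⟩, ?_⟩
        rw [hsplit] at hsumu
        have h5 : ∑ i : {s : S // s ≠ s0}, u i % V * v i - b' =
            -(u s0 * v s0) - V * ∑ i : {s : S // s ≠ s0}, (u i / V) * v i := by
          rw [← hsumu, Finset.mul_sum]
          have h6 : ∑ i : {s : S // s ≠ s0}, u i % V * v i = ∑ i : {s : S // s ≠ s0}, u i * v i -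
              ∑ i : {s : S // s ≠ s0}, (V : ℤ) * (u i / V * v i) := by
            rw [← Finset.sum_sub_distrib]
            refine Finset.sum_congr rfl fun i _ => ?_
            have h7 := Int.emod_add_mul_ediv (u i) V
            linear_combination (v i) * h7
          rw [h6]
          ring
        rw [h5]
        exact dvd_sub ((hVv.mul_left _).neg_right) (dvd_mul_right _ _)
      · rw [hBx, Fintype.mem_piFinset]
        intro s
        rw [Set.Finite.mem_toFinset]
        have h8 := h1 s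
        rw [abs_le] at h8
        refine ⟨by linarith [h8.1], by linarith [h8.2], ?_⟩
        have h9 := Int.emod_add_mul_ediv (u s) V
        refine ⟨u s / V, ?_⟩
        push_cast
        linear_combination (hu s) - (Q : ℤ) * h9
    · rintro a ⟨h1, h2, h3⟩ a' ⟨h1', h2', h3'⟩ haa
      have hoff : ∀ s : {s : S // s ≠ s0}, a s = a' s := fun s => congrFun haa s
      rw [hsplit] at h3 h3'
      have h4 : ∑ s : {s : S // s ≠ s0}, a s * v s = ∑ s : {s : S // s ≠ s0}, a' s * v s :=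
        Finset.sum_congr rfl fun s _ => by rw [hoff s]
      have h5 : a s0 * v s0 = a' s0 * v s0 := by linarith
      have h6 : v s0 ≠ 0 := by
        intro h
        rw [h, abs_zero] at hs0
        omega
      funext s
      by_cases hs : s = s0
      · rw [hs]
        exact mul_right_cancel₀ h6 h5
      · exact hoff ⟨s, hs⟩
  have hBc : ∀ r, ((Bx r).card : ℝ) ≤ (2 * L / (Q * V) + 1) ^ (Fintype.card S - 1) := by
    intro r
    rw [hBx, Fintype.card_piFinset]
    push_cast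
    rw [← hcard, ← Finset.card_univ, ← Finset.prod_const]
    refine Finset.prod_le_prod (fun _ _ => by positivity) fun s _ => ?_
    rw [← Set.ncard_eq_toFinset_card _ (hAfin s _)]
    exact hAcard s _
  have hBigc : (Big.card : ℝ) ≤ hRfin.toFinset.card * (2 * L / (Q * V) + 1) ^ (Fintype.card S - 1) := by
    have h1 : (Big.card : ℝ) ≤ ∑ r ∈ hRfin.toFinset, ((Bx r).card : ℝ) := by
      exact_mod_cast Finset.card_biUnion_le
    refine h1.trans ((Finset.sum_le_card_nsmul _ _ _ fun r _ => hBc r).trans (le_of_eq ?_))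
    rw [nsmul_eq_mul]
  calc (W.ncard : ℝ) ≤ Big.card := by exact_mod_cast hle
    _ ≤ hRfin.toFinset.card * (2 * L / (Q * V) + 1) ^ (Fintype.card S - 1) := hBigc
    _ ≤ ((V : ℝ) ^ (Fintype.card S - 1) / V) * (2 * L / (Q * V) + 1) ^ (Fintype.card S - 1) :=
        mul_le_mul_of_nonneg_right hRcard (by positivity)
    _ = (V * (2 * L / (Q * V) + 1)) ^ (Fintype.card S - 1) / V := by
        rw [mul_pow]; ring
    _ = (2 * L / Q + V) ^ (Fintype.card S - 1) / V := by
        congr 2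
        field_simp

theorem fibre_count {S : Type} [Fintype S] [DecidableEq S] (v : S → ℤ)
    (hv : ∃ c : S → ℤ, ∑ s, c s * v s = 1) (V : ℕ) (hV : ∀ s, |v s| ≤ V) (s0 : S)
    (hs0 : |v s0| = V) (Q : ℕ) (hQ : 1 ≤ Q) (rho : ℝ) (hrho : 0 < rho) (eps : ℝ) (he : 0 < eps) :
    ∀ᶠ H : ℝ in atTop, ∀ (c : S → ℝ) (a0 : S → ℤ) (b : ℤ),
      (Set.ncard {a : S → ℤ | (∀ s, |(a s : ℝ) - c s| ≤ rho * H) ∧ (∀ s, (Q : ℤ) ∣ a s - a0 s) ∧
        ∑ s, a s * v s = b} : ℝ) ≤ (1 + eps) * (2 * rho * H / Q) ^ (Fintype.card S - 1) / V := by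
  have hVp : 0 < V := by
    rcases Nat.eq_zero_or_pos V with h | h
    · exfalso
      obtain ⟨c, hc⟩ := hv
      have h1 : ∀ s, v s = 0 := by
        intro s
        have := hV s
        rw [h] at this
        exact abs_eq_zero.1 (le_antisymm (by exact_mod_cast this) (abs_nonneg _))
      simp [h1] at hc
    · exact h
  have hQr : (0 : ℝ) < Q := by exact_mod_cast hQ
  have hVr : (0 : ℝ) < V := by exact_mod_cast hVp
  -- the limit
  have hlim : Tendsto (fun H : ℝ => (1 + (V * Q / (2 * rho)) * H⁻¹) ^ (Fintype.card S - 1)) atTop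
      (𝓝 1) := by
    have h1 : Tendsto (fun H : ℝ => 1 + (V * Q / (2 * rho)) * H⁻¹) atTop (𝓝 (1 + (V * Q / (2 * rho)) * 0)) :=
      tendsto_const_nhds.add (tendsto_inv_atTop_zero.const_mul _)
    have h2 := h1.pow (Fintype.card S - 1)
    simpa using h2
  filter_upwards [hlim.eventually (eventually_le_nhds (by linarith : (1 : ℝ) < 1 + eps)),
    eventually_gt_atTop 0] with H hH hH0 c a0 b
  refine (fib_bound v hv V hVp s0 hs0 Q hQ (rho * H) (by positivity) c a0 b).trans ?_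
  apply div_le_div_of_nonneg_right _ hVr.le
  have h3 : 2 * (rho * H) / Q + V = (2 * rho * H / Q) * (1 + (V * Q / (2 * rho)) * H⁻¹) := by
    field_simp
  rw [h3, mul_pow, mul_comm]
  exact mul_le_mul_of_nonneg_right hH (by positivity)

end GenHP
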