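import Pool.Agent.Lib.MP_e426f4_ag.M.Defs
import Pool.Agent.Lib.MP_e426f4_ag.G.Alg

/-! Module M-HZ: number of zeros modulo a prime power near a good zero. -/

namespace GenHP

open Finset Filter Topology

/-- one Hensel step along the variable `v1` -/
private theorem hz_step {V I : Type*} [Fintype V] [DecidableEq V] [Fintype I] (e : I → V → ℕ)
    (A : I → ℤ) (p c m : ℕ) (hp : p.Prime) (hm : 2 * c + 2 ≤ m) (z : V → ℤ) (v1 : V)
    (hF : (p : ℤ) ^ m ∣ Fg e A z) (hD : (p : ℤ) ^ c ∣ Dg e A z v1)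
    (hD' : ¬ (p : ℤ) ^ (c + 1) ∣ Dg e A z v1) :
    ∃ t : ℤ, (p : ℤ) ^ (m - c) ∣ t ∧ (p : ℤ) ^ (m + 1) ∣ Fg e A (Function.update z v1 (z v1 + t)) := by
  have hp0 : (p : ℤ) ≠ 0 := by exact_mod_cast hp.ne_zero
  obtain ⟨F', hF'⟩ := hF
  obtain ⟨D', hD1⟩ := hD
  have hcop : IsCoprime D' (p : ℤ) := by
    rw [isCoprime_comm, (Nat.prime_iff_prime_int.1 hp).irreducible.coprime_iff_not_dvd]
    intro hdvd
    apply hD'
    rw [hD1, pow_succ]
    exact mul_dvd_mul_left _ hdvd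
  obtain ⟨a, b, hab⟩ := hcop
  -- s = -F' * a
  refine ⟨(p : ℤ) ^ (m - c) * (-F' * a), dvd_mul_right _ _, ?_⟩
  obtain ⟨r, hr⟩ := Fg_add_smul e A z (Pi.single v1 1) ((p : ℤ) ^ (m - c) * (-F' * a))
  have hupd : Function.update z v1 (z v1 + (p : ℤ) ^ (m - c) * (-F' * a)) =
      fun i => z i + (p : ℤ) ^ (m - c) * (-F' * a) * (Pi.single v1 (1 : ℤ) : V → ℤ) i := by
    funext i
    by_cases hi : i = v1
    · subst hi; simp
    · simp [Function.update_of_ne hi, Pi.single_eq_of_ne hi]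
  rw [hupd, hr]
  have hsum : ∑ j, Dg e A z j * (Pi.single v1 (1 : ℤ) : V → ℤ) j = Dg e A z v1 := by
    rw [Finset.sum_eq_single v1]
    · simp
    · intro j _ hj; simp [Pi.single_eq_of_ne hj]
    · simp
  rw [hsum, hF', hD1]
  have e1 : (p : ℤ) ^ (m - c) * (p : ℤ) ^ c = (p : ℤ) ^ m := by
    rw [← pow_add]; congr 1; omega
  obtain ⟨q, hq⟩ : ∃ q, (m - c) + (m - c) = (m + 1) + q := ⟨(m - c) + (m - c) - (m + 1), by omega⟩
  have e2 : (p : ℤ) ^ (m - c) * (p : ℤ) ^ (m - c) = (p : ℤ) ^ (m + 1) * (p : ℤ) ^ q := by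
    rw [← pow_add, ← pow_add, hq]
  refine ⟨F' * b + (p : ℤ) ^ q * (F' * a) ^ 2 * r, ?_⟩
  have e3 : (p : ℤ) ^ (m + 1) = (p : ℤ) ^ m * p := pow_succ _ _
  rw [e3] at e2 ⊢
  linear_combination (-F' * a * D') * e1 + (F' * a) ^ 2 * r * e2 - (p : ℤ) ^ m * F' * hab

private theorem hz_lift {V I : Type*} [Fintype V] [DecidableEq V] [Fintype I] (e : I → V → ℕ)
    (A : I → ℤ) (p c m0 : ℕ) (hp : p.Prime) (hm : 2 * c + 2 ≤ m0) (z : V → ℤ) (v1 : V)
    (hF : (p : ℤ) ^ m0 ∣ Fg e A z) (hD : (p : ℤ) ^ c ∣ Dg e A z v1)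
    (hD' : ¬ (p : ℤ) ^ (c + 1) ∣ Dg e A z v1) (j : ℕ) :
    ∃ t : ℤ, (p : ℤ) ^ (m0 - c) ∣ t ∧
      (p : ℤ) ^ (m0 + j) ∣ Fg e A (Function.update z v1 (z v1 + t)) := by
  induction j with
  | zero => exact ⟨0, dvd_zero _, by simpa using hF⟩
  | succ j ih =>
    obtain ⟨t, ht1, ht2⟩ := ih
    set z' := Function.update z v1 (z v1 + t) with hz'
    have hcong : ∀ i, (p : ℤ) ^ (m0 - c) ∣ z' i - z i := by
      intro i
      by_cases hi : i = v1
      · subst hi; simpa [hz'] using ht1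
      · simp [hz', Function.update_of_ne hi]
    have hDc := Dg_congr_mod e ((p : ℤ) ^ (m0 - c)) A A z' z v1 (by simp) hcong
    have hle : (p : ℤ) ^ (c + 1) ∣ (p : ℤ) ^ (m0 - c) := pow_dvd_pow _ (by omega)
    have hDd := hle.trans hDc
    have h1 : (p : ℤ) ^ c ∣ Dg e A z' v1 := by
      have := (pow_dvd_pow (p : ℤ) (Nat.le_succ c)).trans hDd
      have h3 : Dg e A z' v1 = (Dg e A z' v1 - Dg e A z v1) + Dg e A z v1 := by ring
      rw [h3]; exact dvd_add this hD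
    have h2 : ¬ (p : ℤ) ^ (c + 1) ∣ Dg e A z' v1 := by
      intro h
      apply hD'
      have h3 : Dg e A z v1 = Dg e A z' v1 - (Dg e A z' v1 - Dg e A z v1) := by ring
      rw [h3]; exact dvd_sub h hDd
    obtain ⟨t', ht'1, ht'2⟩ := hz_step e A p c (m0 + j) hp (by omega) z' v1 ht2 h1 h2
    refine ⟨t + t', dvd_add ht1 ((pow_dvd_pow _ (by omega)).trans ht'1), ?_⟩
    have h4 : Function.update z' v1 (z' v1 + t') = Function.update z v1 (z v1 + (t + t')) := by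
      rw [hz', Function.update_idem, Function.update_self, add_assoc]
    rw [h4] at ht'2
    exact ht'2

theorem hens_zeros {V I : Type*} [Fintype V] [DecidableEq V] [Fintype I] (e : I → V → ℕ)
    (A : I → ℤ) (p k1 k : ℕ) (hp : p.Prime) (hk1 : 1 ≤ k1) (hk : k1 ≤ k) (z0 : V → ℤ) (v0 : V)
    (h0 : (p : ℤ) ^ (2 * k1) ∣ Fg e A z0) (h1 : ¬ (p : ℤ) ^ k1 ∣ Dg e A z0 v0) :
    (p ^ (2 * k - 2 * k1)) ^ (Fintype.card V - 1) ≤
      Set.ncard {z : V → ℤ | (∀ v, 0 ≤ z v ∧ z v < (p : ℤ) ^ (2 * k)) ∧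
        (∀ v, (p : ℤ) ∣ z v - z0 v) ∧ (p : ℤ) ^ (2 * k) ∣ Fg e A z} := by
  classical
  have hp0 : (p : ℤ) ≠ 0 := by exact_mod_cast hp.ne_zero
  have hppos : (0 : ℤ) < p := by exact_mod_cast hp.pos
  -- minimal valuation
  have hex : ∃ c : ℕ, ∃ v, ¬ (p : ℤ) ^ (c + 1) ∣ Dg e A z0 v :=
    ⟨k1 - 1, v0, by rwa [Nat.sub_add_cancel hk1]⟩
  obtain ⟨c, ⟨v1, hv1⟩, hmin⟩ : ∃ c : ℕ, (∃ v, ¬ (p : ℤ) ^ (c + 1) ∣ Dg e A z0 v) ∧
      ∀ c' < c, ¬ ∃ v, ¬ (p : ℤ) ^ (c' + 1) ∣ Dg e A z0 v :=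
    ⟨Nat.find hex, Nat.find_spec hex, fun c' hc' => Nat.find_min hex hc'⟩
  have hall : ∀ v, (p : ℤ) ^ c ∣ Dg e A z0 v := by
    intro v
    rcases Nat.eq_zero_or_pos c with hc | hc
    · simp [hc]
    · have := hmin (c - 1) (by omega)
      push Not at this
      have h2 := this v
      rwa [Nat.sub_add_cancel hc] at h2
  have hck : c + 1 ≤ k1 := by
    by_contra hcon
    exact h1 ((pow_dvd_pow _ (by omega)).trans (hall v0))
  set P : ℤ := (p : ℤ) ^ (2 * k1 - c) with hP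
  set M : ℕ := p ^ (2 * k - 2 * k1) with hM
  -- the extension
  let ext : ({v : V // v ≠ v1} → Fin M) → V → ℤ := fun h v =>
    if hv : v ≠ v1 then ((h ⟨v, hv⟩ : ℕ) : ℤ) else 0
  have key : ∀ h : {v : V // v ≠ v1} → Fin M, ∃ t : ℤ, P ∣ t ∧ (p : ℤ) ^ (2 * k) ∣
      Fg e A (Function.update (fun v => z0 v + P * ext h v) v1 (z0 v1 + t)) := by
    intro h
    set u : V → ℤ := fun v => z0 v + P * ext h v with hu
    have hu1 : u v1 = z0 v1 := by simp [hu, ext]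
    obtain ⟨r, hr⟩ := Fg_add_smul e A z0 (ext h) P
    have hFu : (p : ℤ) ^ (2 * k1) ∣ Fg e A u := by
      rw [hu, hr]
      refine dvd_add (dvd_add h0 ?_) ?_
      · obtain ⟨s, hs⟩ : (p : ℤ) ^ c ∣ ∑ j, Dg e A z0 j * ext h j :=
          Finset.dvd_sum fun j _ => (hall j).mul_right _
        rw [hs]
        refine ⟨s, ?_⟩
        have : P * (p : ℤ) ^ c = (p : ℤ) ^ (2 * k1) := by
          rw [hP, ← pow_add]; congr 1; omega
        rw [← this]; ring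
      · rw [hP, ← pow_mul]
        exact (pow_dvd_pow _ (by omega)).mul_right _
    have hcong : ∀ i, P ∣ u i - z0 i := fun i => ⟨ext h i, by simp [hu]⟩
    have hDc := Dg_congr_mod e P A A u z0 v1 (by simp) hcong
    have hle : (p : ℤ) ^ (c + 1) ∣ P := pow_dvd_pow _ (by omega)
    have hDd := hle.trans hDc
    have h3 : (p : ℤ) ^ c ∣ Dg e A u v1 := by
      have h5 := (pow_dvd_pow (p : ℤ) (Nat.le_succ c)).trans hDd
      have h4 : Dg e A u v1 = (Dg e A u v1 - Dg e A z0 v1) + Dg e A z0 v1 := by ring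
      rw [h4]; exact dvd_add h5 (hall v1)
    have h4 : ¬ (p : ℤ) ^ (c + 1) ∣ Dg e A u v1 := by
      intro h5
      apply hv1
      have h6 : Dg e A z0 v1 = Dg e A u v1 - (Dg e A u v1 - Dg e A z0 v1) := by ring
      rw [h6]; exact dvd_sub h5 hDd
    obtain ⟨t, ht1, ht2⟩ := hz_lift e A p c (2 * k1) hp (by omega) u v1 hFu h3 h4 (2 * k - 2 * k1)
    have h7 : 2 * k1 + (2 * k - 2 * k1) = 2 * k := by omega
    rw [h7, hu1] at ht2
    exact ⟨t, ht1, ht2⟩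
  choose t ht1 ht2 using key
  let zz : ({v : V // v ≠ v1} → Fin M) → V → ℤ := fun h =>
    Function.update (fun v => z0 v + P * ext h v) v1 (z0 v1 + t h)
  let f : ({v : V // v ≠ v1} → Fin M) → V → ℤ := fun h v => zz h v % (p : ℤ) ^ (2 * k)
  have hNpos : (0 : ℤ) < (p : ℤ) ^ (2 * k) := by positivity
  have hfzz : ∀ h v, (p : ℤ) ^ (2 * k) ∣ f h v - zz h v := by
    intro h v
    have := Int.emod_add_mul_ediv (zz h v) ((p : ℤ) ^ (2 * k))
    exact ⟨-(zz h v / (p : ℤ) ^ (2 * k)), by simp only [f]; linarith⟩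
  have hzz0 : ∀ h v, P ∣ zz h v - z0 v := by
    intro h v
    by_cases hv : v = v1
    · subst hv; simpa [zz] using ht1 h
    · simp [zz, Function.update_of_ne hv]
  have hpP : (p : ℤ) ∣ P := by
    rw [hP]; exact dvd_pow_self _ (by omega)
  have hpN : (p : ℤ) ∣ (p : ℤ) ^ (2 * k) := dvd_pow_self _ (by omega)
  set S : Set (V → ℤ) := {z : V → ℤ | (∀ v, 0 ≤ z v ∧ z v < (p : ℤ) ^ (2 * k)) ∧
        (∀ v, (p : ℤ) ∣ z v - z0 v) ∧ (p : ℤ) ^ (2 * k) ∣ Fg e A z} with hS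
  have hfin : S.Finite := by
    have : S ⊆ Set.pi Set.univ (fun _ : V => Set.Ico (0 : ℤ) ((p : ℤ) ^ (2 * k))) := by
      intro z hz v _
      exact ⟨(hz.1 v).1, (hz.1 v).2⟩
    exact (Set.Finite.pi' (fun _ => Set.finite_Ico _ _)).subset (fun z hz v => this hz v trivial)
  have hmem : ∀ h, f h ∈ S := by
    intro h
    refine ⟨fun v => ⟨Int.emod_nonneg _ hNpos.ne', Int.emod_lt_of_pos _ hNpos⟩, fun v => ?_, ?_⟩
    · have h2 : f h v - z0 v = (f h v - zz h v) + (zz h v - z0 v) := by ring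
      rw [h2]
      exact dvd_add (hpN.trans (hfzz h v)) (hpP.trans (hzz0 h v))
    · have h2 := Fg_congr_mod e ((p : ℤ) ^ (2 * k)) A A (f h) (zz h) (by simp) (hfzz h)
      have h3 : Fg e A (f h) = (Fg e A (f h) - Fg e A (zz h)) + Fg e A (zz h) := by ring
      rw [h3]
      exact dvd_add h2 (ht2 h)
  have hinj : Function.Injective f := by
    intro h h' hh
    funext ⟨v, hv⟩
    have e1 : f h v = f h' v := congrFun hh v
    have e2 : (p : ℤ) ^ (2 * k) ∣ P * (((h ⟨v, hv⟩ : ℕ) : ℤ) - ((h' ⟨v, hv⟩ : ℕ) : ℤ)) := by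
      have e3 : P * (((h ⟨v, hv⟩ : ℕ) : ℤ) - ((h' ⟨v, hv⟩ : ℕ) : ℤ)) = zz h v - zz h' v := by
        simp only [zz, Function.update_of_ne hv, ext, dif_pos hv]; ring
      have e4 : zz h v - zz h' v = (f h' v - zz h' v) - (f h v - zz h v) := by rw [e1]; ring
      rw [e3, e4]
      exact dvd_sub (hfzz h' v) (hfzz h v)
    have e5 : (p : ℤ) ^ (2 * k) = P * (p : ℤ) ^ (2 * k - 2 * k1 + c) := by
      rw [hP, ← pow_add]; congr 1; omega
    have hP0 : P ≠ 0 := pow_ne_zero _ hp0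
    rw [e5] at e2
    have e6 : (p : ℤ) ^ (2 * k - 2 * k1 + c) ∣ ((h ⟨v, hv⟩ : ℕ) : ℤ) - ((h' ⟨v, hv⟩ : ℕ) : ℤ) :=
      (mul_dvd_mul_iff_left hP0).1 e2
    have e7 : ((M : ℕ) : ℤ) ∣ ((h ⟨v, hv⟩ : ℕ) : ℤ) - ((h' ⟨v, hv⟩ : ℕ) : ℤ) := by
      refine dvd_trans ?_ e6
      rw [hM]; push_cast
      exact pow_dvd_pow _ (by omega)
    have b1 := (h ⟨v, hv⟩).2
    have b2 := (h' ⟨v, hv⟩).2
    have e8 : ((h ⟨v, hv⟩ : ℕ) : ℤ) - ((h' ⟨v, hv⟩ : ℕ) : ℤ) = 0 := by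
      apply Int.eq_zero_of_abs_lt_dvd e7
      rw [abs_lt]
      constructor <;> omega
    apply Fin.ext
    omega
  have hcard : Set.ncard (Set.range f) = M ^ (Fintype.card V - 1) := by
    rw [← Set.image_univ, Set.ncard_image_of_injective _ hinj, Set.ncard_univ, Nat.card_eq_fintype_card,
      Fintype.card_fun, Fintype.card_fin]
    congr 1
    rw [Fintype.card_subtype_compl, Fintype.card_subtype_eq]
  rw [← hcard]
  exact Set.ncard_le_ncard (Set.range_subset_iff.2 hmem) hfin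

end GenHP
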