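import Pool.Agent.Lib.MP_e426f4_ag.M.CondP
import Pool.Agent.Lib.MP_e426f4_ag.M.HensZeros

/-! GCHP, module M-X2P: forms with a good `p`-adic zero, none good with respect to block `i0`. -/

namespace GenHP

open Finset Filter Topology

section multi
variable {ι : Type} [Fintype ι] [DecidableEq ι] {n d : ι → ℕ}

theorem padic_exc2 (hd : ∀ i, 1 ≤ d i) (i0 : ι) (hn0 : 1 ≤ n i0) (p : ℕ) (hp : p.Prime) (k1 : ℕ)
    (hk1 : 1 ≤ k1) (eps : ℝ) (he : 0 < eps) : ∃ k0 : ℕ, ∀ k : ℕ, k0 ≤ k → ∀ᶠ H : ℕ in atTop,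
      (Set.ncard {A : MIdx n d → ℤ | A ∈ MBox n d H ∧
        (∃ z : MVar n → ℤ, BUnit p z ∧ (p : ℤ) ^ (2 * k1) ∣ MF A z ∧
          ∃ v, ¬ (p : ℤ) ^ k1 ∣ MD A z v) ∧ ¬ GoodP i0 p k A} : ℝ) ≤
        eps * (2 * H + 1) ^ NM n d := by
  classical
  have hp0 : (0 : ℤ) < p := by exact_mod_cast hp.pos
  have hpR : (0 : ℝ) < p := by exact_mod_cast hp.pos
  have hpR1 : (1 : ℝ) < p := by exact_mod_cast hp.one_lt
  set V := Fintype.card (MVar n) with hV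
  have hV1 : 1 ≤ V := by
    rw [hV]
    exact Fintype.card_pos_iff.mpr ⟨⟨i0, 0⟩⟩
  set D := 2 * k1 * (V - 1) with hD
  -- the choice of `k0`
  obtain ⟨k2, hk2⟩ : ∃ k2 : ℕ, ∀ k : ℕ, k2 ≤ k → 2 * (p : ℝ) ^ D ≤ eps * (p : ℝ) ^ k := by
    have h1 : Tendsto (fun k : ℕ => eps * (p : ℝ) ^ k) atTop atTop :=
      (tendsto_pow_atTop_atTop_of_one_lt hpR1).const_mul_atTop he
    have h2 := h1.eventually_ge_atTop (2 * (p : ℝ) ^ D)
    exact Filter.eventually_atTop.mp h2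
  refine ⟨max k1 k2, fun k hk => ?_⟩
  have hkk1 : k1 ≤ k := (le_max_left _ _).trans hk
  have hkk2 : k2 ≤ k := (le_max_right _ _).trans hk
  filter_upwards [cond_p (n := n) (d := d) hd p hp k] with H hH
  set B : Finset (MIdx n d → ℤ) := (MBox n d H).filter fun A =>
    (∃ z : MVar n → ℤ, BUnit p z ∧ (p : ℤ) ^ (2 * k1) ∣ MF A z ∧
          ∃ v, ¬ (p : ℤ) ^ k1 ∣ MD A z v) ∧ ¬ GoodP i0 p k A with hB
  have hset : {A : MIdx n d → ℤ | A ∈ MBox n d H ∧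
        (∃ z : MVar n → ℤ, BUnit p z ∧ (p : ℤ) ^ (2 * k1) ∣ MF A z ∧
          ∃ v, ¬ (p : ℤ) ^ k1 ∣ MD A z v) ∧ ¬ GoodP i0 p k A} = (B : Set (MIdx n d → ℤ)) := by
    ext A
    rw [hB, Finset.coe_filter]
  rw [hset, Set.ncard_coe_finset]
  set Z : Finset (MVar n → ℤ) := (Fintype.piFinset fun _ : MVar n =>
    Finset.Ico (0 : ℤ) ((p : ℤ) ^ (2 * k))).filter fun z => BUnit p z with hZ
  have hZcard : (Z.card : ℝ) ≤ ((p : ℝ) ^ (2 * k)) ^ V := by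
    have h1 : Z.card ≤ (p ^ (2 * k)) ^ V := by
      refine (Finset.card_filter_le _ _).trans ?_
      rw [Fintype.card_piFinset]
      simp only [Int.card_Ico, sub_zero, Finset.prod_const, Finset.card_univ]
      have : ((p : ℤ) ^ (2 * k)).toNat = p ^ (2 * k) := by
        rw [← Nat.cast_pow, Int.toNat_natCast]
      rw [this]
    exact_mod_cast h1
  set r : (MIdx n d → ℤ) → (MVar n → ℤ) → Prop := fun A z => (p : ℤ) ^ (2 * k) ∣ MF A z with hr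
  -- many zeros for each bad form
  have habove : ∀ A ∈ B, (p ^ (2 * k - 2 * k1)) ^ (V - 1) ≤ (Z.bipartiteAbove r A).card := by
    intro A hA
    rw [hB, Finset.mem_filter] at hA
    obtain ⟨-, ⟨z0, hz0, hF0, v0, hv0⟩, -⟩ := hA
    have h1 := hens_zeros mex A p k1 k hp hk1 hkk1 z0 v0 hF0 hv0
    refine h1.trans ?_
    rw [← Set.ncard_coe_finset]
    refine Set.ncard_le_ncard ?_ (Finset.finite_toSet _)
    rintro z ⟨hz1, hz2, hz3⟩
    rw [Finset.mem_coe, Finset.mem_bipartiteAbove, hZ, Finset.mem_filter, Fintype.mem_piFinset]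
    refine ⟨⟨fun v => Finset.mem_Ico.mpr (hz1 v), fun i => ?_⟩, hz3⟩
    obtain ⟨a, ha⟩ := hz0 i
    refine ⟨a, fun h2 => ha ?_⟩
    have h3 := dvd_sub h2 (hz2 ⟨i, a⟩)
    simpa using h3
  -- few forms for each point
  have hbelow : ∀ z ∈ Z, ((B.bipartiteBelow r z).card : ℝ) ≤
      2 * (2 * H + 1) ^ NM n d / (p : ℝ) ^ (k * (n i0 + 2)) := by
    intro z hz
    rw [hZ, Finset.mem_filter] at hz
    have hz2 := hz.2
    choose τ hτ using hz2
    set U : Finset (MVar n) := (univ.erase (τ i0)).image fun a => (⟨i0, a⟩ : MVar n) with hU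
    have hUcard : U.card = n i0 := by
      rw [hU, Finset.card_image_of_injective, Finset.card_erase_of_mem (Finset.mem_univ _),
        Finset.card_univ, Fintype.card_fin]
      · simp
      · intro a b hab
        simpa using hab
    have h1 := hH τ z hτ U (by
      intro v hv
      rw [hU, Finset.mem_image] at hv
      obtain ⟨a, ha, rfl⟩ := hv
      exact (Finset.mem_erase.mp ha).1)
    rw [hUcard] at h1
    refine le_trans ?_ h1
    rw [← Set.ncard_coe_finset]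
    have h2 : ((B.bipartiteBelow r z : Finset (MIdx n d → ℤ)) : Set (MIdx n d → ℤ)) ⊆
        {A : MIdx n d → ℤ | A ∈ MBox n d H ∧ (p : ℤ) ^ (2 * k) ∣ MF A z ∧
        ∀ v ∈ U, (p : ℤ) ^ k ∣ MD A z v} := by
      intro A hA
      rw [Finset.mem_coe, Finset.mem_bipartiteBelow, hB, Finset.mem_filter] at hA
      obtain ⟨⟨hA1, -, hA2⟩, hA3⟩ := hA
      refine ⟨hA1, hA3, fun v hv => ?_⟩
      rw [hU, Finset.mem_image] at hv
      obtain ⟨a, ha, rfl⟩ := hv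
      by_contra h3
      exact hA2 ⟨z, hz.2, hA3, a, h3⟩
    have h3 := Set.ncard_le_ncard h2 (MBox_finite H fun A => (p : ℤ) ^ (2 * k) ∣ MF A z ∧
        ∀ v ∈ U, (p : ℤ) ^ k ∣ MD A z v)
    exact_mod_cast h3
  have hdc := Finset.sum_card_bipartiteAbove_eq_sum_card_bipartiteBelow (s := B) (t := Z) r
  have h1 : (B.card : ℝ) * ((p : ℝ) ^ (2 * k - 2 * k1)) ^ (V - 1) ≤
      ((p : ℝ) ^ (2 * k)) ^ V * (2 * (2 * H + 1) ^ NM n d / (p : ℝ) ^ (k * (n i0 + 2))) := by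
    calc (B.card : ℝ) * ((p : ℝ) ^ (2 * k - 2 * k1)) ^ (V - 1)
        = ∑ A ∈ B, ((p : ℝ) ^ (2 * k - 2 * k1)) ^ (V - 1) := by
          rw [Finset.sum_const, nsmul_eq_mul]
      _ ≤ ∑ A ∈ B, ((Z.bipartiteAbove r A).card : ℝ) := by
          refine Finset.sum_le_sum fun A hA => ?_
          exact_mod_cast habove A hA
      _ = ∑ z ∈ Z, ((B.bipartiteBelow r z).card : ℝ) := by exact_mod_cast hdc
      _ ≤ ∑ z ∈ Z, (2 * (2 * H + 1) ^ NM n d / (p : ℝ) ^ (k * (n i0 + 2))) :=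
          Finset.sum_le_sum hbelow
      _ = Z.card * (2 * (2 * H + 1) ^ NM n d / (p : ℝ) ^ (k * (n i0 + 2))) := by
          rw [Finset.sum_const, nsmul_eq_mul]
      _ ≤ _ := by gcongr
  have h2 : ((p : ℝ) ^ (2 * k)) ^ V =
      ((p : ℝ) ^ (2 * k - 2 * k1)) ^ (V - 1) * (p : ℝ) ^ D * (p : ℝ) ^ (2 * k) := by
    rw [← pow_mul, ← pow_mul, ← pow_add, ← pow_add]
    congr 1
    rw [hD]
    obtain ⟨W, hW⟩ : ∃ W, V = W + 1 := ⟨V - 1, by omega⟩
    obtain ⟨j, hj⟩ : ∃ j, k = k1 + j := ⟨k - k1, by omega⟩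
    rw [hW, hj]
    have : 2 * (k1 + j) - 2 * k1 = 2 * j := by omega
    rw [this, Nat.add_sub_cancel]
    ring
  have h3 : (p : ℝ) ^ (k * (n i0 + 2)) = (p : ℝ) ^ (k * n i0) * (p : ℝ) ^ (2 * k) := by
    rw [← pow_add]; congr 1; ring
  have hq1 : (0 : ℝ) < ((p : ℝ) ^ (2 * k - 2 * k1)) ^ (V - 1) := by positivity
  have hq2 : (0 : ℝ) < (p : ℝ) ^ (2 * k) := by positivity
  have hq3 : (0 : ℝ) < (p : ℝ) ^ (k * n i0) := by positivity
  have h4 : ((p : ℝ) ^ (2 * k)) ^ V * (2 * (2 * H + 1) ^ NM n d / (p : ℝ) ^ (k * (n i0 + 2))) =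
      (2 * (p : ℝ) ^ D / (p : ℝ) ^ (k * n i0) * (2 * H + 1) ^ NM n d) *
        ((p : ℝ) ^ (2 * k - 2 * k1)) ^ (V - 1) := by
    rw [h2, h3]
    field_simp
  rw [h4] at h1
  have h5 := le_of_mul_le_mul_right h1 hq1
  refine h5.trans ?_
  have h6 : 2 * (p : ℝ) ^ D / (p : ℝ) ^ (k * n i0) ≤ eps := by
    rw [div_le_iff₀ hq3]
    refine (hk2 k hkk2).trans ?_
    have h7 : (p : ℝ) ^ k ≤ (p : ℝ) ^ (k * n i0) :=
      pow_le_pow_right₀ hpR1.le (Nat.le_mul_of_pos_right _ hn0)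
    gcongr
  gcongr

end multi

end GenHP
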