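import Pool.Agent.Lib.MP_e426f4_ag.M.PadicExc1
import Pool.Agent.Lib.MP_e426f4_ag.M.PadicExc2

/-! GCHP, module M-XP: forms with `p`-adic zeros but without a good one with respect to block `i0`. -/

namespace GenHP

open Finset Filter Topology

section multi
variable {ι : Type} [Fintype ι] [DecidableEq ι] {n d : ι → ℕ}

theorem padic_exc (hd : ∀ i, 1 ≤ d i) (i0 : ι) (hn0 : 1 ≤ n i0) (p : ℕ) (hp : p.Prime)
    (eps : ℝ) (he : 0 < eps) : ∃ k0 : ℕ, ∀ k : ℕ, k0 ≤ k → ∀ᶠ H : ℕ in atTop,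
      (Set.ncard {A : MIdx n d → ℤ | A ∈ MBox n d H ∧
        (∀ l : ℕ, ∃ z : MVar n → ℤ, BUnit p z ∧ (p : ℤ) ^ (2 * l) ∣ MF A z) ∧
          ¬ GoodP i0 p k A} : ℝ) ≤ eps * (2 * H + 1) ^ NM n d := by
  have hpR : (0 : ℝ) < p := by exact_mod_cast hp.pos
  have hpR1 : (1 : ℝ) < p := by exact_mod_cast hp.one_lt
  obtain ⟨C, hC, hC1⟩ := padic_exc1 (n := n) (d := d) hd
  -- the choice of `k1`
  obtain ⟨k1, hk1, hk1'⟩ : ∃ k1 : ℕ, 1 ≤ k1 ∧ C / (p : ℝ) ^ (2 * k1) ≤ eps / 2 := by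
    have h1 : Tendsto (fun k : ℕ => eps / 2 * (p : ℝ) ^ k) atTop atTop :=
      (tendsto_pow_atTop_atTop_of_one_lt hpR1).const_mul_atTop (by positivity)
    obtain ⟨k, hk1, hk2⟩ := ((h1.eventually_ge_atTop C).and (eventually_ge_atTop 1)).exists
    refine ⟨k, hk2, ?_⟩
    rw [div_le_iff₀ (by positivity)]
    refine hk1.trans ?_
    have h7 : (p : ℝ) ^ k ≤ (p : ℝ) ^ (2 * k) := pow_le_pow_right₀ hpR1.le (by omega)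
    gcongr
  obtain ⟨k0, hk0⟩ := padic_exc2 (n := n) (d := d) hd i0 hn0 p hp k1 hk1 (eps / 2) (by positivity)
  refine ⟨k0, fun k hk => ?_⟩
  filter_upwards [hC1 p hp k1 hk1, hk0 k hk] with H h1 h2
  set S1 := {A : MIdx n d → ℤ | A ∈ MBox n d H ∧ ∃ z : MVar n → ℤ, BUnit p z ∧
        (p : ℤ) ^ (2 * k1) ∣ MF A z ∧ ∀ v, (p : ℤ) ^ k1 ∣ MD A z v} with hS1
  set S2 := {A : MIdx n d → ℤ | A ∈ MBox n d H ∧
        (∃ z : MVar n → ℤ, BUnit p z ∧ (p : ℤ) ^ (2 * k1) ∣ MF A z ∧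
          ∃ v, ¬ (p : ℤ) ^ k1 ∣ MD A z v) ∧ ¬ GoodP i0 p k A} with hS2
  have hsub : {A : MIdx n d → ℤ | A ∈ MBox n d H ∧
        (∀ l : ℕ, ∃ z : MVar n → ℤ, BUnit p z ∧ (p : ℤ) ^ (2 * l) ∣ MF A z) ∧
          ¬ GoodP i0 p k A} ⊆ S1 ∪ S2 := by
    rintro A ⟨hA, hl, hg⟩
    obtain ⟨z, hz, hF⟩ := hl k1
    by_cases hD : ∀ v, (p : ℤ) ^ k1 ∣ MD A z v
    · exact Or.inl ⟨hA, z, hz, hF, hD⟩
    · push Not at hD
      exact Or.inr ⟨hA, ⟨z, hz, hF, hD⟩, hg⟩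
  have hf1 : S1.Finite := MBox_finite H fun A => ∃ z : MVar n → ℤ, BUnit p z ∧
        (p : ℤ) ^ (2 * k1) ∣ MF A z ∧ ∀ v, (p : ℤ) ^ k1 ∣ MD A z v
  have hf2 : S2.Finite := MBox_finite H fun A => (∃ z : MVar n → ℤ, BUnit p z ∧
        (p : ℤ) ^ (2 * k1) ∣ MF A z ∧ ∃ v, ¬ (p : ℤ) ^ k1 ∣ MD A z v) ∧ ¬ GoodP i0 p k A
  have h3 := (Set.ncard_le_ncard hsub (hf1.union hf2)).trans (Set.ncard_union_le S1 S2)
  have h4 : (Set.ncard {A : MIdx n d → ℤ | A ∈ MBox n d H ∧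
        (∀ l : ℕ, ∃ z : MVar n → ℤ, BUnit p z ∧ (p : ℤ) ^ (2 * l) ∣ MF A z) ∧
          ¬ GoodP i0 p k A} : ℝ) ≤ (S1.ncard : ℝ) + S2.ncard := by exact_mod_cast h3
  refine h4.trans ?_
  have h5 : C / (p : ℝ) ^ (2 * k1) * (2 * H + 1) ^ NM n d ≤
      eps / 2 * (2 * H + 1) ^ NM n d := by gcongr
  linarith

end multi

end GenHP
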