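import Pool.Agent.Lib.MP_e426f4_ag.M.Defs
import Pool.Agent.Lib.MP_e426f4_ag.M.Alg
import Pool.Agent.Lib.MP_e426f4_ag.M.AlgReal
import Pool.Agent.Lib.MP_e426f4_ag.Interval

/-! Grid points near a good real zero. -/

namespace GenHP

open Finset Filter Topology

section multi
variable {ι : Type} [Fintype ι] [DecidableEq ι] {n d : ι → ℕ}

/-- number of integers in an interval -/
private theorem grid_card_Icc (a b : ℝ) : b - a - 1 ≤ ((Icc ⌈a⌉ ⌊b⌋).card : ℝ) := by
  rw [Int.card_Icc]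
  have h1 := Int.ceil_lt_add_one a
  have h2 := Int.lt_floor_add_one b
  have h3 : ((⌊b⌋ + 1 - ⌈a⌉ : ℤ) : ℝ) ≤ ((⌊b⌋ + 1 - ⌈a⌉).toNat : ℝ) := by
    exact_mod_cast Int.self_le_toNat _
  push_cast at h3
  linarith

/-- the constant -/
private noncomputable def gridK (n d : ι → ℕ) : ℝ :=
  1 + NM n d * (∑ i, d i : ℕ) * 4 ^ (∑ i, d i) +
    NM n d * (Fintype.card (MVar n) * (∑ i, d i : ℕ) + 4 ^ (∑ i, d i))

private theorem gridK_ge (n d : ι → ℕ) : 1 ≤ gridK n d := by
  unfold gridK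
  have h1 : (0 : ℝ) ≤ NM n d * (∑ i, d i : ℕ) * 4 ^ (∑ i, d i) := by positivity
  have h2 : (0 : ℝ) ≤ NM n d * (Fintype.card (MVar n) * (∑ i, d i : ℕ) + 4 ^ (∑ i, d i)) := by
    positivity
  linarith

/-- the fibre in the direction `v0` contains a long interval -/
private theorem grid_fiber (bet1 kap eta th : ℝ) (hb : 0 < bet1) (hb1 : bet1 ≤ 1)
    (hkap : kap = bet1 / (2 * gridK n d)) (heta : eta = bet1 * kap / (8 * gridK n d))
    (hth : 0 < th) (hth1 : th ≤ bet1 * kap / 8)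
    (B : MIdx n d → ℝ) (hB : ∀ t, |B t| ≤ 1) (z0 : MVar n → ℝ) (hz0 : ∀ v, |z0 v| ≤ 1)
    (h0 : MF B z0 = 0) (v0 : MVar n) (hD : bet1 ≤ |MD B z0 v0|) (q : MVar n → ℝ)
    (hq : ∀ v, v ≠ v0 → |q v - z0 v| ≤ eta) :
    ∃ u v : ℝ, -kap < u ∧ u ≤ v ∧ v < kap ∧ th / gridK n d ≤ v - u ∧
      ∀ t, u ≤ t → t ≤ v → |MF B (Function.update q v0 (z0 v0 + t))| ≤ th := by
  have hK := gridK_ge n d
  set K : ℝ := gridK n d with hKdef
  have hK0 : 0 < K := by linarith
  have hkpos : 0 < kap := by rw [hkap]; positivity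
  have hk1 : kap ≤ 1 / 2 := by
    rw [hkap, div_le_iff₀ (by positivity)]
    linarith
  have hKk : K * kap = bet1 / 2 := by rw [hkap]; field_simp
  have hepos : 0 < eta := by rw [heta]; positivity
  have hKe : K * eta = bet1 * kap / 8 := by rw [heta]; field_simp
  have hek : eta ≤ kap := by
    have h1 : eta ≤ K * eta := le_mul_of_one_le_left hepos.le hK
    have h2 : bet1 * kap ≤ 1 * kap := mul_le_mul_of_nonneg_right hb1 hkpos.le
    linarith
  have hcD : (NM n d : ℝ) * (∑ i, d i : ℕ) * 4 ^ (∑ i, d i) ≤ K := by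
    rw [hKdef, gridK]
    have h2 : (0 : ℝ) ≤ NM n d * (Fintype.card (MVar n) * (∑ i, d i : ℕ) + 4 ^ (∑ i, d i)) := by
      positivity
    linarith
  have hcF : (NM n d : ℝ) * (Fintype.card (MVar n) * (∑ i, d i : ℕ) + 4 ^ (∑ i, d i)) ≤ K := by
    rw [hKdef, gridK]
    have h1 : (0 : ℝ) ≤ NM n d * (∑ i, d i : ℕ) * 4 ^ (∑ i, d i) := by positivity
    linarith
  have hgK : |MD B z0 v0| ≤ K := by
    have h1 := MD_abs_le B z0 v0 1 1 le_rfl hB hz0
    rw [one_pow, mul_one, mul_one] at h1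
    refine h1.trans (le_trans ?_ hcD)
    have h4 : (1 : ℝ) ≤ 4 ^ (∑ i, d i) := one_le_pow₀ (by norm_num)
    exact le_mul_of_one_le_right (by positivity) h4
  have hg0 : 0 < |MD B z0 v0| := by linarith
  have hgam : MD B z0 v0 ≠ 0 := abs_pos.1 hg0
  -- closeness of the points
  have hclose : ∀ t : ℝ, ∀ Y : ℝ, |t| ≤ Y → eta ≤ Y → ∀ v,
      |Function.update q v0 (z0 v0 + t) v - z0 v| ≤ Y := by
    intro t Y ht hY v
    rcases eq_or_ne v v0 with rfl | hv
    · rw [Function.update_self]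
      simpa using ht
    · rw [Function.update_of_ne hv]
      exact (hq v hv).trans hY
  have hadd : ∀ z : MVar n → ℝ, (fun v => z0 v + (z v - z0 v)) = z := by
    intro z
    ext v
    ring
  obtain ⟨u, v, hu, huv, hv, hiff, hlo, -⟩ := CubicHP.interval_of_deriv
    (fun s => MF B (Function.update q v0 (z0 v0 + s)))
    (fun s => MD B (Function.update q v0 (z0 v0 + s)) v0) kap (MD B z0 v0) (1 / 2) th hkpos hgam
    (by norm_num) (by norm_num) hth
    (fun t => HasDerivAt.comp_const_add (z0 v0) t (hasDerivAt_MF_line B q v0 (z0 v0 + t)))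
    (by
      intro t ht
      have h1 := MD_taylor B z0 (fun v => Function.update q v0 (z0 v0 + t) v - z0 v) v0 1 1 kap
        le_rfl hkpos.le (by linarith) hB hz0 (hclose t kap ht hek)
      rw [hadd, one_pow, mul_one, mul_one] at h1
      refine h1.trans ?_
      have h2 := mul_le_mul_of_nonneg_right hcD hkpos.le
      linarith)
    (by
      have h1 := MF_lip B z0 (fun v => Function.update q v0 (z0 v0 + 0) v - z0 v) 1 1 eta
        le_rfl hepos.le (by linarith) hB hz0 (hclose 0 eta (by rw [abs_zero]; exact hepos.le) le_rfl)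
      rw [hadd, one_pow, mul_one, mul_one, mul_one, h0, sub_zero] at h1
      have h2 := mul_le_mul_of_nonneg_right hcF hepos.le
      have h3 : bet1 * kap ≤ |MD B z0 v0| * kap := mul_le_mul_of_nonneg_right hD hkpos.le
      have h4 : 0 < bet1 * kap := mul_pos hb hkpos
      change |MF B (Function.update q v0 (z0 v0 + 0))| + th < _
      linarith)
  refine ⟨u, v, hu, huv, hv, le_trans ?_ hlo, ?_⟩
  · rw [div_le_div_iff₀ hK0 (by positivity)]
    have h1 : th * |MD B z0 v0| ≤ th * K := mul_le_mul_of_nonneg_left hgK hth.le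
    have h2 : 0 < th * K := mul_pos hth hK0
    linarith
  · intro t h1 h2
    exact (hiff t (abs_le.2 ⟨by linarith, by linarith⟩)).2 ⟨h1, h2⟩

theorem grid_zeros (n d : ι → ℕ) (bet1 : ℝ) (hb : 0 < bet1) (hb1 : bet1 ≤ 1) :
    ∃ c th1 : ℝ, 0 < c ∧ 0 < th1 ∧ ∀ th : ℝ, 0 < th → th ≤ th1 → ∃ R0 : ℕ, ∀ R : ℕ, R0 ≤ R →
      ∀ H : ℕ, 1 ≤ H → ∀ A : MIdx n d → ℤ, A ∈ MBox n d H → ∀ z0 : MVar n → ℝ, BNorm z0 →
      MF (fun t => (A t : ℝ)) z0 = 0 → ∀ v0, bet1 * H ≤ |MD (fun t => (A t : ℝ)) z0 v0| →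
      c * th * (R : ℝ) ^ Fintype.card (MVar n) ≤
        (Set.ncard {u : MVar n → ℤ | (∀ v, |(u v : ℝ) / R - z0 v| ≤ 1 / 2) ∧
          |MF (fun t => (A t : ℝ)) (fun v => (u v : ℝ) / R)| ≤ th * H} : ℝ) := by
  classical
  have hK := gridK_ge n d
  set K : ℝ := gridK n d with hKdef
  have hK0 : 0 < K := by linarith
  obtain ⟨kap, hkap⟩ : ∃ kap : ℝ, kap = bet1 / (2 * K) := ⟨_, rfl⟩
  obtain ⟨eta, heta⟩ : ∃ eta : ℝ, eta = bet1 * kap / (8 * K) := ⟨_, rfl⟩
  have hkpos : 0 < kap := by rw [hkap]; positivity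
  have hk1 : kap ≤ 1 / 2 := by
    rw [hkap, div_le_iff₀ (by positivity)]
    linarith
  have hepos : 0 < eta := by rw [heta]; positivity
  have hek : eta ≤ kap := by
    have hKe : K * eta = bet1 * kap / 8 := by rw [heta]; field_simp
    have h1 : eta ≤ K * eta := le_mul_of_one_le_left hepos.le hK
    have h2 : bet1 * kap ≤ 1 * kap := mul_le_mul_of_nonneg_right hb1 hkpos.le
    linarith
  refine ⟨eta ^ (Fintype.card (MVar n) - 1) * (1 / (2 * K)), bet1 * kap / 8, by positivity,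
    by positivity, ?_⟩
  intro th hth hth1
  obtain ⟨R0, hR0⟩ := exists_nat_ge (1 / eta + 2 * K / th)
  refine ⟨R0, fun R hR H hH A hA z0 hz0 h0 v0 hD => ?_⟩
  have hR1 : 1 / eta + 2 * K / th ≤ (R : ℝ) := hR0.trans (by exact_mod_cast hR)
  have hRe : 1 / eta ≤ (R : ℝ) := le_trans (by
    have : 0 < 2 * K / th := by positivity
    linarith) hR1
  have hRt : 2 * K / th ≤ (R : ℝ) := le_trans (by
    have : 0 < 1 / eta := by positivity
    linarith) hR1
  have hRpos : (0 : ℝ) < R := lt_of_lt_of_le (by positivity) hRe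
  have hRe' : 1 ≤ eta * R := by
    rw [div_le_iff₀ hepos] at hRe
    linarith
  have hRt' : 2 ≤ th / K * R := by
    rw [div_le_iff₀ hth] at hRt
    rw [div_mul_eq_mul_div, le_div_iff₀ hK0]
    linarith
  have hHpos : (0 : ℝ) < H := by exact_mod_cast hH
  -- the normalised form
  set B : MIdx n d → ℝ := fun t => (H : ℝ)⁻¹ * (A t : ℝ) with hBdef
  have hB : ∀ t, |B t| ≤ 1 := by
    intro t
    have h1 : |A t| ≤ H := mem_MBox.1 hA t
    have h2 : |(A t : ℝ)| ≤ H := by exact_mod_cast h1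
    simp only [hBdef]
    rw [abs_mul, abs_of_pos (inv_pos.2 hHpos), inv_mul_le_iff₀ hHpos, mul_one]
    exact h2
  have hAB : (fun t => (A t : ℝ)) = fun t => (H : ℝ) * B t := by
    ext t
    simp only [hBdef]
    field_simp
  have hMF : ∀ z, MF (fun t => (A t : ℝ)) z = H * MF B z := by
    intro z
    rw [hAB, MF_smul]
  have h0B : MF B z0 = 0 := by
    rw [hMF] at h0
    exact (mul_eq_zero.1 h0).resolve_left hHpos.ne'
  have hDB : bet1 ≤ |MD B z0 v0| := by
    rw [hAB, MD_smul, abs_mul, abs_of_pos hHpos] at hD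
    have h1 : H * bet1 ≤ H * |MD B z0 v0| := by linarith
    exact le_of_mul_le_mul_left h1 hHpos
  -- the other coordinates
  let J : Type := {v : MVar n // v ≠ v0}
  let P : Finset (J → ℤ) := Fintype.piFinset fun j => Icc ⌈R * (z0 j.1 - eta)⌉ ⌊R * (z0 j.1 + eta)⌋
  have hP : ∀ y ∈ P, ∀ j : J, |(y j : ℝ) / R - z0 j.1| ≤ eta := by
    intro y hy j
    have h1 := Fintype.mem_piFinset.1 hy j
    rw [mem_Icc, Int.ceil_le, Int.le_floor] at h1
    rw [abs_le]
    have e : (y j : ℝ) / R - z0 j.1 = ((y j : ℝ) - R * z0 j.1) / R := by field_simp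
    rw [e, le_div_iff₀ hRpos, div_le_iff₀ hRpos]
    constructor <;> nlinarith [h1.1, h1.2]
  have hPc : (eta * R) ^ (Fintype.card (MVar n) - 1) ≤ (P.card : ℝ) := by
    have hc : Fintype.card J = Fintype.card (MVar n) - 1 := by
      simp only [J]
      rw [Fintype.card_subtype_compl, Fintype.card_subtype_eq]
    rw [Fintype.card_piFinset, Nat.cast_prod, ← hc]
    calc (eta * R) ^ Fintype.card J = ∏ _j : J, (eta * R) := by
          rw [Finset.prod_const, Finset.card_univ]
      _ ≤ _ := by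
          refine Finset.prod_le_prod (fun _ _ => by positivity) fun j _ => ?_
          refine le_trans ?_ (grid_card_Icc _ _)
          nlinarith
  -- the vector with given coordinates
  let E : (J → ℤ) → ℤ → MVar n → ℤ := fun y t v => if h : v = v0 then t else y ⟨v, h⟩
  have hE0 : ∀ y t, E y t v0 = t := fun y t => by simp [E]
  have hE1 : ∀ y t (j : J), E y t j.1 = y j := fun y t j => by
    simp only [E]
    rw [dif_neg j.2]
  -- the fibres
  have hfib : ∀ y ∈ P, ∃ T : Finset ℤ, th / (2 * K) * R ≤ (T.card : ℝ) ∧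
      ∀ t ∈ T, |(t : ℝ) / R - z0 v0| ≤ kap ∧ |MF B (fun v => (E y t v : ℝ) / R)| ≤ th := by
    intro y hy
    set q : MVar n → ℝ := fun v => (E y 0 v : ℝ) / R with hq
    obtain ⟨a, b, ha, hab, hbk, hlen, hval⟩ := grid_fiber bet1 kap eta th hb hb1 hkap heta hth hth1
      B hB z0 hz0.1 h0B v0 hDB q (by
        intro v hv
        have h1 := hP y hy ⟨v, hv⟩
        have h2 := hE1 y 0 ⟨v, hv⟩
        simp only [hq]
        simp only at h1 h2
        rw [h2]
        exact h1)
    refine ⟨Icc ⌈R * (z0 v0 + a)⌉ ⌊R * (z0 v0 + b)⌋, ?_, ?_⟩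
    · refine le_trans ?_ (grid_card_Icc _ _)
      have h1 : th / K * R ≤ (b - a) * R := mul_le_mul_of_nonneg_right hlen hRpos.le
      have h2 : th / (2 * K) * R = th / K * R / 2 := by field_simp
      rw [h2]
      nlinarith
    · intro t ht
      rw [mem_Icc, Int.ceil_le, Int.le_floor] at ht
      have h1 : a ≤ (t : ℝ) / R - z0 v0 := by
        have e : (t : ℝ) / R - z0 v0 = ((t : ℝ) - R * z0 v0) / R := by field_simp
        rw [e, le_div_iff₀ hRpos]
        nlinarith [ht.1]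
      have h2 : (t : ℝ) / R - z0 v0 ≤ b := by
        have e : (t : ℝ) / R - z0 v0 = ((t : ℝ) - R * z0 v0) / R := by field_simp
        rw [e, div_le_iff₀ hRpos]
        nlinarith [ht.2]
      refine ⟨abs_le.2 ⟨by linarith, by linarith⟩, ?_⟩
      have h3 := hval _ h1 h2
      have h4 : Function.update q v0 (z0 v0 + ((t : ℝ) / R - z0 v0)) =
          fun v => (E y t v : ℝ) / R := by
        ext v
        rcases eq_or_ne v v0 with rfl | hv
        · rw [Function.update_self, hE0]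
          ring
        · rw [Function.update_of_ne hv]
          simp only [hq]
          have e1 := hE1 y 0 ⟨v, hv⟩
          have e2 := hE1 y t ⟨v, hv⟩
          simp only at e1 e2
          rw [e1, e2]
      rw [h4] at h3
      exact h3
  choose! T hTc hT using hfib
  -- the pairs
  let Q : Finset (Σ _ : J → ℤ, ℤ) := P.sigma fun y => T y
  have hQc : (eta * R) ^ (Fintype.card (MVar n) - 1) * (th / (2 * K) * R) ≤ (Q.card : ℝ) := by
    rw [Finset.card_sigma, Nat.cast_sum]
    calc (eta * R) ^ (Fintype.card (MVar n) - 1) * (th / (2 * K) * R)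
        ≤ P.card * (th / (2 * K) * R) := by gcongr
      _ = ∑ _y ∈ P, th / (2 * K) * R := by rw [Finset.sum_const, nsmul_eq_mul]
      _ ≤ _ := Finset.sum_le_sum fun y hy => hTc y hy
  have hinj : Set.InjOn (fun q : (Σ _ : J → ℤ, ℤ) => E q.1 q.2) (Q : Set (Σ _ : J → ℤ, ℤ)) := by
    rintro ⟨y, t⟩ - ⟨y', t'⟩ - h
    have h1 : E y t = E y' t' := h
    have h2 : t = t' := by
      have := congrFun h1 v0
      rwa [hE0, hE0] at this
    have h3 : y = y' := by
      ext j
      have := congrFun h1 j.1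
      rwa [hE1, hE1] at this
    rw [h2, h3]
  set S : Set (MVar n → ℤ) := {u : MVar n → ℤ | (∀ v, |(u v : ℝ) / R - z0 v| ≤ 1 / 2) ∧
          |MF (fun t => (A t : ℝ)) (fun v => (u v : ℝ) / R)| ≤ th * H} with hS
  have hSfin : S.Finite := by
    refine Set.Finite.subset (Finset.finite_toSet
      (Fintype.piFinset fun _ : MVar n => Icc (-(2 * R : ℤ)) (2 * R))) ?_
    intro u hu
    rw [Finset.mem_coe, Fintype.mem_piFinset]
    intro v
    have h1 := abs_le.1 (hu.1 v)
    have h2 := abs_le.1 (hz0.1 v)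
    have h3 : (u v : ℝ) / R ≤ 2 := by linarith
    have h4 : -2 ≤ (u v : ℝ) / R := by linarith
    rw [div_le_iff₀ hRpos] at h3
    rw [le_div_iff₀ hRpos] at h4
    rw [mem_Icc]
    constructor
    · have : (-(2 * (R : ℝ))) ≤ u v := by linarith
      exact_mod_cast this
    · exact_mod_cast h3
  have hsub : ((Q.image fun q : (Σ _ : J → ℤ, ℤ) => E q.1 q.2 : Finset (MVar n → ℤ)) :
      Set (MVar n → ℤ)) ⊆ S := by
    intro u hu
    rw [Finset.mem_coe, Finset.mem_image] at hu
    obtain ⟨⟨y, t⟩, hq, rfl⟩ := hu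
    rw [Finset.mem_sigma] at hq
    obtain ⟨hy, ht⟩ := hq
    simp only at hy ht ⊢
    obtain ⟨h1, h2⟩ := hT y hy t ht
    refine ⟨?_, ?_⟩
    · intro v
      rcases eq_or_ne v v0 with rfl | hv
      · rw [hE0]
        linarith
      · have h3 := hP y hy ⟨v, hv⟩
        have e1 := hE1 y t ⟨v, hv⟩
        simp only at e1 h3
        rw [e1]
        linarith
    · rw [hMF, abs_mul, abs_of_pos hHpos, mul_comm]
      exact mul_le_mul_of_nonneg_right h2 hHpos.le
  have hcard : (Q.card : ℝ) ≤ (S.ncard : ℝ) := by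
    have h1 := Set.ncard_le_ncard hsub hSfin
    rw [Set.ncard_coe_finset, Finset.card_image_of_injOn hinj] at h1
    exact_mod_cast h1
  refine le_trans (le_of_eq ?_) (hQc.trans hcard)
  have hc1 : 1 ≤ Fintype.card (MVar n) := Fintype.card_pos_iff.2 ⟨v0⟩
  have h5 : (R : ℝ) ^ Fintype.card (MVar n) = (R : ℝ) ^ (Fintype.card (MVar n) - 1) * R := by
    rw [← pow_succ]
    congr 1
    omega
  rw [h5, mul_pow]
  field_simp

end multi

end GenHP
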