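import Pool.Agent.Lib.MP_e426f4_ag.M.AlgReal
import Pool.Agent.Lib.MP_e426f4_ag.M.CondR
import Pool.Agent.Lib.MP_e426f4_ag.M.Grid

/-! Module M-X2R: forms with a good real zero but without a good point in block `i0`. -/

namespace GenHP

open Finset Filter Topology

section multi
variable {ι : Type} [Fintype ι] [DecidableEq ι] {n d : ι → ℕ}

/-- `GoodR` is monotone in the bound for the value. -/
theorem GoodR_mono (i0 : ι) (f f' g : ℝ) (hf : f ≤ f') (A : MIdx n d → ℝ)
    (h : GoodR i0 f g A) : GoodR i0 f' g A := by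
  obtain ⟨z, h1, h2, a, h3⟩ := h
  exact ⟨z, h1, h2.trans hf, a, h3⟩

/-- The variables of block `i0` different from `τ i0`. -/
theorem card_block_off (i0 : ι) (τ : ∀ i, Fin (n i + 1)) :
    ((univ.filter fun a : Fin (n i0 + 1) => a ≠ τ i0).image
      fun a => (⟨i0, a⟩ : MVar n)).card = n i0 := by
  rw [Finset.card_image_of_injective _ (fun a b h => by simpa using h)]
  rw [Finset.filter_ne']
  simp

theorem real_exc2 (hd : ∀ i, 1 ≤ d i) (i0 : ι) (hn0 : 1 ≤ n i0) (bet1 : ℝ) (hb : 0 < bet1)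
    (hb1 : bet1 ≤ 1) (eps : ℝ) (he : 0 < eps) : ∃ bet : ℝ, 0 < bet ∧ bet ≤ 1 ∧
    ∀ th : ℝ, 0 < th → ∀ᶠ H : ℕ in atTop,
      (Set.ncard {A : MIdx n d → ℤ | A ∈ MBox n d H ∧ (∃ z : MVar n → ℝ, BNorm z ∧
        MF (fun t => (A t : ℝ)) z = 0 ∧ ∃ v, bet1 * H ≤ |MD (fun t => (A t : ℝ)) z v|) ∧
        ¬ GoodR i0 (th * H) (bet * H) (fun t => (A t : ℝ))} : ℝ) ≤
        eps * (2 * H + 1) ^ NM n d := by
  classical
  obtain ⟨c, th1, hc, hth1, hgrid⟩ := grid_zeros n d bet1 hb hb1
  obtain ⟨C, hC, hcond⟩ := cond_r (n := n) (d := d) hd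
  set dd := ∑ i, d i with hdd
  set V := Fintype.card (MVar n) with hV
  have h5 : (0 : ℝ) < 5 ^ V := by positivity
  set g : ℝ := min 1 (eps * c / (5 ^ V * C)) with hg
  have hg0 : 0 < g := lt_min one_pos (by positivity)
  have hg1 : g ≤ 1 := min_le_left _ _
  have hg2 : g ≤ eps * c / (5 ^ V * C) := min_le_right _ _
  have h2dd : (0 : ℝ) < 2 ^ dd := by positivity
  have h2dd1 : (1 : ℝ) ≤ 2 ^ dd := one_le_pow₀ (by norm_num)
  refine ⟨g / (2 ^ dd * 2), by positivity, ?_, ?_⟩
  · rw [div_le_one (by positivity)]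
    linarith
  intro th hth
  set th' : ℝ := min (th / 2 ^ dd) th1 with hth'
  have hth'0 : 0 < th' := lt_min (by positivity) hth1
  have hth'1 : 2 ^ dd * th' ≤ th := by
    have := min_le_left (th / 2 ^ dd) th1
    rw [← hth', le_div_iff₀ h2dd] at this
    linarith
  obtain ⟨R0, hR0⟩ := hgrid th' hth'0 (min_le_right _ _)
  set R := max R0 1 with hR
  have hR1 : 1 ≤ R := le_max_right _ _
  have hRpos : (0 : ℝ) < R := by exact_mod_cast hR1
  have hgr := hR0 R (le_max_left _ _)
  filter_upwards [hcond g th' hg0 hth'0, eventually_ge_atTop 1] with H hH hH1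
  set Bs : Set (MIdx n d → ℤ) := {A : MIdx n d → ℤ | A ∈ MBox n d H ∧ (∃ z : MVar n → ℝ, BNorm z ∧
        MF (fun t => (A t : ℝ)) z = 0 ∧ ∃ v, bet1 * H ≤ |MD (fun t => (A t : ℝ)) z v|) ∧
        ¬ GoodR i0 (th * H) (g / (2 ^ dd * 2) * H) (fun t => (A t : ℝ))} with hBs
  have hBfin : Bs.Finite := MBox_finite H _
  set B : Finset (MIdx n d → ℤ) := hBfin.toFinset with hB
  have hBcard : Bs.ncard = B.card := Set.ncard_eq_toFinset_card _ hBfin
  rw [hBcard]
  set G : Finset (MVar n → ℤ) := Fintype.piFinset fun _ => Icc (-(2 * R : ℤ)) (2 * R) with hG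
  have hGcard : (G.card : ℝ) ≤ 5 ^ V * (R : ℝ) ^ V := by
    have h1 : G.card = (4 * R + 1) ^ V := by
      rw [hG, Fintype.card_piFinset]
      simp only [Int.card_Icc, Finset.prod_const, Finset.card_univ]
      congr 1
      have : (2 * (R : ℤ) + 1 - -(2 * R)) = ((4 * R + 1 : ℕ) : ℤ) := by push_cast; ring
      rw [this, Int.toNat_natCast]
    rw [h1]
    push_cast
    rw [← mul_pow]
    refine pow_le_pow_left₀ (by positivity) ?_ _
    have : (1 : ℝ) ≤ R := by exact_mod_cast hR1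
    linarith
  set P : (MIdx n d → ℤ) → (MVar n → ℤ) → Prop := fun A u =>
    (∀ i, ∃ a, 1 / 2 ≤ |((u ⟨i, a⟩ : ℤ) : ℝ) / R|) ∧
    |MF (fun t => (A t : ℝ)) (fun v => (u v : ℝ) / R)| ≤ th' * H ∧
    ∀ a, |MD (fun t => (A t : ℝ)) (fun v => (u v : ℝ) / R) ⟨i0, a⟩| ≤ g * H with hP
  have hHpos : (0 : ℝ) < H := by exact_mod_cast hH1
  -- many grid points for every bad form
  have hlow : ∀ A ∈ B, c * th' * (R : ℝ) ^ V ≤ ((G.filter fun u => P A u).card : ℝ) := by
    intro A hA
    have hA' : A ∈ Bs := by simpa [hB] using hA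
    obtain ⟨hAb, ⟨z0, hz0, hF0, v0, hv0⟩, hng⟩ := hA'
    refine (hgr H hH1 A hAb z0 hz0 hF0 v0 hv0).trans ?_
    have hsub : {u : MVar n → ℤ | (∀ v, |(u v : ℝ) / R - z0 v| ≤ 1 / 2) ∧
          |MF (fun t => (A t : ℝ)) (fun v => (u v : ℝ) / R)| ≤ th' * H} ⊆
          ((G.filter fun u => P A u : Finset (MVar n → ℤ)) : Set (MVar n → ℤ)) := by
      rintro u ⟨hu1, hu2⟩
      have hz1 : ∀ v, |(u v : ℝ) / R| ≤ 3 / 2 := by
        intro v
        have h1 := hu1 v
        have h2 := hz0.1 v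
        have h3 : (u v : ℝ) / R = ((u v : ℝ) / R - z0 v) + z0 v := by ring
        rw [h3]
        refine (abs_add_le _ _).trans ?_
        linarith
      have hz2 : ∀ i, ∃ a, 1 / 2 ≤ |((u ⟨i, a⟩ : ℤ) : ℝ) / R| := by
        intro i
        obtain ⟨a, ha⟩ := hz0.2 i
        refine ⟨a, ?_⟩
        have h1 := hu1 ⟨i, a⟩
        have h3 : z0 ⟨i, a⟩ = (u ⟨i, a⟩ : ℝ) / R - ((u ⟨i, a⟩ : ℝ) / R - z0 ⟨i, a⟩) := by ring
        have h4 : |z0 ⟨i, a⟩| ≤ |(u ⟨i, a⟩ : ℝ) / R| + |(u ⟨i, a⟩ : ℝ) / R - z0 ⟨i, a⟩| := by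
          conv_lhs => rw [h3]
          exact abs_sub _ _
        rw [ha] at h4
        linarith
      rw [Finset.coe_filter]
      refine ⟨?_, hz2, hu2, ?_⟩
      · rw [hG, Fintype.mem_piFinset]
        intro v
        rw [Finset.mem_Icc, ← abs_le]
        have h1 := hz1 v
        rw [abs_div, abs_of_pos hRpos, div_le_iff₀ hRpos] at h1
        have h2 : |(u v : ℝ)| ≤ 2 * R := by linarith
        have h3 : ((|u v| : ℤ) : ℝ) ≤ ((2 * R : ℤ) : ℝ) := by push_cast; exact h2
        exact_mod_cast h3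
      · intro a
        by_contra hcon
        push Not at hcon
        apply hng
        refine GoodR_mono i0 (2 ^ dd * (th' * H)) _ _ ?_ _ ?_
        · rw [← mul_assoc]
          exact mul_le_mul_of_nonneg_right hth'1 hHpos.le
        · refine goodR_of_approx i0 (fun t => (A t : ℝ)) (fun v => (u v : ℝ) / R) (th' * H) _
            (by positivity) (by positivity) (fun v => (hz1 v).trans (by norm_num)) hz2 hu2 a ?_
          refine le_trans (le_of_eq ?_) hcon.le
          show (2 : ℝ) ^ dd * (2 * (g / (2 ^ dd * 2) * H)) = g * H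
          have h2 : (2 : ℝ) ^ dd * 2 ≠ 0 := by positivity
          calc (2 : ℝ) ^ dd * (2 * (g / (2 ^ dd * 2) * H)) =
              ((2 : ℝ) ^ dd * 2) * (g / (2 ^ dd * 2)) * H := by ring
            _ = g * H := by rw [mul_div_cancel₀ _ h2]
    have hfin : ((G.filter fun u => P A u : Finset (MVar n → ℤ)) : Set (MVar n → ℤ)).Finite :=
      Finset.finite_toSet _
    have h1 := Set.ncard_le_ncard hsub hfin
    rw [Set.ncard_coe_finset] at h1
    exact_mod_cast h1
  -- few forms for every grid point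
  have hup : ∀ u ∈ G, ((B.filter fun A => P A u).card : ℝ) ≤
      C * g * th' * (2 * H + 1) ^ NM n d := by
    intro u _
    by_cases hu : ∀ i, ∃ a, 1 / 2 ≤ |((u ⟨i, a⟩ : ℤ) : ℝ) / R|
    · choose τ hτ using hu
      have h1 := hH τ (fun v => (u v : ℝ) / R) hτ
        ((univ.filter fun a : Fin (n i0 + 1) => a ≠ τ i0).image fun a => (⟨i0, a⟩ : MVar n)) (by
          intro v hv
          rw [Finset.mem_image] at hv
          obtain ⟨a, ha, rfl⟩ := hv
          exact (Finset.mem_filter.mp ha).2)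
      rw [card_block_off] at h1
      have h2 : ((B.filter fun A => P A u).card : ℝ) ≤
        (Set.ncard {A : MIdx n d → ℤ | A ∈ MBox n d H ∧
          |MF (fun t => (A t : ℝ)) (fun v => (u v : ℝ) / R)| ≤ th' * H ∧
          ∀ v ∈ ((univ.filter fun a : Fin (n i0 + 1) => a ≠ τ i0).image
            fun a => (⟨i0, a⟩ : MVar n)),
            |MD (fun t => (A t : ℝ)) (fun v => (u v : ℝ) / R) v| ≤ g * H} : ℝ) := by
        rw [← Set.ncard_coe_finset]
        have hfin : {A : MIdx n d → ℤ | A ∈ MBox n d H ∧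
          |MF (fun t => (A t : ℝ)) (fun v => (u v : ℝ) / R)| ≤ th' * H ∧
          ∀ v ∈ ((univ.filter fun a : Fin (n i0 + 1) => a ≠ τ i0).image
            fun a => (⟨i0, a⟩ : MVar n)),
            |MD (fun t => (A t : ℝ)) (fun v => (u v : ℝ) / R) v| ≤ g * H}.Finite :=
          MBox_finite H _
        refine Nat.cast_le.mpr (Set.ncard_le_ncard ?_ hfin)
        intro A hA
        rw [Finset.coe_filter] at hA
        obtain ⟨hAB, -, hA2, hA3⟩ := hA
        have hA' : A ∈ Bs := by simpa [hB] using hAB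
        refine ⟨hA'.1, hA2, ?_⟩
        intro v hv
        rw [Finset.mem_image] at hv
        obtain ⟨a, ha, rfl⟩ := hv
        exact hA3 a
      refine h2.trans (h1.trans ?_)
      have h3 : g ^ n i0 ≤ g := by
        calc g ^ n i0 ≤ g ^ 1 := pow_le_pow_of_le_one hg0.le hg1 hn0
          _ = g := pow_one g
      have h4 : C * g ^ n i0 ≤ C * g := mul_le_mul_of_nonneg_left h3 hC.le
      have h5' : C * g ^ n i0 * th' ≤ C * g * th' := mul_le_mul_of_nonneg_right h4 hth'0.le
      exact mul_le_mul_of_nonneg_right h5' (by positivity)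
    · have h0 : (B.filter fun A => P A u) = ∅ := by
        rw [Finset.filter_eq_empty_iff]
        intro A _ hPA
        exact hu hPA.1
      rw [h0]
      simp only [Finset.card_empty, Nat.cast_zero]
      positivity
  -- double counting
  have hdc : ∑ A ∈ B, ((G.filter fun u => P A u).card : ℝ) =
      ∑ u ∈ G, ((B.filter fun A => P A u).card : ℝ) := by
    have := Finset.sum_card_bipartiteAbove_eq_sum_card_bipartiteBelow (s := B) (t := G) P
    unfold Finset.bipartiteAbove Finset.bipartiteBelow at this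
    exact_mod_cast this
  have h1 : (B.card : ℝ) * (c * th' * (R : ℝ) ^ V) ≤
      ∑ A ∈ B, ((G.filter fun u => P A u).card : ℝ) := by
    have := Finset.card_nsmul_le_sum B (fun A => ((G.filter fun u => P A u).card : ℝ)) _ hlow
    rwa [nsmul_eq_mul] at this
  have h2 : ∑ u ∈ G, ((B.filter fun A => P A u).card : ℝ) ≤
      (G.card : ℝ) * (C * g * th' * (2 * H + 1) ^ NM n d) := by
    have := Finset.sum_le_card_nsmul G (fun u => ((B.filter fun A => P A u).card : ℝ)) _ hup
    rwa [nsmul_eq_mul] at this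
  have h3 : (B.card : ℝ) * (c * th' * (R : ℝ) ^ V) ≤
      5 ^ V * (R : ℝ) ^ V * (C * g * th' * (2 * H + 1) ^ NM n d) := by
    rw [hdc] at h1
    refine h1.trans (h2.trans (mul_le_mul_of_nonneg_right hGcard (by positivity)))
  have h4 : 5 ^ V * C * g ≤ eps * c := by
    have := hg2
    rw [le_div_iff₀ (by positivity)] at this
    linarith
  have hX : 0 < th' * (R : ℝ) ^ V := by positivity
  have h6 : (B.card : ℝ) * c ≤ eps * c * (2 * H + 1) ^ NM n d := by
    have h7 : (B.card : ℝ) * c * (th' * (R : ℝ) ^ V) ≤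
        (5 ^ V * C * g) * (2 * H + 1) ^ NM n d * (th' * (R : ℝ) ^ V) := by
      calc (B.card : ℝ) * c * (th' * (R : ℝ) ^ V) = (B.card : ℝ) * (c * th' * (R : ℝ) ^ V) := by
            ring
        _ ≤ _ := h3
        _ = _ := by ring
    have h8 := le_of_mul_le_mul_right h7 hX
    exact h8.trans (mul_le_mul_of_nonneg_right h4 (by positivity))
  have h9 : (B.card : ℝ) * c ≤ (eps * (2 * H + 1) ^ NM n d) * c := by
    calc (B.card : ℝ) * c ≤ _ := h6
      _ = _ := by ring
  exact le_of_mul_le_mul_right h9 hc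

end multi

end GenHP
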