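import Pool.Agent.Lib.MP_e426f4_ag.M.Alg
import Pool.Agent.Lib.MP_e426f4_ag.M.AlgReal
import Pool.Agent.Lib.MP_e426f4_ag.M.PadicExc
import Pool.Agent.Lib.MP_e426f4_ag.M.ApproxZero
import Pool.Agent.Lib.MP_e426f4_ag.M.RealExc
import Pool.Agent.Lib.MP_e426f4_ag.G.Basic

/-! M-Z: global assembly. -/

namespace GenHP

open Finset Filter Topology

section multi
variable {ι : Type} [Fintype ι] [DecidableEq ι] {n d : ι → ℕ}

/-- the centre of the cell `a` -/
noncomputable def mzC (R : ℕ) (a : MIdx n d → Fin R) : MIdx n d → ℝ :=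
  fun m => -1 + (2 * (a m : ℝ) + 1) / R

/-- the nonsoluble forms of a class -/
def mzS (R Q : ℕ) (a : MIdx n d → Fin R) (b : MIdx n d → Fin Q) (H : ℝ) : Set (MIdx n d → ℤ) :=
  {A | (∀ m, |(A m : ℝ) - H * mzC R a m| ≤ 1 / R * H) ∧ (∀ m, (Q : ℤ) ∣ A m - (b m : ℤ)) ∧
    ¬ MSoluble A}

/-- the class has a witness -/
def mzW (i0 : ι) (w k R Q : ℕ) (th bet : ℝ) (a : MIdx n d → Fin R) (b : MIdx n d → Fin Q) :
    Prop :=
  ∃ (H : ℕ) (A : MIdx n d → ℤ), 1 ≤ H ∧ A ∈ MBox n d H ∧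
    (∀ m, |(A m : ℝ) - H * mzC R a m| ≤ 1 / R * H) ∧
    (∀ m, (Q : ℤ) ∣ A m - (b m : ℤ)) ∧
    GoodR i0 (th * H) (bet * H) (fun t => (A t : ℝ)) ∧
    (∀ p : ℕ, p.Prime → p ≤ w → GoodP i0 p k A)

theorem mz_cell (H R : ℕ) (hH : 1 ≤ H) (hR : 1 ≤ R) (z : ℝ) (hz : |z| ≤ H) :
    ∃ a : Fin R, |z - H * (-1 + (2 * (a : ℝ) + 1) / R)| ≤ 1 / R * H := by
  have hH0 : (0 : ℝ) < H := by exact_mod_cast hH
  have hR0 : (0 : ℝ) < R := by exact_mod_cast hR
  rw [abs_le] at hz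
  set t : ℝ := (z / H + 1) * R / 2 with ht
  have ht0 : 0 ≤ t := by
    have : -1 ≤ z / H := by rw [le_div_iff₀ hH0]; linarith
    rw [ht]
    have : 0 ≤ z / H + 1 := by linarith
    positivity
  have ht1 : t ≤ R := by
    have h1 : z / H ≤ 1 := by rw [div_le_iff₀ hH0]; linarith
    rw [ht]
    nlinarith
  have hkey : ∀ a : ℝ, |t - (a + 1 / 2)| ≤ 1 / 2 → |z - H * (-1 + (2 * a + 1) / R)| ≤ 1 / R * H := by
    intro a ha
    have e : z - H * (-1 + (2 * a + 1) / R) = (2 * H / R) * (t - (a + 1 / 2)) := by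
      rw [ht]
      field_simp
      ring
    rw [e, abs_mul, abs_of_pos (by positivity : 0 < 2 * (H : ℝ) / R)]
    calc 2 * (H : ℝ) / R * |t - (a + 1 / 2)| ≤ 2 * (H : ℝ) / R * (1 / 2) :=
          mul_le_mul_of_nonneg_left ha (by positivity)
      _ = 1 / R * H := by ring
  rcases lt_or_ge t R with hlt | hge
  · refine ⟨⟨⌊t⌋₊, (Nat.floor_lt ht0).mpr hlt⟩, hkey _ ?_⟩
    have h1 := Nat.floor_le ht0
    have h2 := Nat.lt_floor_add_one t
    simp only
    rw [abs_le]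
    constructor <;> linarith
  · have htR : t = R := le_antisymm ht1 hge
    refine ⟨⟨R - 1, by omega⟩, hkey _ ?_⟩
    simp only
    rw [Nat.cast_sub hR, htR, abs_le]
    push_cast
    constructor <;> linarith

theorem mz_S_finite (R Q : ℕ) (a : MIdx n d → Fin R) (b : MIdx n d → Fin Q) (H : ℝ) :
    (mzS R Q a b H).Finite := by
  refine finite_of_abs_le _ (∑ m, |(H : ℝ) * mzC R a m| + 1 / R * H) ?_
  intro A hA m
  have h1 := hA.1 m
  have h2 : |(H : ℝ) * mzC R a m| ≤ ∑ m, |(H : ℝ) * mzC R a m| :=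
    Finset.single_le_sum (f := fun m => |(H : ℝ) * mzC R a m|) (fun _ _ => abs_nonneg _)
      (Finset.mem_univ m)
  calc |(A m : ℝ)| = |H * mzC R a m + ((A m : ℝ) - H * mzC R a m)| := by ring_nf
    _ ≤ |(H : ℝ) * mzC R a m| + |(A m : ℝ) - H * mzC R a m| := abs_add_le _ _
    _ ≤ _ := add_le_add h2 h1

theorem mz_C_abs (R : ℕ) (hR : 1 ≤ R) (a : MIdx n d → Fin R) (t : MIdx n d) :
    |mzC R a t| ≤ 1 := by
  have hR0 : (0 : ℝ) < R := by exact_mod_cast hR
  have h1 : ((a t : ℕ) : ℝ) + 1 ≤ R := by exact_mod_cast (a t).isLt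
  have h0 : (0 : ℝ) ≤ ((a t : ℕ) : ℝ) := Nat.cast_nonneg _
  unfold mzC
  have h2 : 0 ≤ (2 * ((a t : ℕ) : ℝ) + 1) / R := by positivity
  have h3 : (2 * ((a t : ℕ) : ℝ) + 1) / R ≤ 2 := by
    rw [div_le_iff₀ hR0]; linarith
  rw [abs_le]
  constructor <;> linarith

/-- transfer of a good real point from a form of the cell to its centre -/
theorem mz_goodR (i0 : ι) (A : MIdx n d → ℤ) (H : ℕ) (hH : 1 ≤ H) (AC : MIdx n d → ℝ)
    (rho rho0 bet : ℝ) (hrho : 0 < rho)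
    (h1 : ∀ m, |(A m : ℝ) - H * AC m| ≤ rho * H)
    (hr1 : (NM n d : ℝ) * rho ≤ rho0 / 2)
    (hr2 : (NM n d : ℝ) * (∑ i, d i : ℕ) * rho ≤ bet / 2)
    (hg : GoodR i0 (rho0 / 2 * H) (bet * H) (fun t => (A t : ℝ))) :
    GoodR i0 rho0 (bet / 2) AC := by
  obtain ⟨z, hz, hF, a, hD⟩ := hg
  have hH0 : (0 : ℝ) < H := by exact_mod_cast hH
  -- the difference form
  have hdiff : ∀ t, |(A t : ℝ) - H * AC t| ≤ rho * H := h1
  have e1 : MF (fun t => (A t : ℝ) - H * AC t) z = MF (fun t => (A t : ℝ)) z - H * MF AC z := by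
    rw [MF_sub, MF_smul]
  have e2 : MD (fun t => (A t : ℝ) - H * AC t) z ⟨i0, a⟩
      = MD (fun t => (A t : ℝ)) z ⟨i0, a⟩ - H * MD AC z ⟨i0, a⟩ := by
    rw [MD_sub, MD_smul]
  have b1 := MF_abs_le (fun t => (A t : ℝ) - H * AC t) z (rho * H) 1 le_rfl hdiff hz.1
  have b2 := MD_abs_le (fun t => (A t : ℝ) - H * AC t) z ⟨i0, a⟩ (rho * H) 1 le_rfl hdiff hz.1
  rw [one_pow, mul_one, e1] at b1
  rw [one_pow, mul_one, e2] at b2
  refine ⟨z, hz, ?_, a, ?_⟩
  · have h3 : |H * MF AC z| ≤ rho0 * H := by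
      calc |H * MF AC z| = |MF (fun t => (A t : ℝ)) z - (MF (fun t => (A t : ℝ)) z - H * MF AC z)| := by
            ring_nf
        _ ≤ |MF (fun t => (A t : ℝ)) z| + |MF (fun t => (A t : ℝ)) z - H * MF AC z| := abs_sub _ _
        _ ≤ rho0 / 2 * H + NM n d * (rho * H) := add_le_add hF b1
        _ = rho0 / 2 * H + (NM n d * rho) * H := by ring
        _ ≤ rho0 / 2 * H + rho0 / 2 * H := by
            have := mul_le_mul_of_nonneg_right hr1 hH0.le
            linarith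
        _ = rho0 * H := by ring
    rw [abs_mul, abs_of_pos hH0, mul_comm] at h3
    exact le_of_mul_le_mul_right h3 hH0
  · have h3 : bet / 2 * H ≤ |H * MD AC z ⟨i0, a⟩| := by
      have h4 : |MD (fun t => (A t : ℝ)) z ⟨i0, a⟩| ≤
          |H * MD AC z ⟨i0, a⟩| + |MD (fun t => (A t : ℝ)) z ⟨i0, a⟩ - H * MD AC z ⟨i0, a⟩| := by
        calc |MD (fun t => (A t : ℝ)) z ⟨i0, a⟩| = |H * MD AC z ⟨i0, a⟩ +
              (MD (fun t => (A t : ℝ)) z ⟨i0, a⟩ - H * MD AC z ⟨i0, a⟩)| := by ring_nf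
          _ ≤ _ := abs_add_le _ _
      have h5 : (NM n d : ℝ) * (∑ i, d i : ℕ) * (rho * H) ≤ bet / 2 * H := by
        have := mul_le_mul_of_nonneg_right hr2 hH0.le
        linarith
      linarith
    rw [abs_mul, abs_of_pos hH0, mul_comm] at h3
    exact le_of_mul_le_mul_left h3 hH0

theorem mz_class (i0 : ι) (C rho0 bet : ℝ) (w k R : ℕ) (hk : 1 ≤ k) (hR : 1 ≤ R)
    (hcl : ∀ rho : ℝ, 0 < rho → rho ≤ rho0 → ∀ k : ℕ, 1 ≤ k →
      ∀ A0 : MIdx n d → ℤ, (∀ p : ℕ, p.Prime → p ≤ w → GoodP i0 p k A0) →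
      ∀ AC : MIdx n d → ℝ, (∀ t, |AC t| ≤ 1) → GoodR i0 rho0 (bet / 2) AC →
      ∀ᶠ H : ℝ in atTop,
        (Set.ncard {A : MIdx n d → ℤ | (∀ t, |(A t : ℝ) - H * AC t| ≤ rho * H) ∧
          (∀ t, ((primorial w : ℤ) ^ (2 * k)) ∣ A t - A0 t) ∧ ¬ MSoluble A} : ℝ) ≤
          C / w * (2 * rho * H / (primorial w : ℝ) ^ (2 * k)) ^ NM n d)
    (hrho : (1 : ℝ) / R ≤ rho0) (hr1 : (NM n d : ℝ) * (1 / R) ≤ rho0 / 2)
    (hr2 : (NM n d : ℝ) * (∑ i, d i : ℕ) * (1 / R) ≤ bet / 2)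
    (a : MIdx n d → Fin R) (b : MIdx n d → Fin (primorial w ^ (2 * k)))
    (hW : mzW i0 w k R (primorial w ^ (2 * k)) (rho0 / 2) bet a b) :
    ∀ᶠ H : ℕ in atTop, ((mzS R (primorial w ^ (2 * k)) a b (H : ℝ)).ncard : ℝ) ≤
      C / w * (2 * (1 / R) * H / (primorial w : ℝ) ^ (2 * k)) ^ NM n d := by
  obtain ⟨H0, A, hH0, hbox, hcell, hres, hgR, hp⟩ := hW
  have hR0 : (0 : ℝ) < R := by exact_mod_cast hR
  have h := hcl (1 / R) (by positivity) hrho k hk A hp (mzC R a) (mz_C_abs R hR a)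
    (mz_goodR i0 A H0 hH0 (mzC R a) (1 / R) rho0 bet (by positivity) hcell hr1 hr2 hgR)
  refine (tendsto_natCast_atTop_atTop.eventually h).mono fun H hH => ?_
  refine le_trans ?_ hH
  have heq : mzS R (primorial w ^ (2 * k)) a b (H : ℝ) = {A' : MIdx n d → ℤ |
        (∀ m, |(A' m : ℝ) - H * mzC R a m| ≤ 1 / R * H) ∧
        (∀ m, ((primorial w : ℤ) ^ (2 * k)) ∣ A' m - A m) ∧ ¬ MSoluble A'} := by
    ext A'
    unfold mzS
    refine and_congr_right fun _ => and_congr_left fun _ => forall_congr' fun m => ?_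
    have h1 := hres m
    push_cast at h1 ⊢
    constructor
    · intro h2
      have := dvd_sub h2 h1
      simpa using this
    · intro h2
      have := dvd_add h2 h1
      simpa using this
  rw [heq]

theorem m_exceptional_small (hd : ∀ i, 1 ≤ d i) (i0 : ι) (hn0 : 1 ≤ n i0) (hcls : CLS n d i0)
    (eps : ℝ) (he : 0 < eps) : ∀ᶠ H : ℕ in atTop,
    (Set.ncard {A : MIdx n d → ℤ | A ∈ MBox n d H ∧ MELS A ∧ ¬ MSoluble A} : ℝ) ≤
      eps * (2 * H + 1) ^ NM n d := by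
  classical
  obtain ⟨C, hC, hcls⟩ := hcls
  -- w
  obtain ⟨w0, hw0⟩ := exists_nat_gt (4 * C / eps)
  set w : ℕ := max 2 w0 with hw
  have hw2 : 2 ≤ w := le_max_left _ _
  have hwpos : (0 : ℝ) < w := by
    have : 0 < w := by omega
    exact_mod_cast this
  have hwC : C / (w : ℝ) ≤ eps / 4 := by
    have h1 : (w0 : ℝ) ≤ w := by exact_mod_cast le_max_right 2 w0
    have h2 : 4 * C / eps ≤ w := by linarith
    rw [div_le_iff₀ he] at h2
    rw [div_le_iff₀ hwpos]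
    linarith
  -- bet
  obtain ⟨bet, hb, hb1, hreal⟩ := m_real_exc hd i0 hn0 (eps / 4) (by positivity)
  obtain ⟨rho0, hrho0, hrho01, hcl⟩ := hcls w hw2 (bet / 2) (by positivity) (by linarith)
  -- R
  have hNM : (0 : ℝ) < NM n d := by exact_mod_cast NM_pos n d
  obtain ⟨R, hR, hRrho, hr1, hr2⟩ : ∃ R : ℕ, 1 ≤ R ∧ (1 : ℝ) / R ≤ rho0 ∧
      (NM n d : ℝ) * (1 / R) ≤ rho0 / 2 ∧ (NM n d : ℝ) * (∑ i, d i : ℕ) * (1 / R) ≤ bet / 2 := by
    have hdd : (0 : ℝ) ≤ (∑ i, d i : ℕ) := Nat.cast_nonneg _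
    have hδ : 0 < min rho0 (min (rho0 / 2 / NM n d) (bet / 2 / (NM n d * ((∑ i, d i : ℕ) + 1)))) := by
      refine lt_min hrho0 (lt_min (by positivity) (by positivity))
    obtain ⟨m, hm⟩ := exists_nat_one_div_lt hδ
    refine ⟨m + 1, by omega, ?_, ?_, ?_⟩
    · push_cast
      exact hm.le.trans (min_le_left _ _)
    · push_cast
      have h1 : 1 / ((m : ℝ) + 1) ≤ rho0 / 2 / NM n d :=
        hm.le.trans ((min_le_right _ _).trans (min_le_left _ _))
      calc (NM n d : ℝ) * (1 / (m + 1)) ≤ NM n d * (rho0 / 2 / NM n d) :=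
            mul_le_mul_of_nonneg_left h1 hNM.le
        _ = rho0 / 2 := by field_simp
    · have h1 : 1 / ((m : ℝ) + 1) ≤ bet / 2 / (NM n d * ((∑ i, d i : ℕ) + 1)) :=
        hm.le.trans ((min_le_right _ _).trans (min_le_right _ _))
      have h2 : ((m + 1 : ℕ) : ℝ) = (m : ℝ) + 1 := by push_cast; rfl
      rw [h2]
      calc (NM n d : ℝ) * (∑ i, d i : ℕ) * (1 / (m + 1))
          ≤ NM n d * ((∑ i, d i : ℕ) + 1) * (1 / (m + 1)) := by
            apply mul_le_mul_of_nonneg_right _ (by positivity)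
            exact mul_le_mul_of_nonneg_left (by linarith) hNM.le
        _ ≤ NM n d * ((∑ i, d i : ℕ) + 1) * (bet / 2 / (NM n d * ((∑ i, d i : ℕ) + 1))) :=
            mul_le_mul_of_nonneg_left h1 (by positivity)
        _ = bet / 2 := by field_simp
  have hR0 : (0 : ℝ) < R := by exact_mod_cast hR
  -- k
  set Pr : Finset ℕ := (Finset.range (w + 1)).filter Nat.Prime with hPr
  have hpad : ∀ p : ℕ, ∃ k0 : ℕ, p ∈ Pr → ∀ k : ℕ, k0 ≤ k → ∀ᶠ H : ℕ in atTop,
      (Set.ncard {A : MIdx n d → ℤ | A ∈ MBox n d H ∧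
        (∀ l : ℕ, ∃ z : MVar n → ℤ, BUnit p z ∧ (p : ℤ) ^ (2 * l) ∣ MF A z) ∧
          ¬ GoodP i0 p k A} : ℝ) ≤ eps / (4 * (w + 1)) * (2 * H + 1) ^ NM n d := by
    intro p
    by_cases hp : p ∈ Pr
    · obtain ⟨k0, hk0⟩ := padic_exc hd i0 hn0 p (Finset.mem_filter.mp hp).2 (eps / (4 * (w + 1)))
        (by positivity)
      exact ⟨k0, fun _ => hk0⟩
    · exact ⟨0, fun h => absurd h hp⟩
  choose k0 hk0 using hpad
  set k : ℕ := 1 + ∑ p ∈ Pr, k0 p with hk
  have hk1 : 1 ≤ k := by omega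
  have hkp : ∀ p ∈ Pr, k0 p ≤ k := by
    intro p hp
    have := Finset.single_le_sum (f := k0) (fun _ _ => Nat.zero_le _) hp
    omega
  set Q : ℕ := primorial w ^ (2 * k) with hQ
  have hQpos : 0 < Q := pow_pos (primorial_pos w) _
  have hQ0 : (0 : ℝ) < Q := by exact_mod_cast hQpos
  have hQcast : (primorial w : ℝ) ^ (2 * k) = Q := by rw [hQ]; push_cast; rfl
  -- eventual bounds
  have h1 : ∀ᶠ H : ℕ in atTop, ∀ ab : (MIdx n d → Fin R) × (MIdx n d → Fin Q),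
      mzW i0 w k R Q (rho0 / 2) bet ab.1 ab.2 →
      ((mzS R Q ab.1 ab.2 (H : ℝ)).ncard : ℝ) ≤ C / w * (2 * (1 / R) * H / Q) ^ NM n d := by
    rw [Filter.eventually_all]
    intro ab
    by_cases hW : mzW i0 w k R Q (rho0 / 2) bet ab.1 ab.2
    · have := mz_class i0 C rho0 bet w k R hk1 hR hcl hRrho hr1 hr2 ab.1 ab.2 hW
      rw [hQcast] at this
      exact this.mono fun H hH _ => hH
    · exact Filter.Eventually.of_forall fun H h => absurd h hW
  have h2 := hreal (rho0 / 2) (by positivity)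
  have h3 : ∀ᶠ H : ℕ in atTop, ∀ p ∈ Pr, (Set.ncard {A : MIdx n d → ℤ | A ∈ MBox n d H ∧
        (∀ l : ℕ, ∃ z : MVar n → ℤ, BUnit p z ∧ (p : ℤ) ^ (2 * l) ∣ MF A z) ∧
          ¬ GoodP i0 p k A} : ℝ) ≤ eps / (4 * (w + 1)) * (2 * H + 1) ^ NM n d := by
    rw [Filter.eventually_all_finset]
    intro p hp
    exact hk0 p hp k (hkp p hp)
  filter_upwards [h1, h2, h3, Filter.eventually_ge_atTop 1] with H h1 h2 h3 hH
  -- the finsets
  set E : Finset (MIdx n d → ℤ) := (MBox n d H).filter (fun A => MELS A ∧ ¬ MSoluble A) with hE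
  set ER : Finset (MIdx n d → ℤ) := (MBox n d H).filter (fun A =>
      (∃ z : MVar n → ℝ, BNZ z ∧ MF (fun t => (A t : ℝ)) z = 0) ∧
        ¬ GoodR i0 (rho0 / 2 * H) (bet * H) (fun t => (A t : ℝ))) with hER
  set EP : ℕ → Finset (MIdx n d → ℤ) := fun p => (MBox n d H).filter (fun A =>
      (∀ l : ℕ, ∃ z : MVar n → ℤ, BUnit p z ∧ (p : ℤ) ^ (2 * l) ∣ MF A z) ∧
          ¬ GoodP i0 p k A) with hEP
  set GW : Finset ((MIdx n d → Fin R) × (MIdx n d → Fin Q)) :=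
    Finset.univ.filter (fun ab => mzW i0 w k R Q (rho0 / 2) bet ab.1 ab.2) with hGW
  have hfin : ∀ ab : (MIdx n d → Fin R) × (MIdx n d → Fin Q),
      (mzS R Q ab.1 ab.2 (H : ℝ)).Finite := fun ab => mz_S_finite R Q ab.1 ab.2 H
  have hsub : E ⊆ (GW.biUnion fun ab => (hfin ab).toFinset) ∪ ER ∪ (Pr.biUnion EP) := by
    intro A hA
    rw [hE, Finset.mem_filter] at hA
    obtain ⟨hAbox, ⟨hreal0, hpad0⟩, hns⟩ := hA
    by_cases hr : A ∈ ER
    · exact Finset.mem_union_left _ (Finset.mem_union_right _ hr)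
    by_cases hpp : ∃ p ∈ Pr, A ∈ EP p
    · exact Finset.mem_union_right _ (Finset.mem_biUnion.mpr hpp)
    refine Finset.mem_union_left _ (Finset.mem_union_left _ ?_)
    -- the cell
    have hAabs : ∀ m, |(A m : ℝ)| ≤ H := fun m => by
      have := mem_MBox.mp hAbox m
      exact_mod_cast this
    choose a ha using fun m => mz_cell H R hH hR (A m : ℝ) (hAabs m)
    have hbex : ∀ m, ∃ b : Fin Q, (Q : ℤ) ∣ A m - (b : ℤ) := by
      intro m
      have hQz : (0 : ℤ) < Q := by exact_mod_cast hQpos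
      have h0 : 0 ≤ A m % Q := Int.emod_nonneg _ hQz.ne'
      have h1 : A m % Q < Q := Int.emod_lt_of_pos _ hQz
      refine ⟨⟨(A m % Q).toNat, by omega⟩, ?_⟩
      simp only
      rw [Int.toNat_of_nonneg h0]
      exact Int.dvd_self_sub_emod
    choose b hb' using hbex
    refine Finset.mem_biUnion.mpr ⟨(a, b), ?_, ?_⟩
    · rw [hGW, Finset.mem_filter]
      refine ⟨Finset.mem_univ _, H, A, hH, hAbox, ha, hb', ?_, ?_⟩
      · by_contra hcon
        exact hr (Finset.mem_filter.mpr ⟨hAbox, hreal0, hcon⟩)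
      · intro p hp hpw
        have : Fact p.Prime := ⟨hp⟩
        by_contra hcon
        refine hpp ⟨p, ?_, Finset.mem_filter.mpr ⟨hAbox, fun l =>
          m_exists_approx_zero p l A (hpad0 p), hcon⟩⟩
        rw [hPr, Finset.mem_filter, Finset.mem_range]
        exact ⟨by omega, hp⟩
    · rw [Set.Finite.mem_toFinset]
      exact ⟨ha, hb', hns⟩
  have hcardE : Set.ncard {A : MIdx n d → ℤ | A ∈ MBox n d H ∧ MELS A ∧ ¬ MSoluble A} = E.card := by
    rw [← Set.ncard_coe_finset]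
    congr 1
    ext A
    simp [hE]
  have hcardR : (ER.card : ℝ) ≤ eps / 4 * (2 * H + 1) ^ NM n d := by
    refine le_trans (le_of_eq ?_) h2
    rw [← Set.ncard_coe_finset]
    congr 2
    ext A
    simp [hER]
  have hcardP : ∀ p ∈ Pr, ((EP p).card : ℝ) ≤ eps / (4 * (w + 1)) * (2 * H + 1) ^ NM n d := by
    intro p hp
    refine le_trans (le_of_eq ?_) (h3 p hp)
    rw [← Set.ncard_coe_finset]
    congr 2
    ext A
    simp [hEP]
  have hcardS : ∀ ab ∈ GW, (((hfin ab).toFinset).card : ℝ) ≤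
      C / w * (2 * (1 / R) * H / Q) ^ NM n d := by
    intro ab hab
    rw [← Set.ncard_eq_toFinset_card _ (hfin ab)]
    exact h1 ab (Finset.mem_filter.mp hab).2
  rw [hcardE]
  have hGWcard : (GW.card : ℝ) ≤ (R : ℝ) ^ NM n d * (Q : ℝ) ^ NM n d := by
    have h6 : GW.card ≤ R ^ NM n d * Q ^ NM n d := by
      refine (Finset.card_le_univ _).trans (le_of_eq ?_)
      rw [Fintype.card_prod, Fintype.card_fun, Fintype.card_fun, Fintype.card_fin,
        Fintype.card_fin]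
      rfl
    exact_mod_cast h6
  have hsumS : ((GW.biUnion fun ab => (hfin ab).toFinset).card : ℝ) ≤
      eps / 4 * (2 * H + 1) ^ NM n d := by
    calc ((GW.biUnion fun ab => (hfin ab).toFinset).card : ℝ)
        ≤ ∑ ab ∈ GW, (((hfin ab).toFinset).card : ℝ) := by exact_mod_cast Finset.card_biUnion_le
      _ ≤ ∑ ab ∈ GW, (C / w * (2 * (1 / R) * H / Q) ^ NM n d : ℝ) := Finset.sum_le_sum hcardS
      _ = (GW.card : ℝ) * (C / w * (2 * (1 / R) * H / Q) ^ NM n d) := by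
          rw [Finset.sum_const, nsmul_eq_mul]
      _ ≤ ((R : ℝ) ^ NM n d * (Q : ℝ) ^ NM n d) * (C / w * (2 * (1 / R) * H / Q) ^ NM n d) :=
          mul_le_mul_of_nonneg_right hGWcard (by positivity)
      _ = C / w * (2 * H) ^ NM n d := by
          have e1 : ((R : ℝ) ^ NM n d * (Q : ℝ) ^ NM n d) * (C / w * (2 * (1 / R) * H / Q) ^ NM n d)
              = C / w * (R * Q * (2 * (1 / R) * H / Q)) ^ NM n d := by
            rw [mul_pow, mul_pow]; ring
          rw [e1]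
          congr 2
          field_simp
      _ ≤ eps / 4 * (2 * H + 1) ^ NM n d := by
          refine mul_le_mul hwC ?_ (by positivity) (by positivity)
          exact pow_le_pow_left₀ (by positivity) (by linarith) _
  have hsumP : ((Pr.biUnion EP).card : ℝ) ≤ eps / 4 * (2 * H + 1) ^ NM n d := by
    have hPrc : (Pr.card : ℝ) ≤ (w : ℝ) + 1 := by
      have : Pr.card ≤ w + 1 := by
        refine (Finset.card_filter_le _ _).trans ?_
        rw [Finset.card_range]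
      exact_mod_cast this
    calc ((Pr.biUnion EP).card : ℝ) ≤ ∑ p ∈ Pr, ((EP p).card : ℝ) := by
          exact_mod_cast Finset.card_biUnion_le
      _ ≤ ∑ p ∈ Pr, (eps / (4 * (w + 1)) * (2 * H + 1) ^ NM n d : ℝ) := Finset.sum_le_sum hcardP
      _ = (Pr.card : ℝ) * (eps / (4 * (w + 1)) * (2 * H + 1) ^ NM n d) := by
          rw [Finset.sum_const, nsmul_eq_mul]
      _ ≤ ((w : ℝ) + 1) * (eps / (4 * (w + 1)) * (2 * H + 1) ^ NM n d) :=
          mul_le_mul_of_nonneg_right hPrc (by positivity)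
      _ = eps / 4 * (2 * H + 1) ^ NM n d := by field_simp
  have hfinal : (E.card : ℝ) ≤ ((GW.biUnion fun ab => (hfin ab).toFinset).card : ℝ) +
      (ER.card : ℝ) + ((Pr.biUnion EP).card : ℝ) := by
    have h7 : E.card ≤ (GW.biUnion fun ab => (hfin ab).toFinset).card + ER.card +
        (Pr.biUnion EP).card := by
      refine (Finset.card_le_card hsub).trans ((Finset.card_union_le _ _).trans ?_)
      exact Nat.add_le_add_right (Finset.card_union_le _ _) _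
    exact_mod_cast h7
  have hpos : 0 ≤ (2 * (H : ℝ) + 1) ^ NM n d := by positivity
  nlinarith

end multi

end GenHP
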