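import Pool.Agent.Lib.MP_e426f4_ag.M.Defs
import Pool.Agent.Lib.MP_e426f4_ag.M.Alg
import Pool.Agent.Lib.MP_e426f4_ag.M.SmoothAlg
import Pool.Agent.Lib.MP_e426f4_ag.M.AlgInd
import Pool.Agent.Lib.MP_e426f4_ag.M.SmoothOpen

/-! # GCHP, module M-D1: a block of degree one -/

namespace GenHP

open Finset Filter Topology

section multi
variable {ι : Type} [Fintype ι] [DecidableEq ι] {n d : ι → ℕ}

/-- in a block of degree one the derivatives do not depend on the block -/
private lemma lin_dmon {R : Type*} [CommRing R] (i0 : ι) (h1 : d i0 = 1) (z z' : MVar n → R)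
    (h : ∀ v : MVar n, v.1 ≠ i0 → z v = z' v) (a : Fin (n i0 + 1)) (t : MIdx n d) :
    dmon z ⟨i0, a⟩ (mex t) = dmon z' ⟨i0, a⟩ (mex t) := by
  unfold dmon
  by_cases h0 : mex t (⟨i0, a⟩ : MVar n) = 0
  · rw [h0]
    simp
  · congr 1
    refine Finset.prod_congr rfl (fun v _ => ?_)
    by_cases hv : v.1 = i0
    · obtain ⟨i, b⟩ := v
      simp only at hv
      subst hv
      have hsum : ∑ c, (t i).1 c = 1 := by rw [(t i).2, h1]
      have ha : 1 ≤ (t i).1 a := Nat.one_le_iff_ne_zero.2 h0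
      by_cases hb : b = a
      · subst hb
        have h2 : (t i).1 b ≤ 1 :=
          (Finset.single_le_sum (f := fun c => (t i).1 c) (fun _ _ => Nat.zero_le _)
            (Finset.mem_univ b)).trans (le_of_eq hsum)
        have h3 : mex t (⟨i, b⟩ : MVar n) = 1 := le_antisymm h2 ha
        rw [if_pos rfl, h3]
        simp
      · have h2 : (t i).1 b = 0 := by
          have h4 : (t i).1 a + (t i).1 b ≤ ∑ c, (t i).1 c := by
            rw [← Finset.sum_pair (f := fun c => (t i).1 c) (Ne.symm hb)]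
            exact Finset.sum_le_sum_of_subset (Finset.subset_univ _)
          omega
        have h3 : mex t (⟨i, b⟩ : MVar n) = 0 := h2
        have hne : (⟨i, b⟩ : MVar n) ≠ ⟨i, a⟩ := by
          intro hcon
          apply hb
          simpa using hcon
        rw [if_neg hne, h3]
        simp
    · rw [h v hv]

private lemma lin_MD {R : Type*} [CommRing R] (i0 : ι) (h1 : d i0 = 1) (A : MIdx n d → R)
    (z z' : MVar n → R) (h : ∀ v : MVar n, v.1 ≠ i0 → z v = z' v) (a : Fin (n i0 + 1)) :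
    MD A z ⟨i0, a⟩ = MD A z' ⟨i0, a⟩ := by
  unfold MD Dg
  refine Finset.sum_congr rfl (fun t _ => ?_)
  rw [lin_dmon i0 h1 z z' h a t]

/-- M-D1 (M/Linear.lean): a block of degree one -/
theorem msoluble_of_linear (i0 : ι) (hn0 : 1 ≤ n i0) (h1 : d i0 = 1) (A : MIdx n d → ℤ) :
    MSoluble A := by
  set B : MIdx n d → ℚ := fun t => (A t : ℚ) with hB
  let zz : ℚ → ℚ → MVar n → ℚ := fun x0 x1 v =>
    if v.1 = i0 then (if v.2.val = 0 then x0 else if v.2.val = 1 then x1 else 0)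
      else (if v.2.val = 0 then 1 else 0)
  set L0 : ℚ := MD B (zz 1 0) ⟨i0, 0⟩ with hL0
  have hlt : 1 < n i0 + 1 := by omega
  set L1 : ℚ := MD B (zz 1 0) ⟨i0, ⟨1, hlt⟩⟩ with hL1
  have hval : ∀ x0 x1, MF B (zz x0 x1) = x0 * L0 + x1 * L1 := by
    intro x0 x1
    have he := m_euler B (zz x0 x1) i0
    rw [h1, Nat.cast_one, one_mul] at he
    rw [← he, Finset.sum_eq_add (0 : Fin (n i0 + 1)) ⟨1, hlt⟩]
    · have hoff : ∀ v : MVar n, v.1 ≠ i0 → zz x0 x1 v = zz 1 0 v := by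
        intro v hv
        simp only [zz, if_neg hv]
      rw [lin_MD i0 h1 B (zz x0 x1) (zz 1 0) hoff, lin_MD i0 h1 B (zz x0 x1) (zz 1 0) hoff]
      simp [zz, hL0, hL1]
    · intro h
      have := congrArg Fin.val h
      simp at this
    · intro c _ hc
      have h2 : c.val ≠ 0 := fun h => hc.1 (Fin.ext h)
      have h3 : c.val ≠ 1 := fun h => hc.2 (Fin.ext h)
      have h4 : zz x0 x1 ⟨i0, c⟩ = 0 := by
        show (if i0 = i0 then (if c.val = 0 then x0 else if c.val = 1 then x1 else 0)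
          else (if c.val = 0 then 1 else 0)) = 0
        rw [if_pos rfl, if_neg h2, if_neg h3]
      rw [h4, zero_mul]
    · intro h; exact absurd (Finset.mem_univ _) h
    · intro h; exact absurd (Finset.mem_univ _) h
  have hBNZ : ∀ x0 x1, (x0 ≠ 0 ∨ x1 ≠ 0) → BNZ (zz x0 x1) := by
    intro x0 x1 h i
    by_cases hi : i = i0
    · subst hi
      rcases h with h | h
      · exact ⟨0, by simpa [zz] using h⟩
      · exact ⟨⟨1, hlt⟩, by simpa [zz] using h⟩
    · exact ⟨0, by simp [zz, hi]⟩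
  by_cases h : L0 = 0 ∧ L1 = 0
  · refine ⟨zz 1 0, hBNZ 1 0 (Or.inl one_ne_zero), ?_⟩
    rw [← hB, hval, h.1, h.2]
    ring
  · refine ⟨zz L1 (-L0), hBNZ _ _ ?_, ?_⟩
    · by_cases h2 : L1 = 0
      · right
        intro h3
        exact h ⟨neg_eq_zero.1 h3, h2⟩
      · exact Or.inl h2
    · rw [← hB, hval]
      ring

/-- M-D1 (M/Linear.lean) -/
theorem positive_of_linear [Nonempty ι] (hd : ∀ i, 1 ≤ d i) (i0 : ι) (hn0 : 1 ≤ n i0)
    (h1 : d i0 = 1) : ∃ c : ℝ, 0 < c ∧ ∀ᶠ H : ℕ in atTop,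
    c * (2 * H + 1) ^ NM n d ≤
      (Set.ncard {A : MIdx n d → ℤ | A ∈ MBox n d H ∧ MSmooth A ∧ MSoluble A} : ℝ) := by
  classical
  obtain ⟨AS, hAS, hnear⟩ := exists_algInd_near (fun _ : MIdx n d => (0 : ℝ)) (1 / 2) (by norm_num)
  obtain ⟨del0, hdel0, hopen⟩ := smooth_open AS (smooth_of_algInd hd AS hAS)
  set del : ℝ := min del0 (1 / 2) with hdel
  have hdelpos : 0 < del := lt_min hdel0 (by norm_num)
  refine ⟨(del / 3) ^ NM n d, by positivity, ?_⟩
  filter_upwards [eventually_ge_atTop (⌈1 / del⌉₊ + 1)] with H hH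
  have hH1 : (1 : ℝ) ≤ H := by
    have : 1 ≤ H := by omega
    exact_mod_cast this
  have hHdel : 1 ≤ del * H := by
    have h2 : (1 / del : ℝ) ≤ H := by
      refine (Nat.le_ceil _).trans ?_
      exact_mod_cast (Nat.le_succ _).trans hH
    rw [div_le_iff₀ hdelpos] at h2
    linarith
  have hHpos : (0 : ℝ) < H := by linarith
  let S : Finset (MIdx n d → ℤ) := Fintype.piFinset fun t =>
    Icc ⌈(H : ℝ) * (AS t - del)⌉ ⌊(H : ℝ) * (AS t + del)⌋
  have hScard : (del / 3) ^ NM n d * (2 * H + 1) ^ NM n d ≤ (S.card : ℝ) := by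
    rw [Fintype.card_piFinset]
    push_cast
    rw [← mul_pow]
    have h2 : (del / 3 * (2 * (H : ℝ) + 1)) ^ NM n d =
        ∏ _t : MIdx n d, (del / 3 * (2 * (H : ℝ) + 1)) := by
      rw [Finset.prod_const, Finset.card_univ]
      rfl
    rw [h2]
    refine Finset.prod_le_prod (fun t _ => by positivity) (fun t _ => ?_)
    have h3 : (⌊(H : ℝ) * (AS t + del)⌋ + 1 - ⌈(H : ℝ) * (AS t - del)⌉ : ℤ) ≤
        ((Icc ⌈(H : ℝ) * (AS t - del)⌉ ⌊(H : ℝ) * (AS t + del)⌋).card : ℤ) := by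
      rw [Int.card_Icc]
      exact Int.self_le_toNat _
    have h4 : ((⌊(H : ℝ) * (AS t + del)⌋ : ℝ) + 1 - (⌈(H : ℝ) * (AS t - del)⌉ : ℝ)) ≤
        ((Icc ⌈(H : ℝ) * (AS t - del)⌉ ⌊(H : ℝ) * (AS t + del)⌋).card : ℝ) := by
      exact_mod_cast h3
    refine le_trans ?_ h4
    have h5 := Int.lt_floor_add_one ((H : ℝ) * (AS t + del))
    have h6 := Int.ceil_lt_add_one ((H : ℝ) * (AS t - del))
    nlinarith
  refine hScard.trans ?_
  rw [← Set.ncard_coe_finset]
  have hfin : {A : MIdx n d → ℤ | A ∈ MBox n d H ∧ MSmooth A ∧ MSoluble A}.Finite :=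
    MBox_finite H _
  refine Nat.cast_le.2 (Set.ncard_le_ncard ?_ hfin)
  intro A hA
  rw [mem_coe, Fintype.mem_piFinset] at hA
  have hA' : ∀ t, |(A t : ℝ) / H - AS t| ≤ del := by
    intro t
    have h2 := Finset.mem_Icc.1 (hA t)
    have h3 : (H : ℝ) * (AS t - del) ≤ A t := Int.ceil_le.1 h2.1
    have h4 : (A t : ℝ) ≤ (H : ℝ) * (AS t + del) := Int.le_floor.1 h2.2
    rw [abs_le]
    constructor
    · rw [neg_le_sub_iff_le_add, ← sub_le_iff_le_add, le_div_iff₀ hHpos]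
      linarith
    · rw [sub_le_iff_le_add, div_le_iff₀ hHpos]
      linarith
  refine ⟨?_, ?_, msoluble_of_linear i0 hn0 h1 A⟩
  · rw [mem_MBox]
    intro t
    have h2 := hA' t
    have h3 := hnear t
    rw [sub_zero] at h3
    have h4 : del ≤ 1 / 2 := min_le_right _ _
    have h5 : |(A t : ℝ) / H| ≤ 1 := by
      have h6 := abs_le.1 h2
      have h7 := abs_le.1 h3
      rw [abs_le]
      constructor <;> linarith
    rw [abs_div, abs_of_pos hHpos, div_le_one hHpos] at h5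
    exact_mod_cast h5
  · have hR := hopen (fun t => (A t : ℝ) / H) (fun t => (hA' t).trans (min_le_left _ _))
    intro z hz
    obtain ⟨v, hv⟩ := hR z hz
    refine ⟨v, fun h0 => hv ?_⟩
    have h2 := MD_smul ((H : ℂ)⁻¹) (fun t => (A t : ℂ)) z v
    rw [h0, mul_zero] at h2
    rw [← h2]
    congr 1
    funext t
    push_cast
    rw [div_eq_inv_mul]

end multi

end GenHP
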