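import Pool.Agent.Lib.MP_e426f4_ag.M.ClsOfBlock
import Pool.Agent.Lib.MP_e426f4_ag.M.Global
import Pool.Agent.Lib.MP_e426f4_ag.M.PosProp
import Pool.Agent.Lib.MP_e426f4_ag.M.Linear
import Pool.Agent.Lib.MP_e426f4_ag.M.Els
import Pool.Agent.Lib.MP_e426f4_ag.C.ClsOfConic

/-! Final theorem of GCHP: one hundred per cent Hasse principle for rationally connected
hypersurfaces in products of projective spaces. -/

namespace GenHP

open Finset Filter Topology

section multi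
variable {ι : Type} [Fintype ι] [DecidableEq ι] {n d : ι → ℕ}

theorem final (hn : ∀ i, 1 ≤ n i) (hd : ∀ i, 1 ≤ d i) (i0 : ι) (h0 : d i0 ≤ n i0)
    (h1 : ¬ (n i0 = 2 ∧ d i0 = 2 ∧ ∀ i, i = i0)) :
    (∃ c : ℝ, 0 < c ∧ ∀ᶠ H : ℕ in atTop, c * (2 * H + 1) ^ NM n d ≤
      (Set.ncard {A : MIdx n d → ℤ | A ∈ MBox n d H ∧ MSmooth A ∧ MSoluble A} : ℝ)) ∧
    (∀ eps : ℝ, 0 < eps → ∀ᶠ H : ℕ in atTop,
      (Set.ncard {A : MIdx n d → ℤ | A ∈ MBox n d H ∧ MELS A ∧ ¬ MSoluble A} : ℝ) ≤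
        eps * (2 * H + 1) ^ NM n d) := by
  have hne : Nonempty ι := ⟨i0⟩
  rcases Nat.lt_or_ge 1 (d i0) with h2 | h2
  · have hcls : CLS n d i0 := by
      rcases Nat.lt_or_ge 2 (n i0) with h3 | h3
      · exact cls_of_block hd i0 h3 h2 h0
      · have hn2 : n i0 = 2 := by omega
        have hd2 : d i0 = 2 := by omega
        obtain ⟨i1, hi1⟩ : ∃ i1, i1 ≠ i0 := by
          by_contra hcon
          push Not at hcon
          exact h1 ⟨hn2, hd2, hcon⟩
        exact cls_of_conic hd hn i0 i1 hi1 hn2 hd2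
    exact ⟨m_positive_proportion hd i0 (hn i0) h2 hcls, fun eps he =>
      m_exceptional_small hd i0 (hn i0) hcls eps he⟩
  · have hd1 : d i0 = 1 := le_antisymm h2 (hd i0)
    refine ⟨positive_of_linear hd i0 (hn i0) hd1, fun eps he => Filter.Eventually.of_forall
      fun H => ?_⟩
    have : {A : MIdx n d → ℤ | A ∈ MBox n d H ∧ MELS A ∧ ¬ MSoluble A} = ∅ := by
      ext A
      simp only [Set.mem_setOf_eq, Set.mem_empty_iff_false, iff_false]
      exact fun h => h.2.2 (msoluble_of_linear i0 (hn i0) hd1 A)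
    rw [this]
    simp only [Set.ncard_empty, Nat.cast_zero]
    positivity

end multi

end GenHP
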