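import Pool.Agent.Lib.MP_e426f4_ag.M.Defs
import Pool.Agent.Lib.MP_e426f4_ag.M.Alg

/-! Coefficient vectors and multihomogeneous polynomials. -/

namespace GenHP

open Finset MvPolynomial

section multi
variable {ι : Type} [Fintype ι] [DecidableEq ι] {n d : ι → ℕ}

/-- the exponent vector of `t` as a finitely supported function -/
noncomputable def mexpo (t : MIdx n d) : MVar n →₀ ℕ := Finsupp.equivFunOnFinite.symm (mex t)

omit [DecidableEq ι] in
@[simp] theorem mexpo_apply (t : MIdx n d) (v : MVar n) : mexpo t v = mex t v := rfl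

/-- the polynomial with coefficient vector `A` -/
noncomputable def mPoly (A : MIdx n d → ℤ) : MvPolynomial (MVar n) ℤ :=
  ∑ t, monomial (mexpo t) (A t)

omit [DecidableEq ι] in
theorem mexpo_injective : Function.Injective (mexpo : MIdx n d → (MVar n →₀ ℕ)) := by
  intro s t h
  funext i
  apply Subtype.ext
  funext a
  exact DFunLike.congr_fun h ⟨i, a⟩

theorem coeff_mPoly (A : MIdx n d → ℤ) (t : MIdx n d) : (mPoly A).coeff (mexpo t) = A t := by
  classical
  rw [mPoly, coeff_sum]
  simp only [coeff_monomial]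
  rw [Finset.sum_eq_single t]
  · simp
  · intro s _ hs
    rw [if_neg]
    intro h
    exact hs (mexpo_injective h)
  · simp

theorem coeff_mPoly_of_ne (A : MIdx n d → ℤ) (m : MVar n →₀ ℕ) (hm : ∀ t : MIdx n d, mexpo t ≠ m) :
    (mPoly A).coeff m = 0 := by
  classical
  rw [mPoly, coeff_sum]
  simp only [coeff_monomial]
  exact Finset.sum_eq_zero fun t _ => if_neg (hm t)

theorem mPoly_injective : Function.Injective (mPoly : (MIdx n d → ℤ) → MvPolynomial (MVar n) ℤ) := by
  intro A B h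
  funext t
  rw [← coeff_mPoly A t, h, coeff_mPoly]

/-- multihomogeneous polynomials of multidegree `d` -/
def IsMultiHom (d : ι → ℕ) (f : MvPolynomial (MVar n) ℤ) : Prop :=
  ∀ m, f.coeff m ≠ 0 → ∀ i, ∑ a, m ⟨i, a⟩ = d i

omit [DecidableEq ι] in
theorem exists_mexpo (m : MVar n →₀ ℕ) (hm : ∀ i, ∑ a, m ⟨i, a⟩ = d i) :
    ∃ t : MIdx n d, mexpo t = m := by
  refine ⟨fun i => ⟨fun a => m ⟨i, a⟩, hm i⟩, ?_⟩
  ext ⟨i, a⟩
  rfl

theorem mPoly_isMultiHom (A : MIdx n d → ℤ) : IsMultiHom d (mPoly A) := by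
  intro m hm i
  by_cases h : ∃ t : MIdx n d, mexpo t = m
  · obtain ⟨t, rfl⟩ := h
    exact (t i).2
  · push Not at h
    exact absurd (coeff_mPoly_of_ne A m h) hm

theorem exists_mPoly (f : MvPolynomial (MVar n) ℤ) (hf : IsMultiHom d f) :
    ∃ A : MIdx n d → ℤ, mPoly A = f := by
  refine ⟨fun t => f.coeff (mexpo t), ?_⟩
  ext m
  by_cases hm : ∃ t : MIdx n d, mexpo t = m
  · obtain ⟨t, rfl⟩ := hm
    rw [coeff_mPoly]
  · push Not at hm
    rw [coeff_mPoly_of_ne _ _ hm]
    by_contra h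
    obtain ⟨t, ht⟩ := exists_mexpo (d := d) m (hf m fun h0 => h h0.symm)
    exact hm t ht

theorem mPoly_mem (A : MIdx n d → ℤ) (H : ℕ) :
    (IsMultiHom d (mPoly A) ∧ ∀ m, |(mPoly A).coeff m| ≤ H) ↔ A ∈ MBox n d H := by
  rw [mem_MBox]
  constructor
  · intro h t
    have := h.2 (mexpo t)
    rwa [coeff_mPoly] at this
  · intro h
    refine ⟨mPoly_isMultiHom A, fun m => ?_⟩
    by_cases hm : ∃ t : MIdx n d, mexpo t = m
    · obtain ⟨t, rfl⟩ := hm
      rw [coeff_mPoly]
      exact h t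
    · push Not at hm
      rw [coeff_mPoly_of_ne _ _ hm]
      simp

omit [DecidableEq ι] in
theorem prod_mexpo {R : Type*} [CommRing R] (z : MVar n → R) (t : MIdx n d) :
    ((mexpo t).prod fun i k => z i ^ k) = mon z (mex t) := by
  rw [Finsupp.prod_fintype _ _ (fun i => pow_zero _)]
  rfl

theorem aeval_mPoly {R : Type*} [CommRing R] (A : MIdx n d → ℤ) (z : MVar n → R) :
    aeval z (mPoly A) = MF (fun t => (A t : R)) z := by
  simp only [mPoly, map_sum, aeval_monomial, prod_mexpo, MF, Fg]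
  simp

theorem aeval_pderiv_mexpo {R : Type*} [CommRing R] (z : MVar n → R) (t : MIdx n d) (v : MVar n)
    (a : ℤ) :
    aeval z (pderiv v (monomial (mexpo t) a)) = (a : R) * dmon z v (mex t) := by
  rw [pderiv_monomial, aeval_monomial, Finsupp.prod_fintype _ _ (fun i => pow_zero _)]
  simp only [dmon, mexpo_apply]
  rw [← mul_assoc]
  congr 1
  · simp
  · refine Finset.prod_congr rfl fun u _ => ?_
    congr 1
    rw [Finsupp.tsub_apply, mexpo_apply, Finsupp.single_apply]
    by_cases h : u = v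
    · subst h; simp
    · rw [if_neg h, if_neg (fun h' => h h'.symm)]; simp

theorem aeval_pderiv_mPoly {R : Type*} [CommRing R] (A : MIdx n d → ℤ) (z : MVar n → R)
    (v : MVar n) : aeval z (pderiv v (mPoly A)) = MD (fun t => (A t : R)) z v := by
  simp only [mPoly, map_sum, aeval_pderiv_mexpo, MD, Dg]

end multi

end GenHP
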