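import Pool.Agent.Lib.MP_e426f4_ag.M.Defs
import Pool.Agent.Lib.MP_e426f4_ag.M.Alg
import Pool.Agent.Lib.MP_e426f4_ag.M.AlgReal
import Pool.Agent.Lib.MP_e426f4_ag.M.CondR

/-! # GCHP, module M-X1R: forms with an almost singular real zero -/

namespace GenHP

open Finset Filter Topology

section multi
variable {ι : Type} [Fintype ι] [DecidableEq ι] {n d : ι → ℕ}

/-- truncation towards zero -/
private lemma x1r_trunc (y : ℝ) : ∃ m : ℤ, |(m : ℝ)| ≤ |y| ∧ |y - m| ≤ 1 := by
  rcases le_or_gt 0 y with hy | hy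
  · refine ⟨⌊y⌋, ?_, ?_⟩
    · rw [abs_of_nonneg hy, abs_of_nonneg (by exact_mod_cast Int.floor_nonneg.2 hy)]
      exact Int.floor_le y
    · rw [abs_le]
      constructor <;> linarith [Int.floor_le y, Int.lt_floor_add_one y]
  · refine ⟨⌈y⌉, ?_, ?_⟩
    · rw [abs_of_neg hy]
      have h1 : ⌈y⌉ ≤ 0 := Int.ceil_le.2 (by simpa using hy.le)
      have h2 : (⌈y⌉ : ℝ) ≤ 0 := by exact_mod_cast h1
      rw [abs_of_nonpos h2]
      linarith [Int.le_ceil y]
    · rw [abs_le]
      constructor <;> linarith [Int.le_ceil y, Int.ceil_lt_add_one y]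

/-- the net of the normalised points: one coordinate `± 1` in every block, the others multiples of
`bet` -/
private noncomputable def x1rNet (R : ℤ) (τ : ∀ i, Fin (n i + 1)) : Finset (MVar n → ℤ) :=
  Fintype.piFinset fun v : MVar n => if v.2 = τ v.1 then ({1, -1} : Finset ℤ) else Icc (-R) R

/-- the coordinates different from the chosen ones -/
private def x1rU (τ : ∀ i, Fin (n i + 1)) : Finset (MVar n) :=
  univ.filter fun v : MVar n => v.2 ≠ τ v.1

private noncomputable def x1rPt (bet : ℝ) (τ : ∀ i, Fin (n i + 1)) (m : MVar n → ℤ) :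
    MVar n → ℝ :=
  fun v => if v.2 = τ v.1 then (m v : ℝ) else bet * m v

private lemma x1r_net_card (bet : ℝ) (hb : 0 < bet) (hb1 : bet ≤ 1) (τ : ∀ i, Fin (n i + 1)) :
    ((x1rNet ⌊1 / bet⌋ τ).card : ℝ) ≤ 2 ^ Fintype.card (MVar n) * (3 / bet) ^ (x1rU τ).card := by
  classical
  set R : ℤ := ⌊1 / bet⌋ with hR
  have hRnn : 0 ≤ R := Int.floor_nonneg.2 (by positivity)
  have h1 : (x1rNet R τ).card ≤
      2 ^ Fintype.card (MVar n) * ((2 * R + 1).toNat) ^ (x1rU τ).card := by
    unfold x1rNet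
    rw [Fintype.card_piFinset]
    have h2 : ∀ v : MVar n, (if v.2 = τ v.1 then ({1, -1} : Finset ℤ) else Icc (-R) R).card ≤
        2 * (if v.2 = τ v.1 then 1 else (2 * R + 1).toNat) := by
      intro v
      split_ifs with hv
      · exact card_le_two
      · rw [Int.card_Icc]
        have : (R + 1 - -R).toNat = (2 * R + 1).toNat := by congr 1; ring
        rw [this]
        omega
    refine (Finset.prod_le_prod' (fun v _ => h2 v)).trans ?_
    rw [Finset.prod_mul_distrib, Finset.prod_const, Finset.card_univ]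
    refine Nat.mul_le_mul_left _ (le_of_eq ?_)
    rw [Finset.prod_ite, Finset.prod_const_one, one_mul, Finset.prod_const]
    rfl
  have h2 : (((2 * R + 1).toNat : ℕ) : ℝ) ≤ 3 / bet := by
    have h3 : (((2 * R + 1).toNat : ℕ) : ℤ) = 2 * R + 1 := Int.toNat_of_nonneg (by omega)
    have h4 : (((2 * R + 1).toNat : ℕ) : ℝ) = 2 * (R : ℝ) + 1 := by
      exact_mod_cast congrArg (fun n : ℤ => (n : ℝ)) h3
    rw [h4]
    have h5 : (R : ℝ) ≤ 1 / bet := Int.floor_le _
    have h6 : 1 ≤ 1 / bet := by rw [le_div_iff₀ hb]; linarith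
    have h7 : 3 / bet = 3 * (1 / bet) := by ring
    rw [h7]
    linarith
  calc ((x1rNet R τ).card : ℝ)
      ≤ ((2 ^ Fintype.card (MVar n) * ((2 * R + 1).toNat) ^ (x1rU τ).card : ℕ) : ℝ) := by
        exact_mod_cast h1
    _ = 2 ^ Fintype.card (MVar n) * (((2 * R + 1).toNat : ℕ) : ℝ) ^ (x1rU τ).card := by
        push_cast; ring
    _ ≤ 2 ^ Fintype.card (MVar n) * (3 / bet) ^ (x1rU τ).card :=
        mul_le_mul_of_nonneg_left (pow_le_pow_left₀ (by positivity) h2 _) (by positivity)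

/-- the point of the net near a normalised point -/
private lemma x1r_near (bet : ℝ) (hb : 0 < bet) (z : MVar n → ℝ) (hz : BNorm z) :
    ∃ (τ : ∀ i, Fin (n i + 1)) (m : MVar n → ℤ), m ∈ x1rNet ⌊1 / bet⌋ τ ∧
      (∀ v, |x1rPt bet τ m v - z v| ≤ bet) := by
  classical
  obtain ⟨hz1, hz2⟩ := hz
  choose τ hτ using hz2
  choose mk hmk1 hmk2 using fun v => x1r_trunc (z v / bet)
  have hs : ∀ i, ∃ s : ℤ, (s = 1 ∨ s = -1) ∧ (s : ℝ) = z ⟨i, τ i⟩ := by
    intro i
    rcases (abs_eq (by norm_num : (0 : ℝ) ≤ 1)).1 (hτ i) with h | h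
    · exact ⟨1, Or.inl rfl, by simp [h]⟩
    · exact ⟨-1, Or.inr rfl, by simp [h]⟩
  choose s hs1 hs2 using hs
  refine ⟨τ, fun v => if v.2 = τ v.1 then s v.1 else mk v, ?_, ?_⟩
  · unfold x1rNet
    rw [Fintype.mem_piFinset]
    intro v
    by_cases hv : v.2 = τ v.1
    · rw [if_pos hv, if_pos hv]
      simp only [mem_insert, mem_singleton]
      exact hs1 v.1
    · rw [if_neg hv, if_neg hv, Finset.mem_Icc]
      have h1 := hmk1 v
      have h2 : |z v / bet| ≤ 1 / bet := by
        rw [abs_div, abs_of_pos hb]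
        exact div_le_div_of_nonneg_right (hz1 v) hb.le
      have h3 := abs_le.1 (h1.trans h2)
      constructor
      · have : -mk v ≤ ⌊1 / bet⌋ := Int.le_floor.2 (by push_cast; linarith [h3.1])
        linarith
      · exact Int.le_floor.2 h3.2
  · intro v
    by_cases hv : v.2 = τ v.1
    · simp only [x1rPt, if_pos hv]
      rw [hs2 v.1]
      have : v = ⟨v.1, τ v.1⟩ := by
        obtain ⟨i, a⟩ := v
        simp only at hv
        rw [hv]
      rw [← this, sub_self, abs_zero]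
      exact hb.le
    · simp only [x1rPt, if_neg hv]
      have h1 := hmk2 v
      have h2 : bet * (mk v : ℝ) - z v = -(bet * (z v / bet - mk v)) := by
        field_simp
        ring
      rw [h2, abs_neg, abs_mul, abs_of_pos hb]
      calc bet * |z v / bet - mk v| ≤ bet * 1 := mul_le_mul_of_nonneg_left h1 hb.le
        _ = bet := mul_one _

theorem real_exc1 (hd : ∀ i, 1 ≤ d i) : ∃ C : ℝ, 0 < C ∧ ∀ bet : ℝ, 0 < bet → bet ≤ 1 →
    ∀ᶠ H : ℕ in atTop,
      (Set.ncard {A : MIdx n d → ℤ | A ∈ MBox n d H ∧ ∃ z : MVar n → ℝ, BNorm z ∧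
        MF (fun t => (A t : ℝ)) z = 0 ∧ ∀ v, |MD (fun t => (A t : ℝ)) z v| < bet * H} : ℝ) ≤
        C * bet ^ 2 * (2 * H + 1) ^ NM n d := by
  classical
  obtain ⟨Cr, hCr, hcr⟩ := cond_r (n := n) (d := d) hd
  have hNM : (0 : ℝ) < NM n d := by exact_mod_cast NM_pos n d
  set dd : ℕ := ∑ i, d i with hdd
  set VV : ℕ := Fintype.card (MVar n) with hVV
  set C1 : ℝ := 1 + NM n d * dd * 4 ^ dd with hC1
  set C2 : ℝ := VV + NM n d * 4 ^ dd with hC2
  have hC1pos : 1 ≤ C1 := by
    rw [hC1]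
    have : 0 ≤ (NM n d : ℝ) * dd * 4 ^ dd := by positivity
    linarith
  have hC2pos : 0 < C2 := by rw [hC2]; positivity
  set TT : ℕ := Fintype.card (∀ i, Fin (n i + 1)) with hTT
  have hTTpos : (0 : ℝ) < TT := by
    have : 0 < TT := Fintype.card_pos
    exact_mod_cast this
  refine ⟨TT * (2 ^ VV * (3 * C1) ^ VV * Cr * C2), by positivity, ?_⟩
  intro bet hb hb1
  filter_upwards [hcr (C1 * bet) (C2 * bet ^ 2) (by positivity) (by positivity)] with H hH
  let SS : (∀ i, Fin (n i + 1)) → (MVar n → ℤ) → Finset (MIdx n d → ℤ) := fun τ m =>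
    (MBox n d H).filter fun A =>
      |MF (fun t => (A t : ℝ)) (x1rPt bet τ m)| ≤ C2 * bet ^ 2 * H ∧
      ∀ v ∈ x1rU τ, |MD (fun t => (A t : ℝ)) (x1rPt bet τ m) v| ≤ C1 * bet * H
  have hSS : ∀ τ, ∀ m ∈ x1rNet ⌊1 / bet⌋ τ, ((SS τ m).card : ℝ) ≤
      Cr * (C1 * bet) ^ (x1rU τ).card * (C2 * bet ^ 2) * (2 * H + 1) ^ NM n d := by
    intro τ m hm
    unfold x1rNet at hm
    rw [Fintype.mem_piFinset] at hm
    have h1 := hH τ (x1rPt bet τ m) (by
      intro i
      have hmi := hm ⟨i, τ i⟩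
      rw [if_pos rfl] at hmi
      simp only [mem_insert, mem_singleton] at hmi
      simp only [x1rPt, if_true]
      rcases hmi with h | h
      · rw [h]; norm_num
      · rw [h]; norm_num) (x1rU τ) (by
      intro v hv
      exact (mem_filter.1 hv).2)
    have h2 : ((SS τ m).card : ℝ) = (Set.ncard {A : MIdx n d → ℤ | A ∈ MBox n d H ∧
        |MF (fun t => (A t : ℝ)) (x1rPt bet τ m)| ≤ C2 * bet ^ 2 * H ∧
        ∀ v ∈ x1rU τ, |MD (fun t => (A t : ℝ)) (x1rPt bet τ m) v| ≤ C1 * bet * H} : ℝ) := by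
      rw [← Set.ncard_coe_finset]
      congr 2
      ext A
      simp [SS]
    rw [h2]
    exact h1
  let U : Finset (MIdx n d → ℤ) := univ.biUnion fun τ => (x1rNet ⌊1 / bet⌋ τ).biUnion fun m =>
    SS τ m
  have hsub : {A : MIdx n d → ℤ | A ∈ MBox n d H ∧ ∃ z : MVar n → ℝ, BNorm z ∧
        MF (fun t => (A t : ℝ)) z = 0 ∧ ∀ v, |MD (fun t => (A t : ℝ)) z v| < bet * H} ⊆
      (U : Set (MIdx n d → ℤ)) := by
    rintro A ⟨hA, z, hz, hF0, hD⟩
    have hAR : ∀ t, |((A t : ℤ) : ℝ)| ≤ H := by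
      intro t
      have := mem_MBox.1 hA t
      exact_mod_cast this
    obtain ⟨τ, m, hm, hclose⟩ := x1r_near bet hb z hz
    rw [mem_coe]
    simp only [U, mem_biUnion, mem_univ, true_and]
    refine ⟨τ, m, hm, ?_⟩
    rw [mem_filter]
    have hshift : (fun v => z v + (x1rPt bet τ m v - z v)) = x1rPt bet τ m := by
      funext v; ring
    have hH0 : (0 : ℝ) ≤ H := Nat.cast_nonneg H
    refine ⟨hA, ?_, fun v _ => ?_⟩
    · have h1 := MF_taylor (fun t => (A t : ℝ)) z (fun v => x1rPt bet τ m v - z v) H 1 bet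
        le_rfl hb.le hb1 hAR hz.1 hclose
      rw [hshift, hF0, sub_zero, one_pow, mul_one] at h1
      have h3 : |∑ v, MD (fun t => (A t : ℝ)) z v * (x1rPt bet τ m v - z v)| ≤
          VV * (bet ^ 2 * H) := by
        calc |∑ v, MD (fun t => (A t : ℝ)) z v * (x1rPt bet τ m v - z v)|
            ≤ ∑ v, |MD (fun t => (A t : ℝ)) z v * (x1rPt bet τ m v - z v)| :=
              Finset.abs_sum_le_sum_abs _ _
          _ ≤ ∑ _v : MVar n, (bet * H) * bet := by
              refine Finset.sum_le_sum fun v _ => ?_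
              rw [abs_mul]
              exact mul_le_mul (hD v).le (hclose v) (abs_nonneg _) (by positivity)
          _ = VV * (bet ^ 2 * H) := by
              rw [Finset.sum_const, card_univ, nsmul_eq_mul]
              ring
      have h6 := abs_le.1 h1
      have h7 := abs_le.1 h3
      have h8 : C2 * bet ^ 2 * H = VV * (bet ^ 2 * H) + NM n d * 4 ^ dd * H * bet ^ 2 := by
        rw [hC2]; ring
      rw [h8, abs_le]
      constructor <;> linarith
    · have h1 := MD_taylor (fun t => (A t : ℝ)) z (fun v => x1rPt bet τ m v - z v) v H 1 bet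
        le_rfl hb.le hb1 hAR hz.1 hclose
      rw [hshift, one_pow, mul_one] at h1
      have h6 := abs_le.1 h1
      have h7 := abs_lt.1 (hD v)
      have h8 : C1 * bet * H = bet * H + NM n d * dd * 4 ^ dd * H * bet := by
        rw [hC1]; ring
      rw [h8, abs_le]
      constructor <;> linarith
  have h1 : (Set.ncard {A : MIdx n d → ℤ | A ∈ MBox n d H ∧ ∃ z : MVar n → ℝ, BNorm z ∧
        MF (fun t => (A t : ℝ)) z = 0 ∧ ∀ v, |MD (fun t => (A t : ℝ)) z v| < bet * H}) ≤
      U.card := by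
    rw [← Set.ncard_coe_finset]
    exact Set.ncard_le_ncard hsub (U.finite_toSet)
  have h2 : (U.card : ℝ) ≤ ∑ _τ : (∀ i, Fin (n i + 1)),
      (2 ^ VV * (3 * C1) ^ VV * Cr * C2) * bet ^ 2 * (2 * H + 1) ^ NM n d := by
    calc (U.card : ℝ) ≤ ((∑ τ : (∀ i, Fin (n i + 1)),
          ((x1rNet ⌊1 / bet⌋ τ).biUnion fun m => SS τ m).card : ℕ) : ℝ) := by
          exact_mod_cast card_biUnion_le
      _ = ∑ τ : (∀ i, Fin (n i + 1)),
          ((((x1rNet ⌊1 / bet⌋ τ).biUnion fun m => SS τ m).card : ℕ) : ℝ) := by push_cast; rfl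
      _ ≤ _ := by
          refine Finset.sum_le_sum fun τ _ => ?_
          have hUV : (x1rU τ : Finset (MVar n)).card ≤ VV := Finset.card_le_univ _
          calc ((((x1rNet ⌊1 / bet⌋ τ).biUnion fun m => SS τ m).card : ℕ) : ℝ)
              ≤ ((∑ m ∈ x1rNet ⌊1 / bet⌋ τ, (SS τ m).card : ℕ) : ℝ) := by
                exact_mod_cast card_biUnion_le
            _ = ∑ m ∈ x1rNet ⌊1 / bet⌋ τ, ((SS τ m).card : ℝ) := by push_cast; rfl
            _ ≤ ∑ _m ∈ x1rNet ⌊1 / bet⌋ τ, (Cr * (C1 * bet) ^ (x1rU τ).card * (C2 * bet ^ 2) *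
                  (2 * (H : ℝ) + 1) ^ NM n d) :=
                Finset.sum_le_sum fun m hm => hSS τ m hm
            _ = (x1rNet ⌊1 / bet⌋ τ).card * (Cr * (C1 * bet) ^ (x1rU τ).card * (C2 * bet ^ 2) *
                  (2 * (H : ℝ) + 1) ^ NM n d) := by
                rw [Finset.sum_const, nsmul_eq_mul]
            _ ≤ (2 ^ VV * (3 / bet) ^ (x1rU τ).card) *
                (Cr * (C1 * bet) ^ (x1rU τ).card * (C2 * bet ^ 2) *
                  (2 * (H : ℝ) + 1) ^ NM n d) :=
                mul_le_mul_of_nonneg_right (x1r_net_card bet hb hb1 τ) (by positivity)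
            _ = (2 ^ VV * (3 * C1) ^ (x1rU τ).card * Cr * C2) * bet ^ 2 *
                  (2 * (H : ℝ) + 1) ^ NM n d := by
                have h9 : (3 / bet) ^ (x1rU τ).card * (C1 * bet) ^ (x1rU τ).card =
                    (3 * C1) ^ (x1rU τ).card := by
                  rw [← mul_pow]
                  congr 1
                  field_simp
                rw [← h9]
                ring
            _ ≤ (2 ^ VV * (3 * C1) ^ VV * Cr * C2) * bet ^ 2 *
                  (2 * (H : ℝ) + 1) ^ NM n d := by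
                have h10 : (3 * C1) ^ (x1rU τ).card ≤ (3 * C1) ^ VV :=
                  pow_le_pow_right₀ (by linarith) hUV
                refine mul_le_mul_of_nonneg_right ?_ (by positivity)
                refine mul_le_mul_of_nonneg_right ?_ (by positivity)
                refine mul_le_mul_of_nonneg_right ?_ hC2pos.le
                refine mul_le_mul_of_nonneg_right ?_ hCr.le
                exact mul_le_mul_of_nonneg_left h10 (by positivity)
  calc (Set.ncard {A : MIdx n d → ℤ | A ∈ MBox n d H ∧ ∃ z : MVar n → ℝ, BNorm z ∧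
        MF (fun t => (A t : ℝ)) z = 0 ∧ ∀ v, |MD (fun t => (A t : ℝ)) z v| < bet * H} : ℝ)
      ≤ U.card := by exact_mod_cast h1
    _ ≤ _ := h2
    _ = TT * (2 ^ VV * (3 * C1) ^ VV * Cr * C2) * bet ^ 2 * (2 * H + 1) ^ NM n d := by
        rw [Finset.sum_const, card_univ, nsmul_eq_mul]
        ring

end multi

end GenHP
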